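import Mathlib
set_option autoImplicit false
open Complex Metric Set MeasureTheory Filter Topology

namespace Pool.Agent.Helper469.Univalent

/-- A holomorphic injective function on an open set has non-vanishing derivative. -/
lemma deriv_ne_zero_of_injOn {f : ℂ → ℂ} {U : Set ℂ} (hU : IsOpen U) (hf : DifferentiableOn ℂ f U)
    (hinj : Set.InjOn f U) {z₀ : ℂ} (hz : z₀ ∈ U) : deriv f z₀ ≠ 0 := by
  intro h0
  have hfa : AnalyticAt ℂ f z₀ := hf.analyticAt (hU.mem_nhds hz)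
  have hFa : AnalyticAt ℂ (fun z => f z - f z₀) z₀ := hfa.sub analyticAt_const
  have hne : ¬ ∀ᶠ z in 𝓝 z₀, f z - f z₀ = 0 := by
    intro h
    have h1 : ∀ᶠ z in 𝓝[≠] z₀, f z - f z₀ = 0 ∧ z ∈ U ∧ z ≠ z₀ := by
      filter_upwards [h.filter_mono nhdsWithin_le_nhds,
        (hU.mem_nhds hz |> fun h => mem_nhdsWithin_of_mem_nhds h),
        self_mem_nhdsWithin] with z h1 h2 h3
      exact ⟨h1, h2, h3⟩
    obtain ⟨z, hz1, hz2, hz3⟩ := h1.exists
    exact hz3 (hinj hz2 hz (sub_eq_zero.mp hz1))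
  obtain ⟨n, g, hga, hg0, hgeq⟩ := hFa.exists_eventuallyEq_pow_smul_nonzero_iff.mpr hne
  have hn0 : n ≠ 0 := by
    rintro rfl
    have := hgeq.self_of_nhds
    simp at this
    exact hg0 this.symm
  have hn1 : n ≠ 1 := by
    rintro rfl
    have h1 : HasDerivAt (fun z => (z - z₀) ^ 1 • g z) (g z₀) z₀ := by
      have h2 := ((hasDerivAt_id z₀).sub_const z₀).mul hga.differentiableAt.hasDerivAt
      simpa using! h2
    have h3 : HasDerivAt (fun z => f z - f z₀) (g z₀) z₀ := h1.congr_of_eventuallyEq hgeq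
    have h4 : HasDerivAt f (g z₀) z₀ := by simpa using h3.add_const (f z₀)
    rw [h4.deriv] at h0
    exact hg0 h0
  obtain ⟨c, hc⟩ := IsAlgClosed.exists_pow_nat_eq (g z₀) (Nat.pos_of_ne_zero hn0)
  have hc0 : c ≠ 0 := by
    rintro rfl
    rw [zero_pow hn0] at hc
    exact hg0 hc.symm
  set h : ℂ → ℂ := fun z => c * (g z / g z₀) ^ (1 / (n : ℂ)) with hh
  have hslit : g z₀ / g z₀ ∈ Complex.slitPlane := by rw [div_self hg0]; exact Complex.one_mem_slitPlane
  have hha : AnalyticAt ℂ h z₀ := by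
    apply analyticAt_const.mul
    exact (hga.div analyticAt_const hg0).cpow analyticAt_const hslit
  have hnC : (n : ℂ) ≠ 0 := by exact_mod_cast hn0
  have hhn : ∀ z, h z ^ n = g z := by
    intro z
    rw [hh]
    simp only
    rw [mul_pow, hc, ← Complex.cpow_mul_nat]
    rw [one_div, inv_mul_cancel₀ hnC, Complex.cpow_one]
    field_simp
  have hh0 : h z₀ = c := by
    rw [hh]; simp [div_self hg0]
  set φ : ℂ → ℂ := fun z => (z - z₀) * h z with hφ
  have hφd : HasStrictDerivAt φ c z₀ := by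
    have h1 : HasStrictDerivAt h (deriv h z₀) z₀ := hha.hasStrictDerivAt
    have h2 : HasStrictDerivAt (fun z : ℂ => z - z₀) 1 z₀ := (hasStrictDerivAt_id z₀).sub_const z₀
    have h3 := h2.mul h1
    rw [← hh0]
    simpa using! h3
  have hmap : map φ (𝓝 z₀) = 𝓝 0 := by
    have := hφd.map_nhds_eq hc0
    rw [this]
    congr 1
    rw [hφ]; simp
  have hV : ∀ᶠ z in 𝓝 z₀, z ∈ U ∧ f z - f z₀ = φ z ^ n := by
    filter_upwards [hU.mem_nhds hz, hgeq] with z h1 h2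
    refine ⟨h1, ?_⟩
    rw [h2, hφ]
    simp only
    rw [mul_pow, hhn, smul_eq_mul]
  obtain ⟨V, hVm, hV2⟩ := hV.exists_mem
  have himg : φ '' V ∈ 𝓝 (0 : ℂ) := by
    rw [← hmap]
    exact image_mem_map hVm
  set ζ : ℂ := Complex.exp (2 * Real.pi * I / n) with hζ
  have hprim : IsPrimitiveRoot ζ n := Complex.isPrimitiveRoot_exp n hn0
  have hζ1 : ζ ≠ 1 := hprim.ne_one (by omega)
  have hζn : ζ ^ n = 1 := hprim.pow_eq_one
  have hcont : Tendsto (fun w : ℂ => ζ * w) (𝓝 0) (𝓝 0) := by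
    have : Continuous (fun w : ℂ => ζ * w) := by fun_prop
    simpa using this.tendsto 0
  have hboth : ∀ᶠ w in 𝓝[≠] (0 : ℂ), w ∈ φ '' V ∧ ζ * w ∈ φ '' V ∧ w ≠ 0 := by
    filter_upwards [mem_nhdsWithin_of_mem_nhds himg, mem_nhdsWithin_of_mem_nhds (hcont himg),
      self_mem_nhdsWithin] with w h1 h2 h3
    exact ⟨h1, h2, h3⟩
  obtain ⟨w, ⟨z1, hz1, hw1⟩, ⟨z2, hz2, hw2⟩, hw0⟩ := hboth.exists
  have e1 := (hV2 z1 hz1).2
  have e2 := (hV2 z2 hz2).2
  rw [hw1] at e1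
  rw [hw2, mul_pow, hζn, one_mul] at e2
  have e3 : f z1 = f z2 := by
    have : f z1 - f z₀ = f z2 - f z₀ := by rw [e1, e2]
    linear_combination this
  have e4 := hinj (hV2 z1 hz1).1 (hV2 z2 hz2).1 e3
  rw [← e4, hw1] at hw2
  apply hζ1
  have : (ζ - 1) * w = 0 := by linear_combination -hw2
  rcases mul_eq_zero.mp this with h1 | h1
  · linear_combination h1
  · exact absurd h1 hw0


theorem deriv_ne_zero_of_inj (g : ℂ → ℂ) (hd : DifferentiableOn ℂ g (ball 0 1))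
    (hi : InjOn g (ball 0 1)) : deriv g 0 ≠ 0 :=
  deriv_ne_zero_of_injOn isOpen_ball hd hi (mem_ball_self one_pos)

theorem det_restrict (c : ℂ) :
    |((ContinuousLinearMap.toSpanSingleton ℂ c).restrictScalars ℝ).det| = ‖c‖ ^ 2 := by
  simp [ContinuousLinearMap.det, LinearMap.det_restrictScalars, Algebra.norm_complex_eq,
    Complex.normSq_eq_norm_sq]

/-- area formula, inequality for holomorphic maps -/
theorem vol_image_le (φ : ℂ → ℂ) (U S : Set ℂ) (hU : IsOpen U) (hφ : DifferentiableOn ℂ φ U)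
    (hS : MeasurableSet S) (hSU : S ⊆ U) :
    volume (φ '' S) ≤ ∫⁻ z in S, ENNReal.ofReal (‖deriv φ z‖ ^ 2) := by
  have h := addHaar_image_le_lintegral_abs_det_fderiv (f := φ) volume hS
    (f' := fun x => (ContinuousLinearMap.toSpanSingleton ℂ (deriv φ x)).restrictScalars ℝ)
    (fun x hx => (((hφ.differentiableAt (hU.mem_nhds (hSU hx))).hasDerivAt).hasFDerivAt.restrictScalars
      ℝ).hasFDerivWithinAt)
  simpa only [det_restrict] using h

/-- area formula, equality for injective holomorphic maps -/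
theorem vol_image_eq (φ : ℂ → ℂ) (U S : Set ℂ) (hU : IsOpen U) (hφ : DifferentiableOn ℂ φ U)
    (hS : MeasurableSet S) (hSU : S ⊆ U) (hi : InjOn φ S) :
    ∫⁻ z in S, ENNReal.ofReal (‖deriv φ z‖ ^ 2) = volume (φ '' S) := by
  have h := lintegral_abs_det_fderiv_eq_addHaar_image (f := φ) volume hS
    (f' := fun x => (ContinuousLinearMap.toSpanSingleton ℂ (deriv φ x)).restrictScalars ℝ)
    (fun x hx => (((hφ.differentiableAt (hU.mem_nhds (hSU hx))).hasDerivAt).hasFDerivAt.restrictScalars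
      ℝ).hasFDerivWithinAt) hi
  simpa only [det_restrict] using h

theorem mean_disc (F : ℂ → ℂ) (r : ℝ) (hr : 0 < r) (hF : DifferentiableOn ℂ F (ball 0 r)) :
    ENNReal.ofReal (Real.pi * r ^ 2 * ‖F 0‖) ≤ ∫⁻ w in ball 0 r, ENNReal.ofReal ‖F w‖ := by
  rw [← lintegral_indicator measurableSet_ball, ← Complex.lintegral_comp_polarCoord_symm]
  have hsub : Ioo (0:ℝ) r ×ˢ Ioo (-Real.pi) Real.pi ⊆ polarCoord.target := by
    rintro ⟨a, b⟩ ⟨ha, hb⟩
    exact ⟨ha.1, hb⟩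
  refine le_trans ?_ (lintegral_mono_set hsub)
  have h1 : ∫⁻ p in Ioo (0:ℝ) r ×ˢ Ioo (-Real.pi) Real.pi, ENNReal.ofReal p.1 •
      (ball (0:ℂ) r).indicator (fun w => ENNReal.ofReal ‖F w‖) (Complex.polarCoord.symm p) =
      ∫⁻ p in Ioo (0:ℝ) r ×ˢ Ioo (-Real.pi) Real.pi,
        ENNReal.ofReal p.1 * ENNReal.ofReal ‖F (circleMap 0 p.1 p.2)‖ := by
    apply setLIntegral_congr_fun (measurableSet_Ioo.prod measurableSet_Ioo)
    rintro ⟨ρ, θ⟩ ⟨hρ, -⟩
    simp only [mem_Ioo] at hρ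
    simp only [smul_eq_mul]
    have hn : ‖Complex.polarCoord.symm (ρ, θ)‖ = ρ := by
      rw [Complex.norm_polarCoord_symm]; exact abs_of_pos hρ.1
    rw [indicator_of_mem (by rw [mem_ball, dist_zero_right, hn]; exact hρ.2)]
    congr 4
    rw [Complex.polarCoord_symm_apply, circleMap, zero_add, Complex.exp_mul_I]
    simp
  rw [h1, Measure.volume_eq_prod]
  have hmaps : ∀ p ∈ Ioo (0:ℝ) r ×ˢ Ioo (-Real.pi) Real.pi, circleMap 0 p.1 p.2 ∈ ball (0:ℂ) r := by
    rintro ⟨ρ, θ⟩ ⟨hρ, -⟩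
    simp only [mem_Ioo] at hρ
    rw [mem_ball, dist_zero_right, norm_circleMap_zero]
    rw [abs_of_pos hρ.1]; exact hρ.2
  have hcm : Continuous (fun p : ℝ × ℝ => circleMap 0 p.1 p.2) := by
    unfold circleMap; fun_prop
  have hcont : ContinuousOn (fun p : ℝ × ℝ => ‖F (circleMap 0 p.1 p.2)‖)
      (Ioo (0:ℝ) r ×ˢ Ioo (-Real.pi) Real.pi) :=
    (hF.continuousOn.comp hcm.continuousOn hmaps).norm
  rw [setLIntegral_prod]
  swap
  · have h2 : AEMeasurable (fun p : ℝ × ℝ => ‖F (circleMap 0 p.1 p.2)‖)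
        ((volume : Measure (ℝ × ℝ)).restrict (Ioo (0:ℝ) r ×ˢ Ioo (-Real.pi) Real.pi)) :=
      hcont.aemeasurable (measurableSet_Ioo.prod measurableSet_Ioo)
    exact (measurable_fst.ennreal_ofReal.aemeasurable).mul h2.ennreal_ofReal
  have hinner : ∀ ρ ∈ Ioo (0:ℝ) r, ENNReal.ofReal ρ * ENNReal.ofReal (2 * Real.pi * ‖F 0‖) ≤
      ∫⁻ θ in Ioo (-Real.pi) Real.pi, ENNReal.ofReal ρ * ENNReal.ofReal ‖F (circleMap 0 ρ θ)‖ := by
    intro ρ hρ
    rw [lintegral_const_mul' _ _ ENNReal.ofReal_ne_top]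
    gcongr
    have hd : DiffContOnCl ℂ F (ball 0 |ρ|) := by
      rw [abs_of_pos hρ.1]
      apply DifferentiableOn.diffContOnCl
      rw [closure_ball _ hρ.1.ne']
      exact hF.mono (closedBall_subset_ball hρ.2)
    have hav := hd.circleAverage
    rw [Real.circleAverage_eq_integral_add (-Real.pi)] at hav
    rw [intervalIntegral.integral_comp_add_right (fun θ => F (circleMap 0 ρ θ))] at hav
    have hpi := Real.pi_pos
    have e1 : (0:ℝ) + -Real.pi = -Real.pi := by ring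
    have e2 : 2 * Real.pi + -Real.pi = Real.pi := by ring
    rw [e1, e2, intervalIntegral.integral_of_le (by linarith),
      integral_Ioc_eq_integral_Ioo] at hav
    have h3 : ((2 * Real.pi : ℝ)) • F 0 = ∫ θ in Ioo (-Real.pi) Real.pi, F (circleMap 0 ρ θ) := by
      rw [← hav, smul_smul, mul_inv_cancel₀ (by positivity), one_smul]
    have h4 := enorm_integral_le_lintegral_enorm
      (μ := volume.restrict (Ioo (-Real.pi) Real.pi)) (fun θ => F (circleMap 0 ρ θ))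
    rw [← h3] at h4
    have h5 : ‖(2 * Real.pi : ℝ) • F 0‖ₑ = ENNReal.ofReal (2 * Real.pi * ‖F 0‖) := by
      rw [← ofReal_norm, norm_smul, Real.norm_eq_abs, abs_of_pos (by positivity)]
    rw [h5] at h4
    refine h4.trans (le_of_eq ?_)
    apply lintegral_congr
    intro θ
    rw [ofReal_norm]
  refine le_trans ?_ (setLIntegral_mono' measurableSet_Ioo hinner)
  rw [lintegral_mul_const _ (by fun_prop)]
  have h6 : ∫⁻ ρ in Ioo (0:ℝ) r, ENNReal.ofReal ρ = ENNReal.ofReal (r ^ 2 / 2) := by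
    rw [restrict_Ioo_eq_restrict_Ioc, ← ofReal_integral_eq_lintegral_ofReal]
    · rw [← intervalIntegral.integral_of_le hr.le, integral_id]
      congr 1; ring
    · exact (continuous_id.integrableOn_Icc.mono_set Ioc_subset_Icc_self)
    · filter_upwards [ae_restrict_mem measurableSet_Ioc] with x hx
      exact hx.1.le
  rw [h6, ← ENNReal.ofReal_mul (by positivity)]
  apply ENNReal.ofReal_le_ofReal
  apply le_of_eq
  ring

/-- an injective holomorphic map with small image area has small derivative -/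
theorem area_deriv (g : ℂ → ℂ) (z : ℂ) (r E : ℝ) (hr : 0 < r) (hE : 0 ≤ E)
    (hd : DifferentiableOn ℂ g (ball z r)) (hi : InjOn g (ball z r))
    (hv : volume (g '' ball z r) ≤ ENNReal.ofReal E) :
    ‖deriv g z‖ ≤ Real.sqrt (E / Real.pi) / r := by
  have h1 := vol_image_eq g (ball z r) (ball z r) isOpen_ball hd measurableSet_ball subset_rfl hi
  set G : ℂ → ℂ := fun w => g (w + z) with hG
  have hmap : ∀ w ∈ ball (0:ℂ) r, w + z ∈ ball z r := by
    intro w hw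
    rw [mem_ball, dist_eq_norm] at *
    simpa using hw
  have hGd : DifferentiableOn ℂ G (ball 0 r) := by
    apply hd.comp (by fun_prop)
    intro w hw
    exact hmap w hw
  have hGderiv : ∀ w, deriv G w = deriv g (w + z) := by
    intro w
    rw [hG, deriv_comp_add_const]
  have hF : DifferentiableOn ℂ (fun w => (deriv G w) ^ 2) (ball 0 r) :=
    (hGd.deriv isOpen_ball).pow 2
  have h2 := mean_disc _ r hr hF
  have h3 : ∫⁻ w in ball (0:ℂ) r, ENNReal.ofReal ‖(fun w => (deriv G w) ^ 2) w‖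
      = ∫⁻ w in ball z r, ENNReal.ofReal (‖deriv g w‖ ^ 2) := by
    have hmp : MeasurePreserving (fun w : ℂ => w + z) volume volume :=
      measurePreserving_add_right volume z
    have hemb : MeasurableEmbedding (fun w : ℂ => w + z) := measurableEmbedding_addRight z
    have h4 := hmp.setLIntegral_comp_preimage_emb hemb
      (fun w => ENNReal.ofReal (‖deriv g w‖ ^ 2)) (ball z r)
    rw [← h4]
    have h5 : (fun w : ℂ => w + z) ⁻¹' ball z r = ball 0 r := by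
      ext w
      simp [mem_ball, dist_eq_norm]
    rw [h5]
    apply lintegral_congr
    intro w
    rw [norm_pow, hGderiv]
  rw [h3, h1] at h2
  have h6 := h2.trans hv
  rw [ENNReal.ofReal_le_ofReal_iff hE, norm_pow, hGderiv, zero_add] at h6
  rw [le_div_iff₀ hr]
  apply Real.le_sqrt_of_sq_le
  rw [le_div_iff₀ Real.pi_pos]
  nlinarith [h6]

theorem osc (g : ℂ → ℂ) (hd : DifferentiableOn ℂ g (ball 0 1)) (ζ : ℂ) (hζ : ‖ζ‖ = 1)
    (ρ K : ℝ) (h0 : 0 < ρ) (h1 : ρ ≤ 1) (hK : 0 ≤ K)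
    (hder : ∀ z : ℂ, ‖z‖ < 1 → ‖z - ζ‖ ≤ 3 * ρ / 4 →
      ‖deriv g z‖ ≤ K / min (1 - ‖z‖) (ρ / 4))
    (z : ℂ) (hz : ‖z‖ < 1) (hz' : ‖z - ζ‖ ≤ ρ / 4) :
    ‖g z - g (((1 - ρ / 4 : ℝ) : ℂ) * ζ)‖ ≤ K * (2 + Real.log (ρ / (4 * (1 - ‖z‖)))) := by
  have hgd : ∀ w : ℂ, ‖w‖ < 1 → HasDerivAt g (deriv g w) w := fun w hw =>
    (hd.differentiableAt (isOpen_ball.mem_nhds (by simpa using hw))).hasDerivAt
  set r : ℝ := ‖z‖ with hr
  set a : ℝ := 1 - ρ / 4 with ha
  have har : a ≤ r := by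
    have h2 : ‖ζ‖ - ‖z‖ ≤ ‖z - ζ‖ := by
      rw [norm_sub_rev]; exact norm_sub_norm_le ζ z
    rw [hζ] at h2
    linarith
  have ha0 : 0 < a := by linarith
  have hr0 : 0 < r := by linarith
  set e : ℂ := z / (r : ℂ) with he
  have hrc : (r : ℂ) ≠ 0 := by exact_mod_cast hr0.ne'
  have hen : ‖e‖ = 1 := by
    rw [he, norm_div, Complex.norm_real, Real.norm_of_nonneg hr0.le, ← hr, div_self hr0.ne']
  have hze : z = (r : ℂ) * e := by rw [he]; field_simp
  have hez : ‖e - z‖ = 1 - r := by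
    have : e - z = ((1 - r : ℝ) : ℂ) * e := by
      conv_lhs => rw [hze]
      push_cast; ring
    rw [this, norm_mul, hen, mul_one, Complex.norm_real, Real.norm_of_nonneg (by linarith)]
  have heζ : ‖e - ζ‖ ≤ ρ / 2 := by
    calc ‖e - ζ‖ = ‖(e - z) + (z - ζ)‖ := by rw [sub_add_sub_cancel]
      _ ≤ ‖e - z‖ + ‖z - ζ‖ := norm_add_le _ _
      _ ≤ ρ / 2 := by rw [hez]; linarith
  -- points on the radial path
  have hpn : ∀ x : ℝ, a ≤ x → x ≤ r → ‖(x : ℂ) * e‖ = x := by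
    intro x hx _
    rw [norm_mul, hen, mul_one, Complex.norm_real, Real.norm_of_nonneg (by linarith)]
  have hpζ : ∀ x : ℝ, a ≤ x → x ≤ r → ‖(x : ℂ) * e - ζ‖ ≤ 3 * ρ / 4 := by
    intro x hx hxr
    have e1 : ‖(x : ℂ) * e - e‖ = 1 - x := by
      have : (x : ℂ) * e - e = -(((1 - x : ℝ) : ℂ) * e) := by push_cast; ring
      rw [this, norm_neg, norm_mul, hen, mul_one, Complex.norm_real,
        Real.norm_of_nonneg (by linarith)]
    calc ‖(x : ℂ) * e - ζ‖ = ‖((x : ℂ) * e - e) + (e - ζ)‖ := by rw [sub_add_sub_cancel]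
      _ ≤ ‖(x : ℂ) * e - e‖ + ‖e - ζ‖ := norm_add_le _ _
      _ ≤ 3 * ρ / 4 := by rw [e1]; linarith
  -- step 1
  have hstep1 : ‖g z - g ((a : ℂ) * e)‖ ≤ K * Real.log (ρ / (4 * (1 - r))) := by
    set f : ℝ → ℂ := fun x => g ((x : ℂ) * e) - g ((a : ℂ) * e) with hf
    have hfd : ∀ x : ℝ, a ≤ x → x ≤ r → HasDerivAt f (deriv g ((x : ℂ) * e) * e) x := by
      intro x hx hxr
      have h2 : HasDerivAt (fun w : ℂ => w * e) e (x : ℂ) := by
        simpa using (hasDerivAt_id (x : ℂ)).mul_const e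
      have h3 : HasDerivAt g (deriv g ((x : ℂ) * e)) ((x : ℂ) * e) :=
        hgd _ (by rw [hpn x hx hxr]; linarith)
      exact ((h3.comp (x : ℂ) h2).comp_ofReal).sub_const _
    have hB : ∀ x ∈ Icc a r, HasDerivAt (fun x : ℝ => K * (Real.log (ρ / 4) - Real.log (1 - x)))
        (K / (1 - x)) x := by
      intro x hx
      have h5 : (1 : ℝ) - x ≠ 0 := by
        have := hx.2
        intro h; linarith
      have h6 : HasDerivAt (fun x : ℝ => Real.log (1 - x)) ((-1) / (1 - x)) x :=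
        ((hasDerivAt_id x).const_sub 1).log h5
      have h7 := (h6.const_sub (Real.log (ρ / 4))).const_mul K
      rw [neg_div, neg_neg, mul_one_div] at h7
      exact h7
    have key := image_norm_le_of_norm_deriv_right_le_deriv_boundary' (a := a) (b := r)
      (f := f) (f' := fun x => deriv g ((x : ℂ) * e) * e)
      (B := fun x : ℝ => K * (Real.log (ρ / 4) - Real.log (1 - x)))
      (B' := fun x => K / (1 - x))
      (fun x hx => (hfd x hx.1 hx.2).continuousAt.continuousWithinAt)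
      (fun x hx => (hfd x hx.1 hx.2.le).hasDerivWithinAt)
      (by
        simp only [hf, sub_self, norm_zero]
        have : (1 : ℝ) - a = ρ / 4 := by rw [ha]; ring
        rw [this, sub_self, mul_zero])
      (fun x hx => (hB x hx).continuousAt.continuousWithinAt)
      (fun x hx => (hB x ⟨hx.1, hx.2.le⟩).hasDerivWithinAt)
      (by
        intro x hx
        rw [norm_mul, hen, mul_one]
        have h8 := hder ((x : ℂ) * e) (by rw [hpn x hx.1 hx.2.le]; linarith [hx.2])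
          (hpζ x hx.1 hx.2.le)
        rw [hpn x hx.1 hx.2.le, min_eq_left (by linarith [hx.1])] at h8
        exact h8)
    have h9 := key (x := r) ⟨har, le_rfl⟩
    simp only [hf] at h9
    rw [← hze] at h9
    refine h9.trans (le_of_eq ?_)
    have h10 : (0 : ℝ) < 1 - r := by linarith
    rw [← Real.log_div (by positivity) h10.ne']
    congr 2
    field_simp
  -- step 2
  have hstep2 : ‖g ((a : ℂ) * e) - g ((a : ℂ) * ζ)‖ ≤ 2 * K := by
    have hconv : Convex ℝ (closedBall (0 : ℂ) a ∩ closedBall ζ (3 * ρ / 4)) :=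
      (convex_closedBall _ _).inter (convex_closedBall _ _)
    have h2 := hconv.norm_image_sub_le_of_norm_deriv_le (𝕜 := ℂ) (f := g) (C := K / (ρ / 4))
      (x := (a : ℂ) * ζ) (y := (a : ℂ) * e) ?_ ?_ ?_ ?_
    · refine h2.trans ?_
      have h3 : ‖(a : ℂ) * e - (a : ℂ) * ζ‖ ≤ ρ / 2 := by
        rw [← mul_sub, norm_mul, Complex.norm_real, Real.norm_of_nonneg ha0.le]
        calc a * ‖e - ζ‖ ≤ 1 * (ρ / 2) :=
              mul_le_mul (by linarith) heζ (norm_nonneg _) (by norm_num)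
          _ = ρ / 2 := one_mul _
      calc K / (ρ / 4) * ‖(a : ℂ) * e - (a : ℂ) * ζ‖ ≤ K / (ρ / 4) * (ρ / 2) :=
            mul_le_mul_of_nonneg_left h3 (by positivity)
        _ = 2 * K := by field_simp; norm_num
    · intro w hw
      have hw1 : ‖w‖ ≤ a := by simpa using hw.1
      exact (hgd w (by linarith)).differentiableAt
    · intro w hw
      have hw1 : ‖w‖ ≤ a := by simpa using hw.1
      have hw2 : ‖w - ζ‖ ≤ 3 * ρ / 4 := by
        have := hw.2
        rwa [mem_closedBall, dist_eq_norm] at this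
      have h4 := hder w (by linarith) hw2
      rw [min_eq_right (by linarith)] at h4
      exact h4
    · constructor
      · rw [mem_closedBall, dist_zero_right, norm_mul, hζ, mul_one, Complex.norm_real,
          Real.norm_of_nonneg ha0.le]
      · rw [mem_closedBall, dist_eq_norm]
        have : (a : ℂ) * ζ - ζ = -(((ρ / 4 : ℝ) : ℂ) * ζ) := by rw [ha]; push_cast; ring
        rw [this, norm_neg, norm_mul, hζ, mul_one, Complex.norm_real,
          Real.norm_of_nonneg (by positivity)]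
        linarith
    · constructor
      · rw [mem_closedBall, dist_zero_right, hpn a le_rfl har]
      · rw [mem_closedBall, dist_eq_norm]
        exact hpζ a le_rfl har
  calc ‖g z - g ((a : ℂ) * ζ)‖ = ‖(g z - g ((a : ℂ) * e)) + (g ((a : ℂ) * e) - g ((a : ℂ) * ζ))‖ := by
        rw [sub_add_sub_cancel]
    _ ≤ ‖g z - g ((a : ℂ) * e)‖ + ‖g ((a : ℂ) * e) - g ((a : ℂ) * ζ)‖ := norm_add_le _ _
    _ ≤ K * Real.log (ρ / (4 * (1 - r))) + 2 * K := add_le_add hstep1 hstep2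
    _ = K * (2 + Real.log (ρ / (4 * (1 - r)))) := by ring

/-- energy: few of the small balls around roots of unity have a large image -/
theorem energy_count (N : ℕ) [NeZero N] (c : ZMod N → ℂ) (ρ : ℝ) (T : ℕ)
    (hc : ∀ w : ℂ, ((Finset.univ.filter (fun a : ZMod N => ‖w - c a‖ < ρ)).card) ≤ T)
    (g : ℂ → ℂ) (hd : DifferentiableOn ℂ g (ball 0 1)) (hi : InjOn g (ball 0 1))
    (M : ℝ) (hM : ∀ z ∈ ball (0:ℂ) 1, ‖g z‖ ≤ M) (t : ℝ) (ht : 0 < t)
    (vol_eq : ∀ S : Set ℂ, MeasurableSet S → S ⊆ ball (0:ℂ) 1 →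
      ∫⁻ z in S, ENNReal.ofReal (‖deriv g z‖ ^ 2) = volume (g '' S)) :
    ((Finset.univ.filter (fun a : ZMod N =>
      ENNReal.ofReal t < volume (g '' (ball (0:ℂ) 1 ∩ ball (c a) ρ)))).card : ℝ) * t
      ≤ T * (Real.pi * M ^ 2) := by
  classical
  have hM0 : 0 ≤ M := (norm_nonneg _).trans (hM 0 (mem_ball_self one_pos))
  set φ : ℂ → ENNReal := fun z => ENNReal.ofReal (‖deriv g z‖ ^ 2) with hφ
  have hφm : Measurable φ := (((measurable_deriv g).norm).pow_const 2).ennreal_ofReal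
  have h1 : ∀ a : ZMod N, volume (g '' (ball (0:ℂ) 1 ∩ ball (c a) ρ)) =
      ∫⁻ z in ball (0:ℂ) 1, (ball (c a) ρ).indicator φ z := by
    intro a
    rw [← vol_eq _ (measurableSet_ball.inter measurableSet_ball) inter_subset_left,
      lintegral_indicator measurableSet_ball, Measure.restrict_restrict measurableSet_ball,
      inter_comm]
  have h2 : ∑ a : ZMod N, volume (g '' (ball (0:ℂ) 1 ∩ ball (c a) ρ)) ≤
      T * ∫⁻ z in ball (0:ℂ) 1, φ z := by
    rw [Finset.sum_congr rfl (fun a _ => h1 a), ← lintegral_finsetSum]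
    · rw [← lintegral_const_mul _ hφm]
      apply lintegral_mono
      intro z
      show ∑ a : ZMod N, (ball (c a) ρ).indicator φ z ≤ T * φ z
      have h3 : ∀ a : ZMod N, (ball (c a) ρ).indicator φ z =
          if ‖z - c a‖ < ρ then φ z else 0 := by
        intro a
        rw [Set.indicator_apply]
        congr 1
        rw [mem_ball, dist_eq_norm]
      rw [Finset.sum_congr rfl (fun a _ => h3 a), ← Finset.sum_filter, Finset.sum_const,
        nsmul_eq_mul]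
      gcongr
      exact_mod_cast hc z
    · intro a _
      exact hφm.indicator measurableSet_ball
  have h4 : ∫⁻ z in ball (0:ℂ) 1, φ z ≤ ENNReal.ofReal (Real.pi * M ^ 2) := by
    rw [vol_eq _ measurableSet_ball Subset.rfl]
    refine (measure_mono (t := closedBall (0:ℂ) M) ?_).trans ?_
    · rintro _ ⟨z, hz, rfl⟩
      rw [mem_closedBall_zero_iff]
      exact hM z hz
    · rw [Complex.volume_closedBall]
      rw [mul_comm Real.pi, ENNReal.ofReal_mul (by positivity), ENNReal.ofReal_pow hM0]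
      gcongr
      rw [← NNReal.coe_real_pi, ENNReal.ofReal_coe_nnreal]
  set F := Finset.univ.filter (fun a : ZMod N =>
      ENNReal.ofReal t < volume (g '' (ball (0:ℂ) 1 ∩ ball (c a) ρ))) with hF
  have h5 : (F.card : ENNReal) * ENNReal.ofReal t ≤ T * ENNReal.ofReal (Real.pi * M ^ 2) := by
    calc (F.card : ENNReal) * ENNReal.ofReal t = ∑ a ∈ F, ENNReal.ofReal t := by
          rw [Finset.sum_const, nsmul_eq_mul]
      _ ≤ ∑ a ∈ F, volume (g '' (ball (0:ℂ) 1 ∩ ball (c a) ρ)) := by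
          apply Finset.sum_le_sum
          intro a ha
          exact (Finset.mem_filter.mp ha).2.le
      _ ≤ ∑ a : ZMod N, volume (g '' (ball (0:ℂ) 1 ∩ ball (c a) ρ)) :=
          Finset.sum_le_sum_of_subset (Finset.subset_univ _)
      _ ≤ T * ∫⁻ z in ball (0:ℂ) 1, φ z := h2
      _ ≤ T * ENNReal.ofReal (Real.pi * M ^ 2) := by gcongr
  have h6 : ENNReal.ofReal ((F.card : ℝ) * t) ≤ ENNReal.ofReal (T * (Real.pi * M ^ 2)) := by
    rw [ENNReal.ofReal_mul (Nat.cast_nonneg _), ENNReal.ofReal_mul (Nat.cast_nonneg _),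
      ENNReal.ofReal_natCast, ENNReal.ofReal_natCast]
    exact h5
  rwa [ENNReal.ofReal_le_ofReal_iff (by positivity)] at h6

/-- the `N`-th roots of unity, indexed by `ZMod N` -/
noncomputable def rt (N : ℕ) [NeZero N] (a : ZMod N) : ℂ := (ZMod.toCircle a : ℂ)

theorem norm_rt (N : ℕ) [NeZero N] (a : ZMod N) : ‖rt N a‖ = 1 := by
  unfold rt
  exact Circle.norm_coe _

theorem rt_add (N : ℕ) [NeZero N] (a b : ZMod N) : rt N (a + b) = rt N a * rt N b := by
  unfold rt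
  rw [AddChar.map_add_eq_mul]
  simp

theorem rt_natCast (N : ℕ) [NeZero N] (a : ℕ) :
    rt N (a : ZMod N) = Complex.exp (((2 * Real.pi * a / N : ℝ) : ℂ) * Complex.I) := by
  unfold rt
  have := ZMod.toCircle_intCast (N := N) (a : ℤ)
  rw [show ((a : ℤ) : ZMod N) = (a : ZMod N) by push_cast; rfl] at this
  rw [this]
  congr 1
  push_cast
  ring

theorem rt_intCast (N : ℕ) [NeZero N] (a : ℤ) :
    rt N (a : ZMod N) = Complex.exp (((2 * Real.pi * a / N : ℝ) : ℂ) * Complex.I) := by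
  unfold rt
  rw [ZMod.toCircle_intCast]
  congr 1
  push_cast
  ring

theorem rt_half (N : ℕ) [NeZero N] (hN : Even N) (a : ZMod N) :
    rt N (a + ((N / 2 : ℕ) : ZMod N)) = - rt N a := by
  rw [rt_add, rt_natCast]
  have hN0 : (N : ℝ) ≠ 0 := by exact_mod_cast NeZero.ne N
  obtain ⟨k, hk⟩ := hN
  have h2 : N / 2 = k := by omega
  have h3 : (2 * Real.pi * ((N / 2 : ℕ) : ℝ) / N : ℝ) = Real.pi := by
    rw [h2]
    have : (N : ℝ) = k + k := by exact_mod_cast hk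
    rw [this] at hN0 ⊢
    have hk0 : (k : ℝ) ≠ 0 := by
      intro h; apply hN0; rw [h]; ring
    field_simp
    ring
  rw [h3, Complex.exp_pi_mul_I]
  ring

/-- every point of the circle of radius `s` is a root of unity times a point near the positive axis -/
theorem rt_near (N : ℕ) [NeZero N] (z : ℂ) (hz : ‖z‖ ≤ 1) :
    ∃ b : ZMod N, ∃ z' : ℂ, z = rt N b * z' ∧ ‖z'‖ = ‖z‖ ∧ ‖z' - (‖z‖ : ℂ)‖ ≤ Real.pi / N := by
  have hNpos : (0 : ℝ) < N := by exact_mod_cast Nat.pos_of_ne_zero (NeZero.ne N)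
  set t : ℝ := N * Complex.arg z / (2 * Real.pi) with ht
  set k : ℤ := round t with hk
  have hround : |t - k| ≤ 1 / 2 := abs_sub_round t
  set θ : ℝ := Complex.arg z - 2 * Real.pi * k / N with hθ
  have hpi := Real.pi_pos
  have hθ' : |θ| ≤ Real.pi / N := by
    have : θ = (2 * Real.pi / N) * (t - k) := by
      rw [hθ, ht]
      field_simp
    rw [this, abs_mul, abs_of_pos (by positivity)]
    calc 2 * Real.pi / N * |t - k| ≤ 2 * Real.pi / N * (1 / 2) := by gcongr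
      _ = Real.pi / N := by ring
  refine ⟨(k : ZMod N), (‖z‖ : ℂ) * Complex.exp (θ * Complex.I), ?_, ?_, ?_⟩
  · rw [rt_intCast]
    rw [mul_left_comm, ← Complex.exp_add]
    have : ((2 * Real.pi * k / N : ℝ) : ℂ) * Complex.I + (θ : ℂ) * Complex.I
        = (Complex.arg z : ℂ) * Complex.I := by
      rw [hθ]; push_cast; ring
    rw [this]
    exact (Complex.norm_mul_exp_arg_mul_I z).symm
  · rw [norm_mul, Complex.norm_exp_ofReal_mul_I]
    simp
  · have : (‖z‖ : ℂ) * Complex.exp (θ * Complex.I) - (‖z‖ : ℂ)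
        = (‖z‖ : ℂ) * (Complex.exp (Complex.I * θ) - 1) := by
      rw [mul_comm Complex.I]; ring
    rw [this, norm_mul]
    have h1 : ‖Complex.exp (Complex.I * θ) - 1‖ ≤ |θ| := by
      have := Real.norm_exp_I_mul_ofReal_sub_one_le (x := θ)
      simpa using this
    have h2 : ‖(‖z‖ : ℂ)‖ ≤ 1 := by simpa using hz
    calc ‖(‖z‖ : ℂ)‖ * ‖Complex.exp (Complex.I * θ) - 1‖ ≤ 1 * |θ| := by gcongr
      _ ≤ Real.pi / N := by rw [one_mul]; exact hθ'

theorem card_near_real (S : Finset ℕ) (c L : ℝ) (hL : 0 ≤ L) (hS : ∀ a ∈ S, |(a : ℝ) - c| < L) :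
    (S.card : ℝ) ≤ 2 * L + 1 := by
  classical
  rcases S.eq_empty_or_nonempty with rfl | hne
  · simp only [Finset.card_empty, Nat.cast_zero]
    positivity
  · set m := S.min' hne with hm
    set M := S.max' hne with hM
    have hsub : S ⊆ Finset.Icc m M := by
      intro a ha
      rw [Finset.mem_Icc]
      exact ⟨S.min'_le a ha, S.le_max' a ha⟩
    have hcard := Finset.card_le_card hsub
    rw [Nat.card_Icc] at hcard
    have hmM : m ≤ M := S.min'_le_max' hne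
    have h1 := hS m (S.min'_mem hne)
    have h2 := hS M (S.max'_mem hne)
    rw [abs_lt] at h1 h2
    have h3 : (M : ℝ) - m < 2 * L := by linarith
    have h4 : (S.card : ℝ) ≤ (M : ℝ) + 1 - m := by
      have : S.card + m ≤ M + 1 := by omega
      have : ((S.card + m : ℕ) : ℝ) ≤ ((M + 1 : ℕ) : ℝ) := by exact_mod_cast this
      push_cast at this
      linarith
    linarith

/-- few roots of unity lie near a given point of the circle -/
theorem count_near (N : ℕ) [NeZero N] (w : ℂ) (hw : ‖w‖ = 1) (s : ℝ) (hs : 0 ≤ s) :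
    ((Finset.univ.filter (fun a : ZMod N => ‖rt N a - w‖ < s)).card : ℝ) ≤ N * s + 2 := by
  classical
  have hNpos : (0 : ℝ) < N := by exact_mod_cast Nat.pos_of_ne_zero (NeZero.ne N)
  have hpi := Real.pi_pos
  set β := Complex.arg w with hβ
  have hw' : w = Complex.exp (β * Complex.I) := by
    have := Complex.norm_mul_exp_arg_mul_I w
    rw [hw] at this
    simpa using this.symm
  have hβ1 := Complex.neg_pi_lt_arg w
  have hβ2 := Complex.arg_le_pi w
  set S := (Finset.univ.filter (fun a : ZMod N => ‖rt N a - w‖ < s)) with hS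
  set T := S.image ZMod.val with hT
  have hTS : T.card = S.card := Finset.card_image_of_injective _ (ZMod.val_injective N)
  set c0 : ℝ := N * β / (2 * Real.pi) with hc0
  set c1 : ℝ := N * (β + 2 * Real.pi) / (2 * Real.pi) with hc1
  set T0 := T.filter (fun a : ℕ => |(a : ℝ) - c0| < N * s / 4) with hT0
  set T1 := T.filter (fun a : ℕ => |(a : ℝ) - c1| < N * s / 4) with hT1
  have hkey : T ⊆ T0 ∪ T1 := by
    intro n hn
    have hn' := hn
    rw [hT, Finset.mem_image] at hn'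
    obtain ⟨a, ha, rfl⟩ := hn'
    rw [hS, Finset.mem_filter] at ha
    have ha2 := ha.2
    have haN : (a.val : ℝ) < N := by exact_mod_cast ZMod.val_lt a
    have hav : rt N a = Complex.exp (((2 * Real.pi * a.val / N : ℝ) : ℂ) * Complex.I) := by
      rw [← rt_natCast]; congr 1; simp
    -- reduce to an estimate of |sin|
    have hmain : ∀ x : ℝ, |x| ≤ Real.pi →
        Complex.exp (((2 * Real.pi * a.val / N : ℝ) : ℂ) * Complex.I)
          = Complex.exp (Complex.I * (x : ℂ)) * w → |x| < Real.pi * s / 2 := by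
      intro x hx hex
      rw [hav, hex] at ha2
      have h1 : Complex.exp (Complex.I * (x : ℂ)) * w - w = (Complex.exp (Complex.I * (x : ℂ)) - 1) * w := by
        ring
      rw [h1, norm_mul, hw, mul_one, Complex.norm_exp_I_mul_ofReal_sub_one] at ha2
      rw [Real.norm_eq_abs, abs_mul, abs_two] at ha2
      have h2 : 2 / Real.pi * (|x| / 2) ≤ Real.sin (|x| / 2) :=
        Real.mul_le_sin (by positivity) (by linarith)
      have h3 : |Real.sin (x / 2)| = Real.sin (|x| / 2) := by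
        rcases abs_cases x with ⟨h, h'⟩ | ⟨h, h'⟩
        · rw [h]; apply abs_of_nonneg
          apply Real.sin_nonneg_of_nonneg_of_le_pi
          · linarith
          · rw [h] at hx; linarith
        · rw [h, neg_div, Real.sin_neg]; apply abs_of_nonpos
          have : 0 ≤ Real.sin (-(x / 2)) := by
            apply Real.sin_nonneg_of_nonneg_of_le_pi
            · linarith
            · rw [h] at hx; linarith
          rw [Real.sin_neg] at this
          linarith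
      rw [h3] at ha2
      have h4 : 2 / Real.pi * (|x| / 2) = |x| / Real.pi := by ring
      rw [h4] at h2
      have h5 : |x| / Real.pi < s / 2 := by linarith
      rw [div_lt_iff₀ hpi] at h5
      linarith
    rw [Finset.mem_union]
    by_cases hcase : 2 * Real.pi * a.val / N - β ≤ Real.pi
    · left
      rw [hT0, Finset.mem_filter]
      refine ⟨hn, ?_⟩
      have hlow : -Real.pi ≤ 2 * Real.pi * a.val / N - β := by
        have : 0 ≤ 2 * Real.pi * a.val / N := by positivity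
        linarith
      have := hmain (2 * Real.pi * a.val / N - β) (abs_le.mpr ⟨hlow, hcase⟩) (by
        rw [hw', ← Complex.exp_add]
        congr 1
        push_cast; ring)
      have h6 : 2 * Real.pi * a.val / N - β = (2 * Real.pi / N) * ((a.val : ℝ) - c0) := by
        rw [hc0]; field_simp
      rw [h6, abs_mul, abs_of_pos (by positivity)] at this
      rw [div_mul_eq_mul_div, div_lt_iff₀ hNpos] at this
      nlinarith
    · right
      rw [hT1, Finset.mem_filter]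
      refine ⟨hn, ?_⟩
      push Not at hcase
      have hup : 2 * Real.pi * a.val / N - β - 2 * Real.pi ≤ Real.pi := by
        have : 2 * Real.pi * a.val / N ≤ 2 * Real.pi := by
          rw [div_le_iff₀ hNpos]
          gcongr
        linarith
      have := hmain (2 * Real.pi * a.val / N - β - 2 * Real.pi)
        (abs_le.mpr ⟨by linarith, hup⟩) (by
        rw [hw', ← Complex.exp_add]
        rw [show Complex.I * ((2 * Real.pi * a.val / N - β - 2 * Real.pi : ℝ) : ℂ) + (β : ℂ) * Complex.I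
          = ((2 * Real.pi * a.val / N : ℝ) : ℂ) * Complex.I - 2 * Real.pi * Complex.I by push_cast; ring]
        rw [Complex.exp_sub, Complex.exp_two_pi_mul_I, div_one])
      have h6 : 2 * Real.pi * a.val / N - β - 2 * Real.pi = (2 * Real.pi / N) * ((a.val : ℝ) - c1) := by
        rw [hc1]; field_simp; ring
      rw [h6, abs_mul, abs_of_pos (by positivity)] at this
      rw [div_mul_eq_mul_div, div_lt_iff₀ hNpos] at this
      nlinarith
  have hL : 0 ≤ (N : ℝ) * s / 4 := by positivity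
  have hA := card_near_real T0 c0 (N * s / 4) hL (fun a ha => (Finset.mem_filter.mp ha).2)
  have hB := card_near_real T1 c1 (N * s / 4) hL (fun a ha => (Finset.mem_filter.mp ha).2)
  have hC : T.card ≤ T0.card + T1.card := (Finset.card_le_card hkey).trans (Finset.card_union_le _ _)
  have hC' : (T.card : ℝ) ≤ T0.card + T1.card := by exact_mod_cast hC
  rw [← hTS]
  linarith

/-- maximum modulus principle for the product of the rotated functions -/
theorem product_bound (N : ℕ) [NeZero N] (h : ℂ → ℂ) (hh : DifferentiableOn ℂ h (ball 0 1))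
    (s : ℝ) (hs0 : 0 < s) (hs1 : s < 1) (M₁ δ₁ : ℝ) (hδ : 0 ≤ δ₁) (hM : 1 ≤ M₁) (hδM : δ₁ ≤ M₁)
    (G : Finset (ZMod N))
    (rt_near : ∀ z : ℂ, ‖z‖ ≤ 1 → ∃ b : ZMod N, ∃ z' : ℂ, z = rt N b * z' ∧ ‖z'‖ = ‖z‖ ∧
      ‖z' - (‖z‖ : ℂ)‖ ≤ Real.pi / N)
    (hgood : ∀ z' : ℂ, ‖z'‖ = s → ‖z' - (s : ℂ)‖ ≤ Real.pi / N → ∀ a ∈ G, ‖h (rt N a * z')‖ ≤ δ₁)
    (hall : ∀ z : ℂ, ‖z‖ = s → ‖h z‖ ≤ M₁) :
    ‖h 0‖ ^ N ≤ M₁ ^ (N - G.card) * δ₁ ^ G.card := by
  classical
  have hnorm : ∀ a : ZMod N, ‖rt N a‖ = 1 := by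
    intro a
    unfold rt
    exact Circle.norm_coe _
  have hadd : ∀ a b : ZMod N, rt N (a + b) = rt N a * rt N b := by
    intro a b
    unfold rt
    rw [AddChar.map_add_eq_mul]
    simp
  set f : ℂ → ℂ := fun z => ∏ a : ZMod N, h (rt N a * z) with hf
  have hfdiff : DifferentiableOn ℂ f (ball 0 1) := by
    rw [hf]
    apply DifferentiableOn.fun_finset_prod
    intro a _
    apply hh.comp
    · exact (differentiable_id.const_mul (rt N a)).differentiableOn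
    · intro z hz
      rw [mem_ball_zero_iff] at hz ⊢
      rw [norm_mul, hnorm, one_mul]
      exact hz
  have hcl : closure (ball (0:ℂ) s) = closedBall 0 s := closure_ball _ hs0.ne'
  have hfd : DiffContOnCl ℂ f (ball 0 s) := by
    apply DifferentiableOn.diffContOnCl
    rw [hcl]
    apply hfdiff.mono
    exact closedBall_subset_ball hs1
  have hbd : ∀ z ∈ frontier (ball (0:ℂ) s), ‖f z‖ ≤ M₁ ^ (N - G.card) * δ₁ ^ G.card := by
    intro z hz
    rw [frontier_ball _ hs0.ne'] at hz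
    have hzs : ‖z‖ = s := by simpa using hz
    obtain ⟨b, z', hzb, hz1, hz2⟩ := rt_near z (by rw [hzs]; exact hs1.le)
    have hfz : f z = ∏ a : ZMod N, h (rt N a * z') := by
      rw [hf]
      show ∏ a : ZMod N, h (rt N a * z) = _
      apply Fintype.prod_equiv (Equiv.addRight b)
      intro a
      show h (rt N a * z) = h (rt N (a + b) * z')
      rw [hadd, hzb, mul_assoc]
    rw [hfz, norm_prod]
    rw [← Finset.prod_mul_prod_compl G]
    rw [mul_comm (M₁ ^ (N - G.card))]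
    have h1 : ∏ a ∈ G, ‖h (rt N a * z')‖ ≤ δ₁ ^ G.card := by
      rw [← Finset.prod_const]
      apply Finset.prod_le_prod
      · intro a _; exact norm_nonneg _
      · intro a ha
        exact hgood z' (by rw [hz1, hzs]) (by rw [hzs] at hz2; exact hz2) a ha
    have h2 : ∏ a ∈ Gᶜ, ‖h (rt N a * z')‖ ≤ M₁ ^ (N - G.card) := by
      have : N - G.card = (Gᶜ).card := by
        rw [Finset.card_compl, ZMod.card]
      rw [this, ← Finset.prod_const]
      apply Finset.prod_le_prod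
      · intro a _; exact norm_nonneg _
      · intro a ha
        apply hall
        rw [norm_mul, hnorm, one_mul, hz1, hzs]
    apply mul_le_mul h1 h2
    · apply Finset.prod_nonneg
      intro a _; exact norm_nonneg _
    · positivity
  have h0 : f 0 = h 0 ^ N := by
    rw [hf]
    simp
  have := Complex.norm_le_of_forall_mem_frontier_norm_le (U := ball (0:ℂ) s) isBounded_ball hfd hbd
    (z := 0) (subset_closure (mem_ball_self hs0))
  rw [h0, norm_pow] at this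
  exact this

/-- behaviour of `f` near a place `p` that is only barely covered by two sheets attached near the
boundary points `zA`, `zB` -/
def Room (f : ℂ → ℂ) (R r δ Q : ℝ) (ι p zA zB : ℂ) : Prop :=
  (∀ z ∈ ball (0:ℂ) 1, z ∉ ball zA r → z ∉ ball zB r → R ≤ ‖f z - p‖) ∧
  (∀ z ∈ ball (0:ℂ) 1, z ∈ ball zA r → ‖f z - p‖ < R →
    ((starRingEnd ℂ) ι * (f z - p)).re ≤ δ / 8) ∧
  (∀ z ∈ ball (0:ℂ) 1, z ∈ ball zB r → ‖f z - p‖ < R →
    -(δ / 8) ≤ ((starRingEnd ℂ) ι * (f z - p)).re) ∧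
  (∀ z ∈ ball (0:ℂ) 1, z ∈ ball zA r ∪ ball zB r → ‖deriv f z‖ ≤ Q)


lemma gap_annulus (x : ℝ) (hx : 0 < x) :
    volume (ball (0:ℂ) 1 \ ball (0:ℂ) (1 - x)) ≤ ENNReal.ofReal (2 * Real.pi * x) := by
  have hpi : ((NNReal.pi : NNReal) : ENNReal) = ENNReal.ofReal Real.pi := by
    rw [← NNReal.coe_real_pi, ENNReal.ofReal_coe_nnreal]
  have hpp := Real.pi_pos
  rcases le_or_gt 0 (1 - x) with h | h
  · rw [measure_sdiff (ball_subset_ball (by linarith)) measurableSet_ball.nullMeasurableSet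
      measure_ball_lt_top.ne, Complex.volume_ball, Complex.volume_ball, hpi,
      ← ENNReal.ofReal_pow (by norm_num), ← ENNReal.ofReal_pow h, ← ENNReal.ofReal_mul (by norm_num),
      ← ENNReal.ofReal_mul (by positivity), ← ENNReal.ofReal_sub _ (by positivity)]
    apply ENNReal.ofReal_le_ofReal
    nlinarith [mul_nonneg hpp.le (sq_nonneg x)]
  · calc volume (ball (0:ℂ) 1 \ ball (0:ℂ) (1 - x)) ≤ volume (ball (0:ℂ) 1) := measure_mono sdiff_subset
      _ = ENNReal.ofReal Real.pi := by rw [Complex.volume_ball, hpi]; simp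
      _ ≤ ENNReal.ofReal (2 * Real.pi * x) := by
        apply ENNReal.ofReal_le_ofReal
        nlinarith

lemma gap_re_le (ι a : ℂ) (hι : ‖ι‖ = 1) : |((starRingEnd ℂ) ι * a).re| ≤ ‖a‖ := by
  calc |((starRingEnd ℂ) ι * a).re| ≤ ‖(starRingEnd ℂ) ι * a‖ := Complex.abs_re_le_norm _
    _ = ‖a‖ := by rw [norm_mul, RCLike.norm_conj, hι, one_mul]

lemma gap_log {ρ K δ y : ℝ} (hρ : 0 < ρ) (hK : 0 < K) (hy : 0 < y)
    (h : δ / 4 ≤ K * (2 + Real.log (ρ / (4 * y)))) :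
    y ≤ ρ / 4 * Real.exp (2 - (δ / 4) / K) := by
  have h1 : (δ / 4) / K - 2 ≤ Real.log (ρ / (4 * y)) := by
    rw [sub_le_iff_le_add, div_le_iff₀ hK]; linarith
  have h2 : Real.exp ((δ / 4) / K - 2) ≤ ρ / (4 * y) := by
    rw [← Real.exp_log (show 0 < ρ / (4 * y) by positivity)]
    exact Real.exp_le_exp.2 h1
  have h3 : Real.exp (2 - (δ / 4) / K) = (Real.exp ((δ / 4) / K - 2))⁻¹ := by
    rw [← Real.exp_neg]; congr 1; ring
  rw [h3]
  have h4 : 0 < Real.exp ((δ / 4) / K - 2) := Real.exp_pos _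
  rw [le_div_iff₀ (by positivity)] at h2
  rw [← div_eq_mul_inv, le_div_iff₀ h4]
  nlinarith

/-- the gap lemma -/
theorem gap (f g : ℂ → ℂ) (hf : DifferentiableOn ℂ f (ball 0 1))
    (hg : DifferentiableOn ℂ g (ball 0 1))
    (k R r δ Q ρ K E : ℝ) (ι p zA zB eA eB : ℂ) (hι : ‖ι‖ = 1)
    (hk : ∀ z ∈ ball (0:ℂ) 1, ‖g z‖ ≤ k) (hR : 2 * k + 1 ≤ R) (hδ : 0 < δ) (hδ1 : δ ≤ 1)
    (hroom : Room f R r δ Q ι p zA zB) (hQ : 0 ≤ Q)
    (heA : ‖eA‖ = 1) (heB : ‖eB‖ = 1) (hρ : 0 < ρ) (hρ1 : ρ ≤ 1)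
    (hzA : ball zA r ⊆ closedBall eA (ρ / 4)) (hzB : ball zB r ⊆ closedBall eB (ρ / 4))
    (hK : 0 < K) (hE : 0 ≤ E)
    (oscA : ∀ z : ℂ, ‖z‖ < 1 → ‖z - eA‖ ≤ ρ / 4 →
      ‖g z - g (((1 - ρ / 4 : ℝ) : ℂ) * eA)‖ ≤ K * (2 + Real.log (ρ / (4 * (1 - ‖z‖)))))
    (oscB : ∀ z : ℂ, ‖z‖ < 1 → ‖z - eB‖ ≤ ρ / 4 →
      ‖g z - g (((1 - ρ / 4 : ℝ) : ℂ) * eB)‖ ≤ K * (2 + Real.log (ρ / (4 * (1 - ‖z‖)))))
    (enA : ∫⁻ z in ball (0:ℂ) 1 ∩ ball eA ρ, ENNReal.ofReal (‖deriv g z‖ ^ 2) ≤ ENNReal.ofReal E)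
    (enB : ∫⁻ z in ball (0:ℂ) 1 ∩ ball eB ρ, ENNReal.ofReal (‖deriv g z‖ ^ 2) ≤ ENNReal.ofReal E)
    (vol_le : ∀ S : Set ℂ, MeasurableSet S → S ⊆ ball (0:ℂ) 1 →
      volume ((fun z => f z + g z) '' S)
        ≤ ∫⁻ z in S, ENNReal.ofReal (‖deriv (fun z => f z + g z) z‖ ^ 2))
    (hnum : 2 * (2 * Q ^ 2 * (2 * Real.pi * (ρ / 4 * Real.exp (2 - (δ / 4) / K))) + 2 * E)
      < Real.pi * (δ / 8) ^ 2)
    (hsurj : (fun z => f z + g z) '' ball (0:ℂ) 1 = univ) :
    ((starRingEnd ℂ) ι * (g (((1 - ρ / 4 : ℝ) : ℂ) * eB) - g (((1 - ρ / 4 : ℝ) : ℂ) * eA))).re < δ := by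
  by_contra hcon
  push Not at hcon
  set uA := g (((1 - ρ / 4 : ℝ) : ℂ) * eA) with huA
  set uB := g (((1 - ρ / 4 : ℝ) : ℂ) * eB) with huB
  set w0 : ℂ := p + (uA + uB) / 2 with hw0
  set xs := ρ / 4 * Real.exp (2 - (δ / 4) / K) with hxs
  have hxs0 : 0 < xs := by positivity
  obtain ⟨room1, room2, room3, room4⟩ := hroom
  have hmem : ∀ e : ℂ, ‖e‖ = 1 → ((1 - ρ / 4 : ℝ) : ℂ) * e ∈ ball (0:ℂ) 1 := by
    intro e he
    rw [mem_ball_zero_iff, norm_mul, he, mul_one, Complex.norm_real, Real.norm_eq_abs,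
      abs_of_pos (by linarith)]
    linarith
  have kA : ‖uA‖ ≤ k := hk _ (hmem eA heA)
  have kB : ‖uB‖ ≤ k := hk _ (hmem eB heB)
  set S : Set ℂ := (ball (0:ℂ) 1 \ ball (0:ℂ) (1 - xs)) ∩ (ball zA r ∪ ball zB r) with hS
  have hSm : MeasurableSet S :=
    (measurableSet_ball.diff measurableSet_ball).inter (measurableSet_ball.union measurableSet_ball)
  have hSD : S ⊆ ball (0:ℂ) 1 := fun z hz => hz.1.1
  have hcover : ball w0 (δ / 8) ⊆ (fun z => f z + g z) '' S := by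
    intro w hw
    rw [mem_ball_iff_norm] at hw
    obtain ⟨z, hz, hzw⟩ : w ∈ (fun z => f z + g z) '' ball (0:ℂ) 1 := by rw [hsurj]; trivial
    simp only at hzw
    have hz1 : ‖z‖ < 1 := by simpa using hz
    have hy : 0 < 1 - ‖z‖ := by linarith
    have hfp : ‖f z - p‖ < R := by
      have e : f z - p = (w - w0) + (uA + uB) / 2 - g z := by rw [← hzw, hw0]; ring
      have e1 : ‖(uA + uB) / 2‖ ≤ k := by
        rw [norm_div]
        have := norm_add_le uA uB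
        have h2 : ‖(2:ℂ)‖ = 2 := by norm_num
        rw [h2, div_le_iff₀ (by norm_num)]
        linarith
      calc ‖f z - p‖ ≤ ‖(w - w0) + (uA + uB) / 2‖ + ‖g z‖ := by rw [e]; exact norm_sub_le _ _
        _ ≤ ‖w - w0‖ + ‖(uA + uB) / 2‖ + ‖g z‖ := by gcongr; exact norm_add_le _ _
        _ < R := by
          have := hk z hz
          linarith
    have hre : |((starRingEnd ℂ) ι * (w - w0)).re| ≤ δ / 8 :=
      (gap_re_le ι _ hι).trans hw.le
    rw [abs_le] at hre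
    have hlin : ∀ a b : ℂ, ((starRingEnd ℂ) ι * (a + b)).re
        = ((starRingEnd ℂ) ι * a).re + ((starRingEnd ℂ) ι * b).re := by
      intro a b; rw [mul_add, Complex.add_re]
    have hlins : ∀ a b : ℂ, ((starRingEnd ℂ) ι * (a - b)).re
        = ((starRingEnd ℂ) ι * a).re - ((starRingEnd ℂ) ι * b).re := by
      intro a b; rw [mul_sub, Complex.sub_re]
    have hhalf : ((starRingEnd ℂ) ι * ((uA + uB) / 2)).re
        = (((starRingEnd ℂ) ι * uA).re + ((starRingEnd ℂ) ι * uB).re) / 2 := by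
      have e : (starRingEnd ℂ) ι * ((uA + uB) / 2)
          = ((1/2 : ℝ) : ℂ) * ((starRingEnd ℂ) ι * (uA + uB)) := by push_cast; ring
      rw [e, Complex.re_ofReal_mul, hlin]; ring
    rw [hlins] at hcon
    have hww : ((starRingEnd ℂ) ι * (w - w0)).re = ((starRingEnd ℂ) ι * (f z - p)).re
        + ((starRingEnd ℂ) ι * g z).re
        - (((starRingEnd ℂ) ι * uA).re + ((starRingEnd ℂ) ι * uB).re) / 2 := by
      have e : w - w0 = (f z - p) + g z - (uA + uB) / 2 := by rw [← hzw, hw0]; ring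
      rw [e, hlins, hlin, hhalf]
    rw [hww] at hre
    have hzS : ∀ _ : 1 - ‖z‖ ≤ xs, z ∉ ball (0:ℂ) (1 - xs) := by
      intro h h'
      rw [mem_ball_zero_iff] at h'
      linarith
    by_cases hA : z ∈ ball zA r
    · have h1 := room2 z hz hA hfp
      have h2 : δ / 4 ≤ ((starRingEnd ℂ) ι * (g z - uA)).re := by
        rw [hlins]; linarith [hre.1]
      have h3 : δ / 4 ≤ ‖g z - uA‖ := h2.trans ((le_abs_self _).trans (gap_re_le ι _ hι))
      have h4 := oscA z hz1 (by have := hzA hA; rwa [mem_closedBall_iff_norm] at this)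
      have h5 := gap_log (δ := δ) hρ hK hy (h3.trans h4)
      exact ⟨z, ⟨⟨hz, hzS h5⟩, Or.inl hA⟩, hzw⟩
    · by_cases hB : z ∈ ball zB r
      · have h1 := room3 z hz hB hfp
        have h2 : δ / 4 ≤ -((starRingEnd ℂ) ι * (g z - uB)).re := by
          rw [hlins]; linarith [hre.2]
        have h3 : δ / 4 ≤ ‖g z - uB‖ := h2.trans ((neg_le_abs _).trans (gap_re_le ι _ hι))
        have h4 := oscB z hz1 (by have := hzB hB; rwa [mem_closedBall_iff_norm] at this)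
        have h5 := gap_log (δ := δ) hρ hK hy (h3.trans h4)
        exact ⟨z, ⟨⟨hz, hzS h5⟩, Or.inr hB⟩, hzw⟩
      · exact absurd (room1 z hz hA hB) (not_le.2 hfp)
  -- area estimate
  have hpt : ∀ z ∈ S, ENNReal.ofReal (‖deriv (fun z => f z + g z) z‖ ^ 2) ≤
      ENNReal.ofReal (2 * Q ^ 2) + ENNReal.ofReal 2 * ENNReal.ofReal (‖deriv g z‖ ^ 2) := by
    intro z hz
    have hzD := hSD hz
    have hfz : DifferentiableAt ℂ f z := hf.differentiableAt (isOpen_ball.mem_nhds hzD)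
    have hgz : DifferentiableAt ℂ g z := hg.differentiableAt (isOpen_ball.mem_nhds hzD)
    have hd : deriv (fun z => f z + g z) z = deriv f z + deriv g z := deriv_fun_add hfz hgz
    rw [hd, ← ENNReal.ofReal_mul (by norm_num), ← ENNReal.ofReal_add (by positivity) (by positivity)]
    apply ENNReal.ofReal_le_ofReal
    have h1 := room4 z hzD hz.2
    have h2 := norm_add_le (deriv f z) (deriv g z)
    have h3 := norm_nonneg (deriv f z)
    have h4 := norm_nonneg (deriv g z)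
    have h5 := norm_nonneg (deriv f z + deriv g z)
    calc ‖deriv f z + deriv g z‖ ^ 2 ≤ (‖deriv f z‖ + ‖deriv g z‖) ^ 2 := by gcongr
      _ ≤ (Q + ‖deriv g z‖) ^ 2 := by gcongr
      _ ≤ 2 * Q ^ 2 + 2 * ‖deriv g z‖ ^ 2 := by nlinarith [sq_nonneg (Q - ‖deriv g z‖)]
  have hgint : ∫⁻ z in S, ENNReal.ofReal (‖deriv g z‖ ^ 2) ≤ ENNReal.ofReal (2 * E) := by
    have hsub : S ⊆ (ball (0:ℂ) 1 ∩ ball eA ρ) ∪ (ball (0:ℂ) 1 ∩ ball eB ρ) := by
      intro z hz
      rcases hz.2 with h | h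
      · left
        refine ⟨hSD hz, ?_⟩
        have := hzA h
        rw [mem_closedBall] at this
        rw [mem_ball]; linarith
      · right
        refine ⟨hSD hz, ?_⟩
        have := hzB h
        rw [mem_closedBall] at this
        rw [mem_ball]; linarith
    calc ∫⁻ z in S, ENNReal.ofReal (‖deriv g z‖ ^ 2)
        ≤ ∫⁻ z in (ball (0:ℂ) 1 ∩ ball eA ρ) ∪ (ball (0:ℂ) 1 ∩ ball eB ρ),
            ENNReal.ofReal (‖deriv g z‖ ^ 2) := lintegral_mono_set hsub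
      _ ≤ _ := lintegral_union_le _ _ _
      _ ≤ ENNReal.ofReal E + ENNReal.ofReal E := add_le_add enA enB
      _ = ENNReal.ofReal (2 * E) := by rw [← ENNReal.ofReal_add hE hE]; congr 1; ring
  have hvol : volume S ≤ ENNReal.ofReal (2 * Real.pi * xs) :=
    (measure_mono inter_subset_left).trans (gap_annulus xs hxs0)
  have htotal : volume (ball w0 (δ / 8)) ≤
      ENNReal.ofReal (2 * Q ^ 2 * (2 * Real.pi * xs) + 2 * (2 * E)) := by
    calc volume (ball w0 (δ / 8)) ≤ volume ((fun z => f z + g z) '' S) := measure_mono hcover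
      _ ≤ ∫⁻ z in S, ENNReal.ofReal (‖deriv (fun z => f z + g z) z‖ ^ 2) := vol_le S hSm hSD
      _ ≤ ∫⁻ z in S, (ENNReal.ofReal (2 * Q ^ 2)
            + ENNReal.ofReal 2 * ENNReal.ofReal (‖deriv g z‖ ^ 2)) := setLIntegral_mono' hSm hpt
      _ = ENNReal.ofReal (2 * Q ^ 2) * volume S
            + ENNReal.ofReal 2 * ∫⁻ z in S, ENNReal.ofReal (‖deriv g z‖ ^ 2) := by
          rw [lintegral_add_left measurable_const, lintegral_const_mul' _ _ ENNReal.ofReal_ne_top,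
            setLIntegral_const]
      _ ≤ ENNReal.ofReal (2 * Q ^ 2) * ENNReal.ofReal (2 * Real.pi * xs)
            + ENNReal.ofReal 2 * ENNReal.ofReal (2 * E) := by gcongr
      _ = _ := by
          rw [← ENNReal.ofReal_mul (by positivity), ← ENNReal.ofReal_mul (by norm_num),
            ← ENNReal.ofReal_add (by positivity) (by positivity)]
  have hpi : ((NNReal.pi : NNReal) : ENNReal) = ENNReal.ofReal Real.pi := by
    rw [← NNReal.coe_real_pi, ENNReal.ofReal_coe_nnreal]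
  rw [Complex.volume_ball, hpi, ← ENNReal.ofReal_pow (by positivity),
    ← ENNReal.ofReal_mul (by positivity), ENNReal.ofReal_le_ofReal_iff (by positivity)] at htotal
  have hq : 0 ≤ 2 * Q ^ 2 * (2 * Real.pi * xs) := by positivity
  linarith

theorem num_detection (k : ℝ) (hk : 1 ≤ k) (m : ℕ) : ∀ᶠ n : ℕ in atTop,
    3 ≤ n ∧ 42 * (Real.pi * k ^ 2) * (n:ℝ) ^ 4 ≤ (n:ℝ) ^ 8 / 4 ∧
    12 * Real.sqrt ((1 / (n:ℝ) ^ 4) / Real.pi) ≤ 1 / (4 * k ^ 2) ∧
    2 * (2 * (Real.exp (m * n)) ^ 2 * (2 * Real.pi * ((20 / ((4 * n ^ 8 : ℕ):ℝ)) / 4 *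
      Real.exp (2 - ((1 / (4 * k ^ 2)) / 4) / Real.sqrt ((1 / (n:ℝ) ^ 4) / Real.pi))))
      + 2 * (1 / (n:ℝ) ^ 4)) < Real.pi * ((1 / (4 * k ^ 2)) / 8) ^ 2 := by
  have hk0 : 0 < k := by linarith
  have hpi : 0 < Real.pi := Real.pi_pos
  have hpi1 : 1 ≤ Real.pi := by linarith [Real.pi_gt_three]
  -- the quantity K
  have hK : ∀ n : ℕ, 1 ≤ n → 0 < Real.sqrt ((1 / (n:ℝ) ^ 4) / Real.pi) ∧
      Real.sqrt ((1 / (n:ℝ) ^ 4) / Real.pi) ≤ 1 / (n:ℝ) ^ 2 := by
    intro n hn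
    have hn0 : (0:ℝ) < n := by exact_mod_cast hn
    constructor
    · apply Real.sqrt_pos.2; positivity
    · rw [Real.sqrt_le_left (by positivity)]
      have h1 : (1 / (n:ℝ) ^ 2) ^ 2 = 1 / (n:ℝ) ^ 4 := by
        rw [div_pow, one_pow]; congr 1; ring
      rw [h1]
      exact div_le_self (by positivity) hpi1
  have hcast : Tendsto (fun n : ℕ => (n:ℝ)) atTop atTop := tendsto_natCast_atTop_atTop
  set c : ℝ := (1 / (4 * k ^ 2)) / 4 with hc
  have hc0 : 0 < c := by positivity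
  have hexp : Tendsto (fun n : ℕ => (n:ℝ) * (2 * m - c * n) + 2) atTop atBot := by
    apply Filter.tendsto_atBot_add_const_right
    apply Tendsto.atTop_mul_atBot₀ hcast
    have h1 : Tendsto (fun n : ℕ => c * (n:ℝ)) atTop atTop := hcast.const_mul_atTop hc0
    have h2 : Tendsto (fun n : ℕ => -(c * (n:ℝ)) + 2 * (m:ℝ)) atTop atBot := by
      apply Filter.tendsto_atBot_add_const_right
      exact tendsto_neg_atTop_atBot.comp h1
    refine h2.congr (fun n => by ring)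
  have hlim1 : Tendsto (fun n : ℕ => 16 * Real.pi * Real.exp ((n:ℝ) * (2 * m - c * n) + 2)) atTop (𝓝 0) := by
    have := (Real.tendsto_exp_atBot.comp hexp).const_mul (16 * Real.pi)
    simpa using this
  have hlim2 : Tendsto (fun n : ℕ => 4 * (1 / (n:ℝ) ^ 4)) atTop (𝓝 0) := by
    have h1 : Tendsto (fun n : ℕ => (n:ℝ) ^ 4) atTop atTop :=
      (tendsto_pow_atTop (by norm_num)).comp hcast
    have := (h1.inv_tendsto_atTop).const_mul 4
    simpa using this
  have hlim : Tendsto (fun n : ℕ => 16 * Real.pi * Real.exp ((n:ℝ) * (2 * m - c * n) + 2)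
      + 4 * (1 / (n:ℝ) ^ 4)) atTop (𝓝 0) := by
    simpa using hlim1.add hlim2
  have hrhs : 0 < Real.pi * ((1 / (4 * k ^ 2)) / 8) ^ 2 := by positivity
  have hev4 := (tendsto_order.1 hlim).2 _ hrhs
  have hev2 : ∀ᶠ n : ℕ in atTop, 168 * (Real.pi * k ^ 2) ≤ (n:ℝ) ^ 4 :=
    ((tendsto_pow_atTop (by norm_num)).comp hcast).eventually_ge_atTop _
  have hev3 : ∀ᶠ n : ℕ in atTop, 12 * (4 * k ^ 2) ≤ (n:ℝ) ^ 2 :=
    ((tendsto_pow_atTop (by norm_num)).comp hcast).eventually_ge_atTop _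
  filter_upwards [hev4, hev2, hev3, eventually_ge_atTop 3] with n h4 h2 h3 hn3
  have hn1 : 1 ≤ n := by omega
  have hn0 : (0:ℝ) < n := by exact_mod_cast hn1
  have hn1' : (1:ℝ) ≤ n := by exact_mod_cast hn1
  obtain ⟨hKp, hKle⟩ := hK n hn1
  refine ⟨hn3, ?_, ?_, ?_⟩
  · have : (0:ℝ) ≤ (n:ℝ) ^ 4 := by positivity
    nlinarith [mul_le_mul_of_nonneg_right h2 this]
  · calc 12 * Real.sqrt ((1 / (n:ℝ) ^ 4) / Real.pi) ≤ 12 * (1 / (n:ℝ) ^ 2) := by linarith
      _ ≤ 1 / (4 * k ^ 2) := by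
        rw [mul_one_div, div_le_div_iff₀ (by positivity) (by positivity)]
        linarith
  · refine lt_of_le_of_lt ?_ h4
    set K := Real.sqrt ((1 / (n:ℝ) ^ 4) / Real.pi) with hKdef
    have hcK : c * (n:ℝ) ^ 2 ≤ c / K := by
      rw [le_div_iff₀ hKp]
      have : (n:ℝ) ^ 2 * K ≤ 1 := by
        calc (n:ℝ) ^ 2 * K ≤ (n:ℝ) ^ 2 * (1 / (n:ℝ) ^ 2) := mul_le_mul_of_nonneg_left hKle (by positivity)
          _ = 1 := by field_simp
      nlinarith
    have he : Real.exp (2 - c / K) ≤ Real.exp (2 - c * (n:ℝ) ^ 2) := Real.exp_le_exp.2 (by linarith)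
    have hq : (20 / ((4 * n ^ 8 : ℕ):ℝ)) / 4 ≤ 2 := by
      push_cast
      have h8 : (1:ℝ) ≤ (n:ℝ) ^ 8 := one_le_pow₀ hn1'
      rw [div_le_iff₀ (by norm_num), div_le_iff₀ (by positivity)]
      linarith
    have hq0 : 0 ≤ (20 / ((4 * n ^ 8 : ℕ):ℝ)) / 4 := by positivity
    have hA : (20 / ((4 * n ^ 8 : ℕ):ℝ)) / 4 * Real.exp (2 - c / K) ≤ 2 * Real.exp (2 - c * (n:ℝ) ^ 2) :=
      mul_le_mul hq he (Real.exp_pos _).le (by norm_num)
    have hB : 2 * (Real.exp (m * n)) ^ 2 * (2 * Real.pi * ((20 / ((4 * n ^ 8 : ℕ):ℝ)) / 4 *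
        Real.exp (2 - c / K))) ≤ 2 * (Real.exp (m * n)) ^ 2 * (2 * Real.pi * (2 * Real.exp (2 - c * (n:ℝ) ^ 2))) := by
      apply mul_le_mul_of_nonneg_left _ (by positivity)
      exact mul_le_mul_of_nonneg_left hA (by positivity)
    have hE : (Real.exp (m * n)) ^ 2 * Real.exp (2 - c * (n:ℝ) ^ 2)
        = Real.exp ((n:ℝ) * (2 * m - c * n) + 2) := by
      rw [← Real.exp_nat_mul, ← Real.exp_add]
      congr 1
      push_cast
      ring
    have hC : 2 * (Real.exp (m * n)) ^ 2 * (2 * Real.pi * (2 * Real.exp (2 - c * (n:ℝ) ^ 2)))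
        = 8 * Real.pi * Real.exp ((n:ℝ) * (2 * m - c * n) + 2) := by
      rw [← hE]; ring
    rw [hC] at hB
    linarith

/-- at most 42 of the balls of radius `20/N` around the `N`-th roots of unity contain a point -/
theorem mult_bound (N : ℕ) [NeZero N] (w : ℂ) :
    ((Finset.univ.filter (fun a : ZMod N => ‖w - rt N a‖ < 20 / N)).card) ≤ 42 := by
  rcases Finset.eq_empty_or_nonempty
    (Finset.univ.filter (fun a : ZMod N => ‖w - rt N a‖ < 20 / N)) with h | h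
  · rw [h]; simp
  · obtain ⟨b, hb⟩ := h
    rw [Finset.mem_filter] at hb
    have hN : (0:ℝ) < N := by exact_mod_cast Nat.pos_of_ne_zero (NeZero.ne N)
    have h1 := count_near N (rt N b) (norm_rt N b) (40 / N) (by positivity)
    have h2 : (Finset.univ.filter (fun a : ZMod N => ‖w - rt N a‖ < 20 / N)) ⊆
        (Finset.univ.filter (fun a : ZMod N => ‖rt N a - rt N b‖ < 40 / N)) := by
      intro a ha
      rw [Finset.mem_filter] at ha ⊢
      refine ⟨ha.1, ?_⟩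
      have h3 : rt N a - rt N b = (w - rt N b) - (w - rt N a) := by ring
      rw [h3]
      calc ‖(w - rt N b) - (w - rt N a)‖ ≤ ‖w - rt N b‖ + ‖w - rt N a‖ := norm_sub_le _ _
        _ < 20 / N + 20 / N := add_lt_add hb.2 ha.2
        _ = 40 / N := by ring
    have h3 := Finset.card_le_card h2
    have h4 : (N:ℝ) * (40 / N) = 40 := by field_simp
    rw [h4] at h1
    have h5 : ((Finset.univ.filter (fun a : ZMod N => ‖rt N a - rt N b‖ < 40 / N)).card : ℝ)
        ≤ ((42 : ℕ) : ℝ) := by push_cast; linarith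
    have h6 := Nat.cast_le.mp h5
    omega

theorem five_le_exp_two : (5:ℝ) ≤ Real.exp 2 := by
  have h5 : Real.exp 2 = Real.exp 1 * Real.exp 1 := by rw [← Real.exp_add]; norm_num
  have h6 := Real.exp_one_gt_d9
  have h7 : (2.7:ℝ) * 2.7 ≤ Real.exp 1 * Real.exp 1 :=
    mul_le_mul (by linarith) (by linarith) (by norm_num) (by linarith)
  rw [h5]; linarith

theorem osc_rt (N : ℕ) [NeZero N] (hN20 : 20 ≤ N) (g : ℂ → ℂ)
    (hd : DifferentiableOn ℂ g (ball 0 1)) (hi : InjOn g (ball 0 1)) (t : ℝ) (ht : 0 < t)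
    (ζ : ℂ) (hζ : ‖ζ‖ = 1)
    (hv : volume (g '' (ball (0:ℂ) 1 ∩ ball ζ (20 / N))) ≤ ENNReal.ofReal t)
    (z : ℂ) (hz : ‖z‖ < 1) (hz' : ‖z - ζ‖ ≤ (20 / N : ℝ) / 4) :
    ‖g z - g (((1 - (20 / N : ℝ) / 4 : ℝ) : ℂ) * ζ)‖ ≤
      Real.sqrt (t / Real.pi) * (2 + Real.log ((20 / N : ℝ) / (4 * (1 - ‖z‖)))) := by
  have hN : (0:ℝ) < N := by exact_mod_cast Nat.pos_of_ne_zero (NeZero.ne N)
  have hN20' : (20:ℝ) ≤ N := by exact_mod_cast hN20
  refine osc g hd ζ hζ (20 / N) (Real.sqrt (t / Real.pi)) (by positivity)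
    (by rw [div_le_one hN]; exact hN20') (Real.sqrt_nonneg _) ?_ z hz hz'
  intro x hx hxζ
  have hμ : 0 < min (1 - ‖x‖) ((20 / N : ℝ) / 4) := by
    apply lt_min
    · linarith
    · positivity
  have hsub : ball x (min (1 - ‖x‖) ((20 / N : ℝ) / 4)) ⊆ ball (0:ℂ) 1 ∩ ball ζ (20 / N) := by
    intro y hy
    rw [mem_ball, dist_eq_norm] at hy
    have hy1 := lt_of_lt_of_le hy (min_le_left _ _)
    have hy2 := lt_of_lt_of_le hy (min_le_right _ _)
    constructor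
    · rw [mem_ball, dist_zero_right]
      have : y = (y - x) + x := by ring
      rw [this]
      exact lt_of_le_of_lt (norm_add_le _ _) (by linarith)
    · rw [mem_ball, dist_eq_norm]
      have : y - ζ = (y - x) + (x - ζ) := by ring
      rw [this]
      refine lt_of_le_of_lt (norm_add_le _ _) ?_
      have : (3 * (20 / N : ℝ) / 4) + (20 / N : ℝ) / 4 = 20 / N := by ring
      linarith
  refine area_deriv g x _ t hμ ht.le (hd.mono (hsub.trans inter_subset_left))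
    (hi.mono (hsub.trans inter_subset_left)) ?_
  exact (measure_mono (image_mono hsub)).trans hv

set_option maxHeartbeats 1000000 in
theorem detection_core (k : ℝ) (hk : 1 ≤ k) (n : ℕ) (hn : 3 ≤ n) (N : ℕ) [NeZero N]
    (hN : N = 4 * n ^ 8) (Q δ K : ℝ) (hQ : 0 ≤ Q) (hδ : δ = 1 / (4 * k ^ 2))
    (hK : K = Real.sqrt ((1 / (n:ℝ) ^ 4) / Real.pi))
    (hnum1 : 42 * (Real.pi * k ^ 2) * (n:ℝ) ^ 4 ≤ (n:ℝ) ^ 8 / 4)
    (hnum2 : 12 * K ≤ δ)
    (hnum3 : 2 * (2 * Q ^ 2 * (2 * Real.pi * ((20 / (N:ℝ)) / 4 * Real.exp (2 - (δ / 4) / K)))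
      + 2 * (1 / (n:ℝ) ^ 4)) < Real.pi * (δ / 8) ^ 2)
    (J : Finset (ZMod N)) (hJ : 7 * N ≤ 8 * J.card)
    (hJs : ∀ j ∈ J, j + ((N / 2 : ℕ) : ZMod N) ∈ J)
    (f : ℂ → ℂ) (hf : DifferentiableOn ℂ f (ball 0 1)) (R r : ℝ) (hR : 2 * k + 1 ≤ R)
    (hroom : ∀ j ∈ J, ∀ ι : ℂ, (ι = 1 ∨ ι = I) → ∃ p zA zB : ℂ,
      ball zA r ⊆ closedBall (rt N j) (5 / N) ∧ ball zB r ⊆ closedBall (-rt N j) (5 / N) ∧
      Room f R r δ Q ι p zA zB)
    (g : ℂ → ℂ) (hg : DifferentiableOn ℂ g (ball 0 1)) (hi : InjOn g (ball 0 1))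
    (hgk : ∀ z ∈ ball (0:ℂ) 1, ‖g z‖ ≤ k) (hg0 : 1 / k ≤ ‖deriv g 0‖) :
    (fun z => f z + g z) '' ball 0 1 ≠ univ := by
  intro hsurj
  have hn0 : (3:ℝ) ≤ n := by exact_mod_cast hn
  have hn0' : (0:ℝ) < n := by linarith
  have hNe : Even N := ⟨2 * n ^ 8, by rw [hN]; ring⟩
  have hNr : (N:ℝ) = 4 * (n:ℝ) ^ 8 := by rw [hN]; push_cast; ring
  have hn8 : 1 ≤ n ^ 8 := Nat.one_le_pow _ _ (by omega)
  have hN20 : 20 ≤ N := by
    rw [hN]
    have : 3 ^ 8 ≤ n ^ 8 := Nat.pow_le_pow_left hn 8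
    omega
  have hN20' : (20:ℝ) ≤ N := by exact_mod_cast hN20
  have hNpos : (0:ℝ) < N := by linarith
  have hδpos : 0 < δ := by rw [hδ]; positivity
  have hδ1 : δ ≤ 1 := by
    rw [hδ, div_le_one (by positivity)]
    nlinarith only [hk]
  have hK0 : 0 < K := by rw [hK]; apply Real.sqrt_pos.mpr; positivity
  set t : ℝ := 1 / (n:ℝ) ^ 4 with ht
  have htpos : 0 < t := by positivity
  set ρ : ℝ := 20 / (N:ℝ) with hρ
  have hρpos : 0 < ρ := by positivity
  have hρ1 : ρ ≤ 1 := by rw [hρ, div_le_one hNpos]; exact hN20'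
  have hρ4 : ρ / 4 = 5 / N := by rw [hρ]; ring
  have hveq : ∀ S : Set ℂ, MeasurableSet S → S ⊆ ball (0:ℂ) 1 →
      ∫⁻ z in S, ENNReal.ofReal (‖deriv g z‖ ^ 2) = volume (g '' S) :=
    fun S hS hS' => vol_image_eq g (ball 0 1) S isOpen_ball hg hS hS' (hi.mono hS')
  -- energy
  set Bd : Finset (ZMod N) := Finset.univ.filter (fun a : ZMod N =>
      ENNReal.ofReal t < volume (g '' (ball (0:ℂ) 1 ∩ ball (rt N a) ρ))) with hBd
  have hBdc : (Bd.card : ℝ) ≤ (n:ℝ) ^ 8 / 4 := by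
    have h := energy_count N (rt N) ρ 42 (mult_bound N) g hg hi k hgk t htpos hveq
    rw [← hBd, ht] at h
    have h2 : (Bd.card : ℝ) ≤ (42 : ℕ) * (Real.pi * k ^ 2) * (n:ℝ) ^ 4 := by
      rw [mul_one_div, div_le_iff₀ (by positivity)] at h
      exact h
    push_cast at h2
    linarith
  let σ : ZMod N → ZMod N := fun a => a + ((N / 2 : ℕ) : ZMod N)
  have hσσ : ∀ a, σ (σ a) = a := by
    intro a
    show a + ((N / 2 : ℕ) : ZMod N) + ((N / 2 : ℕ) : ZMod N) = a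
    have : (((N / 2 : ℕ) : ZMod N) + ((N / 2 : ℕ) : ZMod N)) = 0 := by
      rw [← Nat.cast_add]
      have h2 : N / 2 + N / 2 = N := by omega
      rw [h2]; exact ZMod.natCast_self N
    rw [add_assoc, this, add_zero]
  have hrσ : ∀ a, rt N (σ a) = - rt N a := fun a => rt_half N hNe a
  let G : Finset (ZMod N) := J.filter (fun a => a ∉ Bd ∧ σ a ∉ Bd)
  have hGc : 3 * n ^ 8 ≤ G.card := by
    have h1 : J.card ≤ G.card + (Bd.card + Bd.card) := by
      have h2 : J ⊆ G ∪ (Bd ∪ Bd.image σ) := by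
        intro a ha
        by_cases h3 : a ∈ Bd
        · simp [h3]
        · by_cases h4 : σ a ∈ Bd
          · rw [Finset.mem_union]; right
            rw [Finset.mem_union]; right
            rw [Finset.mem_image]
            exact ⟨σ a, h4, hσσ a⟩
          · rw [Finset.mem_union]; left
            exact Finset.mem_filter.mpr ⟨ha, h3, h4⟩
      calc J.card ≤ (G ∪ (Bd ∪ Bd.image σ)).card := Finset.card_le_card h2
        _ ≤ G.card + (Bd ∪ Bd.image σ).card := Finset.card_union_le _ _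
        _ ≤ G.card + (Bd.card + (Bd.image σ).card) :=
          Nat.add_le_add_left (Finset.card_union_le _ _) _
        _ ≤ G.card + (Bd.card + Bd.card) :=
          Nat.add_le_add_left (Nat.add_le_add_left Finset.card_image_le _) _
    have h5 : 4 * Bd.card ≤ n ^ 8 := by
      have : ((4 * Bd.card : ℕ) : ℝ) ≤ ((n ^ 8 : ℕ) : ℝ) := by push_cast; linarith
      exact_mod_cast this
    omega
  have hGle : G.card ≤ N := by
    calc G.card ≤ (Finset.univ : Finset (ZMod N)).card := Finset.card_le_univ _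
      _ = N := by rw [Finset.card_univ, ZMod.card]
  -- reference values
  let u : ℂ → ℂ := fun ζ => g (((1 - ρ / 4 : ℝ) : ℂ) * ζ)
  have hE : ∀ a ∈ G, volume (g '' (ball (0:ℂ) 1 ∩ ball (rt N a) ρ)) ≤ ENNReal.ofReal t ∧
      volume (g '' (ball (0:ℂ) 1 ∩ ball (-rt N a) ρ)) ≤ ENNReal.ofReal t := by
    intro a ha
    have h1 := (Finset.mem_filter.mp ha).2
    constructor
    · by_contra h2
      exact h1.1 (Finset.mem_filter.mpr ⟨Finset.mem_univ _, not_le.mp h2⟩)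
    · by_contra h2
      apply h1.2
      refine Finset.mem_filter.mpr ⟨Finset.mem_univ _, ?_⟩
      rw [hrσ]
      exact not_le.mp h2
  have hosc : ∀ ζ : ℂ, ‖ζ‖ = 1 →
      volume (g '' (ball (0:ℂ) 1 ∩ ball ζ ρ)) ≤ ENNReal.ofReal t →
      ∀ z : ℂ, ‖z‖ < 1 → ‖z - ζ‖ ≤ ρ / 4 →
      ‖g z - u ζ‖ ≤ K * (2 + Real.log (ρ / (4 * (1 - ‖z‖)))) := by
    intro ζ hζ hv z hz hz'
    rw [hK]
    exact osc_rt N hN20 g hg hi t htpos ζ hζ hv z hz hz'
  have hgap : ∀ a ∈ J, ∀ ι : ℂ, (ι = 1 ∨ ι = I) →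
      volume (g '' (ball (0:ℂ) 1 ∩ ball (rt N a) ρ)) ≤ ENNReal.ofReal t →
      volume (g '' (ball (0:ℂ) 1 ∩ ball (-rt N a) ρ)) ≤ ENNReal.ofReal t →
      ((starRingEnd ℂ) ι * (u (-rt N a) - u (rt N a))).re < δ := by
    intro a ha ι hι hv1 hv2
    obtain ⟨p, zA, zB, hA, hB, hrm⟩ := hroom a ha ι hι
    have hne : ‖-rt N a‖ = 1 := by rw [norm_neg]; exact norm_rt N a
    refine gap f g hf hg k R r δ Q ρ K t ι p zA zB (rt N a) (-rt N a) ?_ hgk hR hδpos hδ1 hrm hQ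
      (norm_rt N a) hne hρpos hρ1 (by rw [hρ4]; exact hA) (by rw [hρ4]; exact hB) hK0 htpos.le
      (hosc _ (norm_rt N a) hv1) (hosc _ hne hv2) ?_ ?_ ?_ hnum3 hsurj
    · rcases hι with h | h <;> simp [h]
    · rw [hveq _ (measurableSet_ball.inter measurableSet_ball) inter_subset_left]; exact hv1
    · rw [hveq _ (measurableSet_ball.inter measurableSet_ball) inter_subset_left]; exact hv2
    · intro S hS hS'
      exact vol_image_le _ (ball 0 1) S isOpen_ball (hf.add hg) hS hS'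
  have hu : ∀ a ∈ G, ‖u (rt N a) - u (-rt N a)‖ ≤ 2 * δ := by
    intro a ha
    have haJ : a ∈ J := (Finset.mem_filter.mp ha).1
    have hσJ : σ a ∈ J := hJs a haJ
    obtain ⟨h1, h2⟩ := hE a ha
    have e1 := hgap a haJ 1 (Or.inl rfl) h1 h2
    have e2 := hgap a haJ I (Or.inr rfl) h1 h2
    have e3 := hgap (σ a) hσJ 1 (Or.inl rfl) (by rw [hrσ]; exact h2)
      (by rw [hrσ, neg_neg]; exact h1)
    have e4 := hgap (σ a) hσJ I (Or.inr rfl) (by rw [hrσ]; exact h2)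
      (by rw [hrσ, neg_neg]; exact h1)
    rw [hrσ, neg_neg] at e3 e4
    simp only [map_one, one_mul, Complex.sub_re] at e1 e3
    simp only [Complex.conj_I, Complex.mul_re, Complex.neg_re, Complex.I_re, Complex.neg_im,
      Complex.I_im, Complex.sub_im] at e2 e4
    have h3 : |(u (rt N a) - u (-rt N a)).re| ≤ δ := by
      rw [Complex.sub_re, abs_le]; constructor <;> linarith
    have h4 : |(u (rt N a) - u (-rt N a)).im| ≤ δ := by
      rw [Complex.sub_im, abs_le]; constructor <;> linarith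
    have h5 := Complex.norm_le_abs_re_add_abs_im (u (rt N a) - u (-rt N a))
    linarith
  -- product
  let H : ℂ → ℂ := fun z => g z - g (-z)
  have hHd : DifferentiableOn ℂ H (ball 0 1) := by
    apply hg.sub
    refine hg.comp (differentiable_neg.differentiableOn) ?_
    intro z hz
    simpa using hz
  have hnhds : ball (0:ℂ) 1 ∈ 𝓝 (0:ℂ) := ball_mem_nhds 0 one_pos
  have hdd : DifferentiableOn ℂ (dslope H 0) (ball 0 1) :=
    (Complex.differentiableOn_dslope hnhds).mpr hHd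
  set s : ℝ := 1 - 1 / (N:ℝ) with hs
  have hN1 : 1 / (N:ℝ) ≤ 1 / 20 := one_div_le_one_div_of_le (by norm_num) hN20'
  have hN1' : 0 < 1 / (N:ℝ) := by positivity
  have hs0 : 2 / 3 ≤ s := by rw [hs]; linarith
  have hs0' : 0 < s := by linarith
  have hs1 : s < 1 := by rw [hs]; linarith
  have hH0 : H 0 = 0 := by simp [H]
  have hdsl : ∀ z : ℂ, ‖z‖ = s → ‖dslope H 0 z‖ = ‖g z - g (-z)‖ / s := by
    intro z hz
    have hz0 : z ≠ 0 := by
      intro h; rw [h, norm_zero] at hz; linarith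
    rw [dslope_of_ne _ hz0, slope_def_field, hH0, sub_zero, sub_zero, norm_div, hz]
  have hall : ∀ z : ℂ, ‖z‖ = s → ‖dslope H 0 z‖ ≤ 3 * k := by
    intro z hz
    rw [hdsl z hz, div_le_iff₀ hs0']
    have h1 := hgk z (by rw [mem_ball, dist_zero_right]; linarith)
    have h2 := hgk (-z) (by rw [mem_ball, dist_zero_right, norm_neg]; linarith)
    calc ‖g z - g (-z)‖ ≤ ‖g z‖ + ‖g (-z)‖ := norm_sub_le _ _
      _ ≤ 2 * k := by linarith
      _ ≤ 3 * k * s := by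
          have := mul_le_mul_of_nonneg_left hs0 (show (0:ℝ) ≤ 3 * k by linarith only [hk])
          linarith only [this]
  have hgood : ∀ z' : ℂ, ‖z'‖ = s → ‖z' - (s : ℂ)‖ ≤ Real.pi / N → ∀ a ∈ G,
      ‖dslope H 0 (rt N a * z')‖ ≤ 1 / k ^ 2 := by
    intro z' hz' hzs a ha
    have hnz : ‖rt N a * z'‖ = s := by rw [norm_mul, norm_rt, one_mul, hz']
    rw [hdsl _ hnz, div_le_iff₀ hs0']
    obtain ⟨h1, h2⟩ := hE a ha
    have hne : ‖-rt N a‖ = 1 := by rw [norm_neg]; exact norm_rt N a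
    have hd1 : ‖z' - 1‖ ≤ ρ / 4 := by
      have : z' - 1 = (z' - (s:ℂ)) + ((s:ℂ) - 1) := by ring
      rw [this]
      have h3 : ‖(s:ℂ) - 1‖ = 1 / N := by
        rw [hs]; push_cast
        rw [show (1 - 1 / (N:ℂ) - 1) = -(1 / (N:ℂ)) by ring, norm_neg, norm_div, norm_one,
          Complex.norm_natCast]
      have hpi : Real.pi ≤ 4 := Real.pi_le_four
      calc ‖(z' - (s:ℂ)) + ((s:ℂ) - 1)‖ ≤ ‖z' - (s:ℂ)‖ + ‖(s:ℂ) - 1‖ := norm_add_le _ _
        _ ≤ Real.pi / N + 1 / N := by rw [h3]; linarith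
        _ ≤ 4 / N + 1 / N := by gcongr
        _ = ρ / 4 := by rw [hρ4]; ring
    have hA : ‖rt N a * z' - rt N a‖ ≤ ρ / 4 := by
      have : rt N a * z' - rt N a = rt N a * (z' - 1) := by ring
      rw [this, norm_mul, norm_rt, one_mul]; exact hd1
    have hB : ‖-(rt N a * z') - -rt N a‖ ≤ ρ / 4 := by
      have : -(rt N a * z') - -rt N a = -(rt N a * z' - rt N a) := by ring
      rw [this, norm_neg]; exact hA
    have hlt : ‖rt N a * z'‖ < 1 := by rw [hnz]; exact hs1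
    have hlt' : ‖-(rt N a * z')‖ < 1 := by rw [norm_neg]; exact hlt
    have o1 := hosc _ (norm_rt N a) h1 _ hlt hA
    have o2 := hosc _ hne h2 _ hlt' hB
    rw [norm_neg] at o2
    rw [hnz] at o1 o2
    have hlog : Real.log (ρ / (4 * (1 - s))) ≤ 2 := by
      have h3 : ρ / (4 * (1 - s)) = 5 := by
        rw [hρ, hs]; field_simp; ring
      rw [h3, Real.log_le_iff_le_exp (by norm_num)]
      exact five_le_exp_two
    have h7 : K * (2 + Real.log (ρ / (4 * (1 - s)))) ≤ 4 * K := by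
      have := mul_le_mul_of_nonneg_left hlog hK0.le
      linarith only [this]
    have h8 : g (rt N a * z') - g (-(rt N a * z')) =
        (g (rt N a * z') - u (rt N a)) + (u (rt N a) - u (-rt N a))
          - (g (-(rt N a * z')) - u (-rt N a)) := by ring
    rw [h8]
    have h9 : 1 / k ^ 2 = 4 * δ := by rw [hδ]; field_simp
    calc _ ≤ ‖(g (rt N a * z') - u (rt N a)) + (u (rt N a) - u (-rt N a))‖
          + ‖g (-(rt N a * z')) - u (-rt N a)‖ := norm_sub_le _ _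
      _ ≤ ‖g (rt N a * z') - u (rt N a)‖ + ‖u (rt N a) - u (-rt N a)‖
          + ‖g (-(rt N a * z')) - u (-rt N a)‖ := by gcongr; exact norm_add_le _ _
      _ ≤ 4 * K + 2 * δ + 4 * K := by
          have := hu a ha
          linarith
      _ ≤ 3 * δ - δ / 3 := by linarith only [hnum2, hδpos]
      _ ≤ 1 / k ^ 2 * s := by
          rw [h9]
          have := mul_le_mul_of_nonneg_left hs0 (show (0:ℝ) ≤ 4 * δ by linarith only [hδpos])
          linarith only [this]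
  have hk2 : 1 / k ^ 2 ≤ 1 := by rw [div_le_one (by positivity)]; nlinarith only [hk]
  have hprod := product_bound N (dslope H 0) hdd s hs0' hs1 (3 * k) (1 / k ^ 2) (by positivity)
    (by linarith) (by linarith) G (fun z hz => rt_near N z hz) hgood hall
  -- value at zero
  have hg0d : HasDerivAt g (deriv g 0) 0 := (hg.differentiableAt hnhds).hasDerivAt
  have hval : dslope H 0 0 = 2 * deriv g 0 := by
    rw [dslope_same]
    have h1 : HasDerivAt (fun z => g (-z)) (-(deriv g 0)) 0 := by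
      have h2 : HasDerivAt g (deriv g 0) (-(0:ℂ)) := by simpa using hg0d
      have h3 := h2.comp (0:ℂ) ((hasDerivAt_id (0:ℂ)).neg)
      simpa [Function.comp_def] using h3
    have h4 := hg0d.sub h1
    have h5 : HasDerivAt H (deriv g 0 - -(deriv g 0)) 0 := h4
    rw [h5.deriv]; ring
  have hlow : 2 / k ≤ ‖dslope H 0 0‖ := by
    rw [hval, norm_mul, Complex.norm_ofNat]
    have : 2 / k = 2 * (1 / k) := by ring
    rw [this]; linarith
  have hNG : N - G.card ≤ n ^ 8 := by omega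
  have hfin : (2 / k) ^ N ≤ ((3 * k) * (1 / k ^ 2) ^ 3) ^ (n ^ 8) := by
    calc (2 / k) ^ N ≤ ‖dslope H 0 0‖ ^ N := pow_le_pow_left₀ (by positivity) hlow N
      _ ≤ _ := hprod
      _ ≤ (3 * k) ^ (n ^ 8) * (1 / k ^ 2) ^ (3 * n ^ 8) := by
          apply mul_le_mul
          · exact pow_le_pow_right₀ (by linarith) hNG
          · exact pow_le_pow_of_le_one (by positivity) hk2 hGc
          · positivity
          · positivity
      _ = _ := by rw [mul_pow (3 * k) ((1 / k ^ 2) ^ 3), ← pow_mul (1 / k ^ 2) 3 (n ^ 8)]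
  have hfin2 : (2 / k) ^ N = ((2 / k) ^ 4) ^ (n ^ 8) := by rw [hN, pow_mul]
  rw [hfin2] at hfin
  have hcmp : (3 * k) * (1 / k ^ 2) ^ 3 < (2 / k) ^ 4 := by
    have e1 : (3 * k) * (1 / k ^ 2) ^ 3 = 3 / k ^ 5 := by field_simp
    have e2 : (2 / k) ^ 4 = 16 * k / k ^ 5 := by field_simp; norm_num
    rw [e1, e2]
    apply div_lt_div_of_pos_right _ (by positivity)
    linarith
  have := pow_lt_pow_left₀ hcmp (by positivity) (n := n ^ 8) (by omega)
  linarith

theorem detection (k : ℝ) (hk : 1 ≤ k) (m : ℕ) : ∀ᶠ n : ℕ in atTop,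
    ∀ (N : ℕ) (_ : NeZero N) (_ : N = 4 * n ^ 8)
    (J : Finset (ZMod N)) (_ : 7 * N ≤ 8 * J.card)
    (_ : ∀ j ∈ J, j + ((N / 2 : ℕ) : ZMod N) ∈ J)
    (f : ℂ → ℂ) (_ : DifferentiableOn ℂ f (ball 0 1)) (R r : ℝ) (_ : 2 * k + 1 ≤ R)
    (_ : ∀ j ∈ J, ∀ ι : ℂ, (ι = 1 ∨ ι = I) → ∃ p zA zB : ℂ,
      ball zA r ⊆ closedBall (rt N j) (5 / N) ∧ ball zB r ⊆ closedBall (-rt N j) (5 / N) ∧
      Room f R r (1 / (4 * k ^ 2)) (Real.exp (m * n)) ι p zA zB)
    (g : ℂ → ℂ) (_ : DifferentiableOn ℂ g (ball 0 1)) (_ : InjOn g (ball 0 1))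
    (_ : ∀ z ∈ ball (0:ℂ) 1, ‖g z‖ ≤ k) (_ : 1 / k ≤ ‖deriv g 0‖),
    (fun z => f z + g z) '' ball 0 1 ≠ univ := by
  filter_upwards [num_detection k hk m] with n hn
  intro N hN0 hN J hJ hJs f hf R r hR hroom g hg hi hgk hg0
  exact detection_core k hk n hn.1 N hN (Real.exp (m * n)) (1 / (4 * k ^ 2))
    (Real.sqrt ((1 / (n:ℝ) ^ 4) / Real.pi)) (Real.exp_pos _).le rfl rfl hn.2.1 hn.2.2.1
    (by rw [hN]; exact hn.2.2.2) J hJ hJs f hf R r hR hroom g hg hi hgk hg0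

/-- a Moebius bump attached at the boundary point `Z` -/
noncomputable def bump (Z : ℂ) (κ : ℝ) (z : ℂ) : ℂ :=
  (κ : ℂ) * (Z + z) / ((κ : ℂ) * (Z + z) + (Z - z))

lemma bump_sq (Z : ℂ) (hZ : ‖Z‖ = 1) (κ : ℝ) (h0 : 0 < κ) (z : ℂ)
    (hz : ‖z‖ ≤ 1) :
    ‖(κ : ℂ) * (Z + z)‖ ^ 2 + ‖Z - z‖ ^ 2 ≤ ‖(κ : ℂ) * (Z + z) + (Z - z)‖ ^ 2 ∧
    ‖(κ : ℂ) * (Z + z) - (Z - z)‖ ^ 2 ≤ ‖(κ : ℂ) * (Z + z) + (Z - z)‖ ^ 2 := by
  have hZ2 : Z.re ^ 2 + Z.im ^ 2 = 1 := by
    have := Complex.sq_norm Z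
    rw [hZ, Complex.normSq_apply] at this
    nlinarith
  have hz2 : z.re ^ 2 + z.im ^ 2 ≤ 1 := by
    have h1 := Complex.sq_norm z
    rw [Complex.normSq_apply] at h1
    have h2 : ‖z‖ ^ 2 ≤ 1 := pow_le_one₀ (norm_nonneg _) hz
    nlinarith
  simp only [Complex.sq_norm, Complex.normSq_apply, Complex.mul_re, Complex.mul_im,
    Complex.add_re, Complex.add_im, Complex.sub_re, Complex.sub_im, Complex.ofReal_re,
    Complex.ofReal_im, zero_mul, sub_zero, add_zero]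
  have hk : 0 ≤ κ * (1 - (z.re ^ 2 + z.im ^ 2)) := mul_nonneg h0.le (by linarith)
  have hk2 : κ * (Z.re ^ 2 + Z.im ^ 2) = κ := by rw [hZ2, mul_one]
  constructor <;> nlinarith

lemma bump_den_lower (Z : ℂ) (hZ : ‖Z‖ = 1) (κ : ℝ) (h0 : 0 < κ) (h1 : κ ≤ 1) (z : ℂ)
    (hz : ‖z‖ ≤ 1) : 2 * κ ≤ ‖(κ : ℂ) * (Z + z) + (Z - z)‖ := by
  have e : (κ : ℂ) * (Z + z) + (Z - z) = ((1 + κ : ℝ) : ℂ) * Z - ((1 - κ : ℝ) : ℂ) * z := by
    push_cast; ring
  rw [e]
  have h2 := norm_sub_norm_le (((1 + κ : ℝ) : ℂ) * Z) (((1 - κ : ℝ) : ℂ) * z)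
  rw [norm_mul, norm_mul, hZ, Complex.norm_real, Complex.norm_real,
    Real.norm_of_nonneg (by linarith : (0:ℝ) ≤ 1 + κ),
    Real.norm_of_nonneg (by linarith : (0:ℝ) ≤ 1 - κ)] at h2
  have h3 : (1 - κ) * ‖z‖ ≤ (1 - κ) * 1 := mul_le_mul_of_nonneg_left hz (by linarith)
  linarith

lemma bump_den_b (Z : ℂ) (hZ : ‖Z‖ = 1) (κ : ℝ) (h0 : 0 < κ) (z : ℂ)
    (hz : ‖z‖ ≤ 1) : ‖Z - z‖ ≤ ‖(κ : ℂ) * (Z + z) + (Z - z)‖ := by
  have h := (bump_sq Z hZ κ h0 z hz).1
  have h2 : ‖Z - z‖ ^ 2 ≤ ‖(κ : ℂ) * (Z + z) + (Z - z)‖ ^ 2 := by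
    have := sq_nonneg ‖(κ : ℂ) * (Z + z)‖
    linarith
  exact (sq_le_sq₀ (norm_nonneg _) (norm_nonneg _)).1 h2

lemma bump_den_a (Z : ℂ) (hZ : ‖Z‖ = 1) (κ : ℝ) (h0 : 0 < κ) (z : ℂ)
    (hz : ‖z‖ ≤ 1) : ‖(κ : ℂ) * (Z + z)‖ ≤ ‖(κ : ℂ) * (Z + z) + (Z - z)‖ := by
  have h := (bump_sq Z hZ κ h0 z hz).1
  have h2 : ‖(κ : ℂ) * (Z + z)‖ ^ 2 ≤ ‖(κ : ℂ) * (Z + z) + (Z - z)‖ ^ 2 := by
    have := sq_nonneg ‖Z - z‖
    linarith
  exact (sq_le_sq₀ (norm_nonneg _) (norm_nonneg _)).1 h2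

theorem bump_den_ne (Z : ℂ) (hZ : ‖Z‖ = 1) (κ : ℝ) (h0 : 0 < κ) (h1 : κ ≤ 1) (z : ℂ)
    (hz : ‖z‖ ≤ 1) : (κ : ℂ) * (Z + z) + (Z - z) ≠ 0 := by
  rw [← norm_pos_iff]
  exact lt_of_lt_of_le (by positivity) (bump_den_lower Z hZ κ h0 h1 z hz)

theorem bump_analytic (Z : ℂ) (hZ : ‖Z‖ = 1) (κ : ℝ) (h0 : 0 < κ) (h1 : κ ≤ 1) :
    AnalyticOnNhd ℂ (bump Z κ) (closedBall 0 1) := by
  intro z hz
  have hz' : ‖z‖ ≤ 1 := by simpa using hz
  have ha : AnalyticAt ℂ (fun z : ℂ => (κ : ℂ) * (Z + z)) z := by fun_prop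
  have hb : AnalyticAt ℂ (fun z : ℂ => (κ : ℂ) * (Z + z) + (Z - z)) z := by fun_prop
  exact ha.div hb (bump_den_ne Z hZ κ h0 h1 z hz')

theorem bump_half (Z : ℂ) (hZ : ‖Z‖ = 1) (κ : ℝ) (h0 : 0 < κ) (h1 : κ ≤ 1) (z : ℂ)
    (hz : ‖z‖ ≤ 1) : ‖bump Z κ z - 1 / 2‖ ≤ 1 / 2 := by
  have hne := bump_den_ne Z hZ κ h0 h1 z hz
  have h := (bump_sq Z hZ κ h0 z hz).2
  have h2 : ‖(κ : ℂ) * (Z + z) - (Z - z)‖ ≤ ‖(κ : ℂ) * (Z + z) + (Z - z)‖ :=
    (sq_le_sq₀ (norm_nonneg _) (norm_nonneg _)).1 h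
  have e : bump Z κ z - 1 / 2 =
      ((κ : ℂ) * (Z + z) - (Z - z)) / (2 * ((κ : ℂ) * (Z + z) + (Z - z))) := by
    unfold bump
    field_simp
    ring
  have hpos : 0 < ‖(κ : ℂ) * (Z + z) + (Z - z)‖ := norm_pos_iff.2 hne
  rw [e, norm_div, norm_mul, Complex.norm_ofNat, div_le_iff₀ (by positivity)]
  linarith

theorem bump_far (Z : ℂ) (hZ : ‖Z‖ = 1) (κ : ℝ) (h0 : 0 < κ) (h1 : κ ≤ 1) (z : ℂ)
    (hz : ‖z‖ ≤ 1) (hne : z ≠ Z) : ‖bump Z κ z‖ ≤ 2 * κ / ‖Z - z‖ := by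
  have hb : 0 < ‖Z - z‖ := norm_pos_iff.2 (sub_ne_zero.2 (Ne.symm hne))
  have h2 := bump_den_b Z hZ κ h0 z hz
  have ha : ‖(κ : ℂ) * (Z + z)‖ ≤ 2 * κ := by
    rw [norm_mul, Complex.norm_real, Real.norm_of_nonneg h0.le]
    have := norm_add_le Z z
    nlinarith
  unfold bump
  rw [norm_div]
  exact div_le_div₀ (by positivity) ha hb h2

theorem bump_near (Z : ℂ) (hZ : ‖Z‖ = 1) (κ : ℝ) (h0 : 0 < κ) (h1 : κ ≤ 1) (z : ℂ)
    (hz : ‖z‖ ≤ 1) (hn : ‖Z - z‖ ≤ 1) : ‖bump Z κ z - 1‖ ≤ ‖Z - z‖ / κ := by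
  have hne := bump_den_ne Z hZ κ h0 h1 z hz
  have e : bump Z κ z - 1 = -(Z - z) / ((κ : ℂ) * (Z + z) + (Z - z)) := by
    unfold bump
    field_simp
    ring
  rw [e, norm_div, norm_neg]
  have h2 := bump_den_a Z hZ κ h0 z hz
  have h3 : κ ≤ ‖(κ : ℂ) * (Z + z)‖ := by
    rw [norm_mul, Complex.norm_real, Real.norm_of_nonneg h0.le]
    have h4 : 1 ≤ ‖Z + z‖ := by
      have h5 := norm_sub_norm_le (2 * Z) (Z - z)
      rw [norm_mul, hZ, Complex.norm_ofNat] at h5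
      have h6 : 2 * Z - (Z - z) = Z + z := by ring
      rw [h6] at h5
      linarith
    nlinarith
  exact div_le_div_of_nonneg_left (norm_nonneg _) h0 (h3.trans h2)

lemma bump_deriv (Z : ℂ) (hZ : ‖Z‖ = 1) (κ : ℝ) (h0 : 0 < κ) (h1 : κ ≤ 1) (z : ℂ)
    (hz : ‖z‖ ≤ 1) : ‖deriv (bump Z κ) z‖ = 2 * κ / ‖(κ : ℂ) * (Z + z) + (Z - z)‖ ^ 2 := by
  have hne := bump_den_ne Z hZ κ h0 h1 z hz
  have hn : HasDerivAt (fun z : ℂ => (κ : ℂ) * (Z + z)) ((κ : ℂ) * 1) z :=
    ((hasDerivAt_id z).const_add Z).const_mul (κ : ℂ)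
  have hs : HasDerivAt (fun z : ℂ => Z - z) (-1) z := (hasDerivAt_id z).const_sub Z
  have hd : HasDerivAt (bump Z κ)
      (((κ : ℂ) * 1 * ((κ : ℂ) * (Z + z) + (Z - z)) -
        (κ : ℂ) * (Z + z) * ((κ : ℂ) * 1 + (-1))) / ((κ : ℂ) * (Z + z) + (Z - z)) ^ 2) z :=
    hn.div (hn.add hs) hne
  rw [hd.deriv]
  have e : (κ : ℂ) * 1 * ((κ : ℂ) * (Z + z) + (Z - z)) -
        (κ : ℂ) * (Z + z) * ((κ : ℂ) * 1 + (-1)) = 2 * (κ : ℂ) * Z := by ring
  rw [e, norm_div, norm_pow, norm_mul, norm_mul, hZ, Complex.norm_real,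
    Real.norm_of_nonneg h0.le, Complex.norm_ofNat, mul_one]

theorem bump_deriv_far (Z : ℂ) (hZ : ‖Z‖ = 1) (κ : ℝ) (h0 : 0 < κ) (h1 : κ ≤ 1) (z : ℂ)
    (hz : ‖z‖ ≤ 1) (hne : z ≠ Z) : ‖deriv (bump Z κ) z‖ ≤ 2 * κ / ‖Z - z‖ ^ 2 := by
  have hb : 0 < ‖Z - z‖ := norm_pos_iff.2 (sub_ne_zero.2 (Ne.symm hne))
  rw [bump_deriv Z hZ κ h0 h1 z hz]
  have h2 := bump_den_b Z hZ κ h0 z hz
  apply div_le_div_of_nonneg_left (by positivity) (by positivity)
  exact pow_le_pow_left₀ (norm_nonneg _) h2 2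

theorem bump_deriv_le (Z : ℂ) (hZ : ‖Z‖ = 1) (κ : ℝ) (h0 : 0 < κ) (h1 : κ ≤ 1) (z : ℂ)
    (hz : ‖z‖ ≤ 1) : ‖deriv (bump Z κ) z‖ ≤ 1 / (2 * κ) := by
  rw [bump_deriv Z hZ κ h0 h1 z hz]
  have h2 := bump_den_lower Z hZ κ h0 h1 z hz
  have h3 : (2 * κ) ^ 2 ≤ ‖(κ : ℂ) * (Z + z) + (Z - z)‖ ^ 2 := pow_le_pow_left₀ (by positivity) h2 2
  calc 2 * κ / ‖(κ : ℂ) * (Z + z) + (Z - z)‖ ^ 2 ≤ 2 * κ / (2 * κ) ^ 2 :=
        div_le_div_of_nonneg_left (by positivity) (by positivity) h3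
    _ = 1 / (2 * κ) := by field_simp

/-- the bump is a bijection onto the ball `ball (1/2) (1/2)`: explicit holomorphic inverse -/
theorem bump_inverse (Z : ℂ) (hZ : ‖Z‖ = 1) (κ : ℝ) (h0 : 0 < κ) (h1 : κ ≤ 1) :
    ∃ ψ : ℂ → ℂ, DifferentiableOn ℂ ψ (ball (1 / 2 : ℂ) (1 / 2)) ∧
      ∀ w ∈ ball (1 / 2 : ℂ) (1 / 2), ‖ψ w‖ < 1 ∧ bump Z κ (ψ w) = w := by
  have hre : ∀ w ∈ ball (1 / 2 : ℂ) (1 / 2), w.re ^ 2 + w.im ^ 2 < w.re := by
    intro w hw
    rw [mem_ball, dist_eq_norm] at hw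
    have h2 : ‖w - 1 / 2‖ ^ 2 < (1 / 2) ^ 2 := pow_lt_pow_left₀ hw (norm_nonneg _) (by norm_num)
    rw [Complex.sq_norm, Complex.normSq_apply] at h2
    have e1 : (w - 1 / 2).re = w.re - 1 / 2 := by
      rw [Complex.sub_re]; norm_num
    have e2 : (w - 1 / 2).im = w.im := by
      rw [Complex.sub_im]; norm_num
    rw [e1, e2] at h2
    nlinarith
  have hD : ∀ w ∈ ball (1 / 2 : ℂ) (1 / 2), w + (κ : ℂ) * (1 - w) ≠ 0 := by
    intro w hw h
    have h2 := hre w hw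
    have h3 := congrArg Complex.re h
    simp only [Complex.add_re, Complex.mul_re, Complex.ofReal_re, Complex.ofReal_im,
      Complex.sub_re, Complex.one_re, zero_mul, sub_zero, Complex.zero_re] at h3
    have h4 : 0 < w.re := by nlinarith [sq_nonneg w.re, sq_nonneg w.im]
    nlinarith
  refine ⟨fun w => Z * (w - (κ : ℂ) * (1 - w)) / (w + (κ : ℂ) * (1 - w)), ?_, ?_⟩
  · intro w hw
    apply DifferentiableAt.differentiableWithinAt
    have ha : DifferentiableAt ℂ (fun w : ℂ => Z * (w - (κ : ℂ) * (1 - w))) w := by fun_prop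
    have hb : DifferentiableAt ℂ (fun w : ℂ => w + (κ : ℂ) * (1 - w)) w := by fun_prop
    exact ha.div hb (hD w hw)
  · intro w hw
    have hne := hD w hw
    have hlt : ‖Z * (w - (κ : ℂ) * (1 - w)) / (w + (κ : ℂ) * (1 - w))‖ < 1 := by
      rw [norm_div, norm_mul, hZ, one_mul, div_lt_one (norm_pos_iff.2 hne)]
      rw [← sq_lt_sq₀ (norm_nonneg _) (norm_nonneg _)]
      simp only [Complex.sq_norm, Complex.normSq_apply, Complex.mul_re, Complex.mul_im,
        Complex.add_re, Complex.add_im, Complex.sub_re, Complex.sub_im, Complex.ofReal_re,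
        Complex.ofReal_im, Complex.one_re, Complex.one_im, zero_mul, sub_zero, add_zero]
      have h2 := hre w hw
      have h3 : 0 < κ * (w.re - (w.re ^ 2 + w.im ^ 2)) := mul_pos h0 (by linarith)
      nlinarith
    refine ⟨hlt, ?_⟩
    have hne2 := bump_den_ne Z hZ κ h0 h1 _ hlt.le
    have hZ0 : Z ≠ 0 := by
      intro h
      rw [h, norm_zero] at hZ
      exact zero_ne_one hZ
    have hκ : (κ : ℂ) ≠ 0 := by exact_mod_cast h0.ne'
    set ψ : ℂ := Z * (w - (κ : ℂ) * (1 - w)) / (w + (κ : ℂ) * (1 - w)) with hψ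
    have hψD : ψ * (w + (κ : ℂ) * (1 - w)) = Z * (w - (κ : ℂ) * (1 - w)) := by
      rw [hψ, div_mul_cancel₀ _ hne]
    unfold bump
    rw [div_eq_iff hne2]
    apply mul_right_cancel₀ hne
    linear_combination ((κ : ℂ) - w * (κ : ℂ) + w) * hψD

/-- all chains of one stage attached at once; `v i` are the vertices of the path followed at `Z i` -/
noncomputable def addChains {α : Type} (I : Finset α) (F : ℂ → ℂ) (Z : α → ℂ) (m : ℕ)
    (v : α → ℕ → ℂ) (q : ℝ) (z : ℂ) : ℂ :=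
  F z + ∑ i ∈ I, ∑ l ∈ Finset.range m, (v i (l + 1) - v i l) * bump (Z i) (q ^ (l + 1)) z

theorem stage_aux {α : Type} (I : Finset α) (F : ℂ → ℂ) (hF : AnalyticOnNhd ℂ F (closedBall 0 1))
    (Z : α → ℂ) (hZ : ∀ i ∈ I, ‖Z i‖ = 1) (r : ℝ) (hr : 0 < r) (hr1 : r ≤ 1 / 2)
    (hdisj : ∀ i ∈ I, ∀ j ∈ I, i ≠ j → Disjoint (ball (Z i) r) (ball (Z j) r))
    (m : ℕ) (hm : 0 < m) (v : α → ℕ → ℂ) (hv0 : ∀ i ∈ I, v i 0 = F (Z i))
    (q ε C : ℝ) (hq : 0 < q) (hq1 : q < 1) (hε : 0 < ε)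
    (hC : ∑ i ∈ I, ∑ l ∈ Finset.range m, ‖v i (l + 1) - v i l‖ ≤ C)
    (h1 : 2 * q * C / r ^ 2 ≤ ε / 4) (h2 : 2 * Real.sqrt q * C ≤ ε / 4)
    (h3 : ∀ i ∈ I, ∀ z ∈ closedBall (0:ℂ) 1, z ∈ ball (Z i) r → ‖F z - F (Z i)‖ ≤ ε / 4)
    -- facts on bumps
    (bump_analytic : ∀ Z : ℂ, ‖Z‖ = 1 → ∀ κ : ℝ, 0 < κ → κ ≤ 1 →
      AnalyticOnNhd ℂ (bump Z κ) (closedBall 0 1))
    (bump_half : ∀ Z : ℂ, ‖Z‖ = 1 → ∀ κ : ℝ, 0 < κ → κ ≤ 1 → ∀ z : ℂ, ‖z‖ ≤ 1 →
      ‖bump Z κ z - 1 / 2‖ ≤ 1 / 2)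
    (bump_far : ∀ Z : ℂ, ‖Z‖ = 1 → ∀ κ : ℝ, 0 < κ → κ ≤ 1 → ∀ z : ℂ, ‖z‖ ≤ 1 → z ≠ Z →
      ‖bump Z κ z‖ ≤ 2 * κ / ‖Z - z‖)
    (bump_near : ∀ Z : ℂ, ‖Z‖ = 1 → ∀ κ : ℝ, 0 < κ → κ ≤ 1 → ∀ z : ℂ, ‖z‖ ≤ 1 → ‖Z - z‖ ≤ 1 →
      ‖bump Z κ z - 1‖ ≤ ‖Z - z‖ / κ)
    (bump_deriv_far : ∀ Z : ℂ, ‖Z‖ = 1 → ∀ κ : ℝ, 0 < κ → κ ≤ 1 → ∀ z : ℂ, ‖z‖ ≤ 1 → z ≠ Z →
      ‖deriv (bump Z κ) z‖ ≤ 2 * κ / ‖Z - z‖ ^ 2)
    (bump_deriv_le : ∀ Z : ℂ, ‖Z‖ = 1 → ∀ κ : ℝ, 0 < κ → κ ≤ 1 → ∀ z : ℂ, ‖z‖ ≤ 1 →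
      ‖deriv (bump Z κ) z‖ ≤ 1 / (2 * κ))
    (bump_inverse : ∀ Z : ℂ, ‖Z‖ = 1 → ∀ κ : ℝ, 0 < κ → κ ≤ 1 →
      ∃ ψ : ℂ → ℂ, DifferentiableOn ℂ ψ (ball (1 / 2 : ℂ) (1 / 2)) ∧
        ∀ w ∈ ball (1 / 2 : ℂ) (1 / 2), ‖ψ w‖ < 1 ∧ bump Z κ (ψ w) = w) :
    AnalyticOnNhd ℂ (addChains I F Z m v q) (closedBall 0 1) ∧
    (∀ z ∈ closedBall (0:ℂ) 1, (∀ i ∈ I, z ∉ ball (Z i) r) →
      ‖addChains I F Z m v q z - F z‖ ≤ ε ∧
      ‖deriv (addChains I F Z m v q) z - deriv F z‖ ≤ ε) ∧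
    (∀ i ∈ I, ∀ z ∈ closedBall (0:ℂ) 1, z ∈ ball (Z i) r → ∃ l < m,
      ‖addChains I F Z m v q z - (v i l + v i (l + 1)) / 2‖ ≤ ‖v i (l + 1) - v i l‖ / 2 + ε) ∧
    (∀ i ∈ I, ∀ w : ℂ, ‖w - (v i (m - 1) + v i m) / 2‖ + 6 * ε < ‖v i m - v i (m - 1)‖ / 2 →
      w ∈ addChains I F Z m v q '' ball 0 1) ∧
    (∀ L : ℝ, (∀ z ∈ closedBall (0:ℂ) 1, ‖deriv F z‖ ≤ L) →
      ∀ z ∈ closedBall (0:ℂ) 1, ‖deriv (addChains I F Z m v q) z‖ ≤ L + C / (2 * q ^ m)) := by
  classical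
  set c : α → ℕ → ℂ := fun i l => v i (l + 1) - v i l with hcdef
  have hqs : 0 < Real.sqrt q := Real.sqrt_pos.2 hq
  have hqq : Real.sqrt q * Real.sqrt q = q := Real.mul_self_sqrt hq.le
  have hqs1 : Real.sqrt q < 1 := by
    rw [show (1:ℝ) = Real.sqrt 1 by simp]; exact Real.sqrt_lt_sqrt hq.le hq1
  have hκ : ∀ l : ℕ, 0 < q ^ (l + 1) := fun l => pow_pos hq _
  have hκ1 : ∀ l : ℕ, q ^ (l + 1) ≤ 1 := fun l => pow_le_one₀ hq.le hq1.le
  have hκq : ∀ l : ℕ, q ^ (l + 1) ≤ q := fun l => by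
    calc q ^ (l + 1) = q ^ l * q := pow_succ _ _
      _ ≤ 1 * q := by gcongr; exact pow_le_one₀ hq.le hq1.le
      _ = q := one_mul _
  have C0 : 0 ≤ C := le_trans (Finset.sum_nonneg fun i _ => Finset.sum_nonneg fun l _ => norm_nonneg _) hC
  have chain_le : ∀ i ∈ I, ∑ l ∈ Finset.range m, ‖c i l‖ ≤ C := fun i hi =>
    le_trans (Finset.single_le_sum (f := fun i => ∑ l ∈ Finset.range m, ‖c i l‖)
      (fun i _ => Finset.sum_nonneg fun l _ => norm_nonneg _) hi) hC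
  have hform : ∀ z, addChains I F Z m v q z
      = F z + ∑ i ∈ I, ∑ l ∈ Finset.range m, c i l * bump (Z i) (q ^ (l + 1)) z := fun z => rfl
  have hnot : ∀ j z, z ∉ ball (Z j) r → r ≤ ‖Z j - z‖ := by
    intro j z h
    rw [mem_ball, not_lt, dist_eq_norm] at h
    rwa [norm_sub_rev]
  have far_sum : ∀ J : Finset α, J ⊆ I → ∀ z ∈ closedBall (0:ℂ) 1, (∀ j ∈ J, z ∉ ball (Z j) r) →
      ‖∑ i ∈ J, ∑ l ∈ Finset.range m, c i l * bump (Z i) (q ^ (l + 1)) z‖
        ≤ (2 * q / r) * ∑ i ∈ J, ∑ l ∈ Finset.range m, ‖c i l‖ := by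
    intro J hJ z hz hzJ
    rw [Finset.mul_sum]
    refine (norm_sum_le _ _).trans (Finset.sum_le_sum fun i hi => ?_)
    rw [Finset.mul_sum]
    refine (norm_sum_le _ _).trans (Finset.sum_le_sum fun l _ => ?_)
    have hr' := hnot i z (hzJ i hi)
    have hne : z ≠ Z i := by
      rintro rfl; simp at hr'; linarith
    have hb := bump_far (Z i) (hZ i (hJ hi)) _ (hκ l) (hκ1 l) z (by simpa using hz) hne
    rw [norm_mul, mul_comm]
    refine mul_le_mul_of_nonneg_right (hb.trans ?_) (norm_nonneg _)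
    have := hκq l
    have := hκ l
    gcongr
  have far_dsum : ∀ z ∈ closedBall (0:ℂ) 1, (∀ j ∈ I, z ∉ ball (Z j) r) →
      ‖∑ i ∈ I, ∑ l ∈ Finset.range m, c i l * deriv (bump (Z i) (q ^ (l + 1))) z‖
        ≤ (2 * q / r ^ 2) * ∑ i ∈ I, ∑ l ∈ Finset.range m, ‖c i l‖ := by
    intro z hz hzJ
    rw [Finset.mul_sum]
    refine (norm_sum_le _ _).trans (Finset.sum_le_sum fun i hi => ?_)
    rw [Finset.mul_sum]
    refine (norm_sum_le _ _).trans (Finset.sum_le_sum fun l _ => ?_)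
    have hr' := hnot i z (hzJ i hi)
    have hne : z ≠ Z i := by
      rintro rfl; simp at hr'; linarith
    have hb := bump_deriv_far (Z i) (hZ i hi) _ (hκ l) (hκ1 l) z (by simpa using hz) hne
    rw [norm_mul, mul_comm]
    refine mul_le_mul_of_nonneg_right (hb.trans ?_) (norm_nonneg _)
    have := hκq l
    have := hκ l
    gcongr
  have hder : ∀ z ∈ closedBall (0:ℂ) 1, deriv (addChains I F Z m v q) z
      = deriv F z + ∑ i ∈ I, ∑ l ∈ Finset.range m, c i l * deriv (bump (Z i) (q ^ (l + 1))) z := by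
    intro z hz
    have h : HasDerivAt (fun z => F z + ∑ i ∈ I, ∑ l ∈ Finset.range m, c i l * bump (Z i) (q ^ (l + 1)) z)
        (deriv F z + ∑ i ∈ I, ∑ l ∈ Finset.range m, c i l * deriv (bump (Z i) (q ^ (l + 1))) z) z := by
      refine (hF z hz).differentiableAt.hasDerivAt.add (HasDerivAt.fun_sum fun i hi => HasDerivAt.fun_sum fun l _ => ?_)
      exact ((bump_analytic (Z i) (hZ i hi) _ (hκ l) (hκ1 l) z hz).differentiableAt.hasDerivAt).const_mul _
    exact h.deriv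
  have hanal : AnalyticOnNhd ℂ (addChains I F Z m v q) (closedBall 0 1) := by
    have h : AnalyticOnNhd ℂ (fun z => F z + ∑ i ∈ I, ∑ l ∈ Finset.range m, c i l * bump (Z i) (q ^ (l + 1)) z) (closedBall 0 1) := by
      refine hF.add (Finset.analyticOnNhd_fun_sum _ fun i hi => Finset.analyticOnNhd_fun_sum _ fun l _ => ?_)
      exact analyticOnNhd_const.mul (bump_analytic (Z i) (hZ i hi) _ (hκ l) (hκ1 l))
    exact h
  have h1' : 2 * q / r * C ≤ ε / 8 := by
    have e1 : 2 * q / r * C = r * (2 * q * C / r ^ 2) := by field_simp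
    rw [e1]
    have : r * (2 * q * C / r ^ 2) ≤ (1 / 2) * (ε / 4) := by
      apply mul_le_mul hr1 h1 (by positivity) (by norm_num)
    linarith
  -- splitting of the sum at `i`
  have hsplit : ∀ i ∈ I, ∀ z ∈ closedBall (0:ℂ) 1, z ∈ ball (Z i) r →
      ∃ E : ℂ, ‖E‖ ≤ ε / 4 + ε / 8 ∧ addChains I F Z m v q z
        = F (Z i) + E + ∑ l ∈ Finset.range m, c i l * bump (Z i) (q ^ (l + 1)) z := by
    intro i hi z hz hzi
    refine ⟨(F z - F (Z i)) + ∑ j ∈ I.erase i, ∑ l ∈ Finset.range m, c j l * bump (Z j) (q ^ (l + 1)) z, ?_, ?_⟩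
    · refine (norm_add_le _ _).trans (add_le_add (h3 i hi z hz hzi) ?_)
      refine (far_sum (I.erase i) (Finset.erase_subset _ _) z hz ?_).trans ?_
      · intro j hj hzj
        have hd := hdisj i hi j (Finset.mem_of_mem_erase hj) (Finset.ne_of_mem_erase hj).symm
        exact Set.disjoint_left.1 hd hzi hzj
      · refine le_trans ?_ h1'
        refine mul_le_mul_of_nonneg_left ?_ (by positivity)
        refine le_trans ?_ hC
        exact Finset.sum_le_sum_of_subset_of_nonneg (Finset.erase_subset _ _)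
          (fun i _ _ => Finset.sum_nonneg fun l _ => norm_nonneg _)
    · rw [hform, ← Finset.add_sum_erase I _ hi]
      ring
  have tele : ∀ i l, ∑ k ∈ Finset.range l, c i k = v i l - v i 0 := fun i l =>
    Finset.sum_range_sub (fun k => v i k) l
  refine ⟨hanal, ?_, ?_, ?_, ?_⟩
  · intro z hz hzI
    constructor
    · rw [hform, add_sub_cancel_left]
      refine (far_sum I subset_rfl z hz hzI).trans ?_
      refine le_trans (mul_le_mul_of_nonneg_left hC (by positivity)) ?_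
      linarith
    · rw [hder z hz, add_sub_cancel_left]
      refine (far_dsum z hz hzI).trans ?_
      refine le_trans (mul_le_mul_of_nonneg_left hC (by positivity)) ?_
      have : 2 * q / r ^ 2 * C = 2 * q * C / r ^ 2 := by ring
      rw [this]; linarith
  · intro i hi z hz hzi
    have hd : ‖Z i - z‖ < r := by
      rw [mem_ball, dist_eq_norm] at hzi; rwa [norm_sub_rev]
    have hz1 : ‖z‖ ≤ 1 := by simpa using hz
    -- choice of l
    have hex : ∃ l, l + 1 = m ∨ q ^ (l + 1) * Real.sqrt q ≤ ‖Z i - z‖ := ⟨m - 1, Or.inl (by omega)⟩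
    obtain ⟨l, hl, hlmin⟩ : ∃ l, (l + 1 = m ∨ q ^ (l + 1) * Real.sqrt q ≤ ‖Z i - z‖) ∧
        ∀ k < l, ¬ (k + 1 = m ∨ q ^ (k + 1) * Real.sqrt q ≤ ‖Z i - z‖) :=
      ⟨Nat.find hex, Nat.find_spec hex, fun k hk => Nat.find_min hex hk⟩
    have hlm : l < m := by
      by_contra hcon
      exact hlmin (m - 1) (by omega) (Or.inl (by omega))
    refine ⟨l, hlm, ?_⟩
    obtain ⟨E, hE, hval⟩ := hsplit i hi z hz hzi
    -- estimates
    have hlow : ∀ k ∈ Finset.range l, ‖bump (Z i) (q ^ (k + 1)) z - 1‖ ≤ 2 * Real.sqrt q := by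
      intro k hk
      rw [Finset.mem_range] at hk
      have hb := bump_near (Z i) (hZ i hi) _ (hκ k) (hκ1 k) z hz1 (by linarith)
      have h2' := hlmin (l - 1) (by omega)
      push Not at h2'
      have h3' : ‖Z i - z‖ < q ^ l * Real.sqrt q := by
        have := h2'.2
        rwa [show l - 1 + 1 = l by omega] at this
      have h4 : q ^ l ≤ q ^ (k + 1) := pow_le_pow_of_le_one hq.le hq1.le (by omega)
      refine hb.trans ?_
      rw [div_le_iff₀ (hκ k)]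
      calc ‖Z i - z‖ ≤ q ^ l * Real.sqrt q := h3'.le
        _ ≤ q ^ (k + 1) * Real.sqrt q := by gcongr
        _ ≤ 2 * Real.sqrt q * q ^ (k + 1) := by nlinarith [mul_pos (hκ k) hqs]
    have hhigh : ∀ k ∈ Finset.Ico (l + 1) m, ‖bump (Z i) (q ^ (k + 1)) z‖ ≤ 2 * Real.sqrt q := by
      intro k hk
      rw [Finset.mem_Ico] at hk
      have hdl : q ^ (l + 1) * Real.sqrt q ≤ ‖Z i - z‖ := by
        rcases hl with h | h
        · omega
        · exact h
      have hdpos : 0 < ‖Z i - z‖ := lt_of_lt_of_le (mul_pos (hκ l) hqs) hdl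
      have hne : z ≠ Z i := by
        rintro rfl; simp at hdpos
      refine (bump_far (Z i) (hZ i hi) _ (hκ k) (hκ1 k) z hz1 hne).trans ?_
      rw [div_le_iff₀ hdpos]
      have h4 : q ^ (k + 1) ≤ q ^ (l + 1) * q := by
        rw [← pow_succ]; exact pow_le_pow_of_le_one hq.le hq1.le (by omega)
      calc 2 * q ^ (k + 1) ≤ 2 * (q ^ (l + 1) * q) := by gcongr
        _ = 2 * Real.sqrt q * (q ^ (l + 1) * Real.sqrt q) := by
          rw [show 2 * Real.sqrt q * (q ^ (l + 1) * Real.sqrt q)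
            = 2 * (q ^ (l + 1) * (Real.sqrt q * Real.sqrt q)) by ring, hqq]
        _ ≤ 2 * Real.sqrt q * ‖Z i - z‖ := by gcongr
    -- decomposition
    have hdec : ∑ k ∈ Finset.range m, c i k * bump (Z i) (q ^ (k + 1)) z
        = (v i l - v i 0) + ∑ k ∈ Finset.range l, c i k * (bump (Z i) (q ^ (k + 1)) z - 1)
          + c i l * bump (Z i) (q ^ (l + 1)) z
          + ∑ k ∈ Finset.Ico (l + 1) m, c i k * bump (Z i) (q ^ (k + 1)) z := by
      rw [← Finset.sum_range_add_sum_Ico _ (show l + 1 ≤ m by omega), Finset.sum_range_succ, ← tele i l]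
      simp only [mul_sub, mul_one, Finset.sum_sub_distrib]
      ring
    have hfin : addChains I F Z m v q z - (v i l + v i (l + 1)) / 2
        = E + ∑ k ∈ Finset.range l, c i k * (bump (Z i) (q ^ (k + 1)) z - 1)
          + c i l * (bump (Z i) (q ^ (l + 1)) z - 1 / 2)
          + ∑ k ∈ Finset.Ico (l + 1) m, c i k * bump (Z i) (q ^ (k + 1)) z := by
      rw [hval, hdec, hv0 i hi]
      simp only [hcdef]
      ring
    have hb1 : ‖∑ k ∈ Finset.range l, c i k * (bump (Z i) (q ^ (k + 1)) z - 1)‖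
        ≤ 2 * Real.sqrt q * ∑ k ∈ Finset.range l, ‖c i k‖ := by
      rw [Finset.mul_sum]
      refine (norm_sum_le _ _).trans (Finset.sum_le_sum fun k hk => ?_)
      rw [norm_mul, mul_comm]
      exact mul_le_mul_of_nonneg_right (hlow k hk) (norm_nonneg _)
    have hb2 : ‖∑ k ∈ Finset.Ico (l + 1) m, c i k * bump (Z i) (q ^ (k + 1)) z‖
        ≤ 2 * Real.sqrt q * ∑ k ∈ Finset.Ico (l + 1) m, ‖c i k‖ := by
      rw [Finset.mul_sum]
      refine (norm_sum_le _ _).trans (Finset.sum_le_sum fun k hk => ?_)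
      rw [norm_mul, mul_comm]
      exact mul_le_mul_of_nonneg_right (hhigh k hk) (norm_nonneg _)
    have hb3 : ‖c i l * (bump (Z i) (q ^ (l + 1)) z - 1 / 2)‖ ≤ ‖c i l‖ / 2 := by
      rw [norm_mul]
      have := bump_half (Z i) (hZ i hi) _ (hκ l) (hκ1 l) z hz1
      nlinarith [norm_nonneg (c i l)]
    have hsum : ∑ k ∈ Finset.range l, ‖c i k‖ + ∑ k ∈ Finset.Ico (l + 1) m, ‖c i k‖ ≤ C := by
      refine le_trans ?_ (chain_le i hi)
      rw [← Finset.sum_range_add_sum_Ico _ (show l + 1 ≤ m by omega), Finset.sum_range_succ]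
      linarith [norm_nonneg (c i l)]
    rw [hfin]
    have hn := norm_add₄_le (a := E) (b := ∑ k ∈ Finset.range l, c i k * (bump (Z i) (q ^ (k + 1)) z - 1))
      (c := c i l * (bump (Z i) (q ^ (l + 1)) z - 1 / 2))
      (d := ∑ k ∈ Finset.Ico (l + 1) m, c i k * bump (Z i) (q ^ (k + 1)) z)
    have hmul : 2 * Real.sqrt q * (∑ k ∈ Finset.range l, ‖c i k‖ + ∑ k ∈ Finset.Ico (l + 1) m, ‖c i k‖)
        ≤ ε / 4 := le_trans (mul_le_mul_of_nonneg_left hsum (by positivity)) h2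
    rw [mul_add] at hmul
    have : ‖c i l‖ = ‖v i (l + 1) - v i l‖ := rfl
    linarith
  · intro i hi w hw
    obtain ⟨p, rfl⟩ : ∃ p, m = p + 1 := ⟨m - 1, by omega⟩
    rw [show p + 1 - 1 = p by omega] at hw
    have hcv : v i (p + 1) - v i p = c i p := rfl
    rw [hcv] at hw
    have hc12 : 12 * ε < ‖c i p‖ := by
      have := norm_nonneg (w - (v i p + v i (p + 1)) / 2)
      linarith
    have hcpos : 0 < ‖c i p‖ := by linarith
    have hc0 : c i p ≠ 0 := by rwa [← norm_pos_iff]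
    have hcC : ‖c i p‖ ≤ C := le_trans (Finset.single_le_sum (f := fun l => ‖c i l‖)
      (fun l _ => norm_nonneg _) (Finset.self_mem_range_succ p)) (chain_le i hi)
    obtain ⟨ψ, hψd, hψ⟩ := bump_inverse (Z i) (hZ i hi) _ (hκ p) (hκ1 p)
    set u0 : ℂ := (w - v i p) / c i p with hu0
    set ρ : ℝ := 5 * ε / ‖c i p‖ with hρ
    have hρ0 : 0 < ρ := by positivity
    have hu0h : ‖u0 - 1 / 2‖ < 1 / 2 - 6 * ε / ‖c i p‖ := by
      have e1 : u0 - 1 / 2 = (w - (v i p + v i (p + 1)) / 2) / c i p := by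
        rw [hu0]
        field_simp
        simp only [hcdef]
        ring
      rw [e1, norm_div, div_lt_iff₀ hcpos, sub_mul, div_mul_cancel₀ _ hcpos.ne']
      linarith
    have hin : ∀ u ∈ closedBall u0 ρ, ‖u - 1 / 2‖ < 1 / 2 - ε / ‖c i p‖ := by
      intro u hu
      rw [mem_closedBall, dist_eq_norm] at hu
      have : ‖u - 1 / 2‖ ≤ ‖u - u0‖ + ‖u0 - 1 / 2‖ := by
        calc ‖u - 1 / 2‖ = ‖(u - u0) + (u0 - 1 / 2)‖ := by ring_nf
          _ ≤ _ := norm_add_le _ _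
      have e2 : ρ = 6 * ε / ‖c i p‖ - ε / ‖c i p‖ := by rw [hρ]; ring
      linarith
    have hsub : closedBall u0 ρ ⊆ ball (1 / 2 : ℂ) (1 / 2) := by
      intro u hu
      have := hin u hu
      have h0 : 0 < ε / ‖c i p‖ := by positivity
      rw [mem_ball, dist_eq_norm]; linarith
    -- value on the closed ball
    have hrq : Real.sqrt q < r := by
      have a1 : 24 * q * ε < ε / 4 * r ^ 2 := by
        have b1 : 2 * q * C ≤ ε / 4 * r ^ 2 := by
          rwa [div_le_iff₀ (by positivity)] at h1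
        have b2 : 2 * q * (12 * ε) < 2 * q * C := by
          have : 12 * ε < C := by linarith
          gcongr
        linarith
      have a2 : q < r ^ 2 := by
        have : 24 * q * ε < 1 / 4 * r ^ 2 * ε := by linarith
        have := lt_of_mul_lt_mul_right this hε.le
        nlinarith [sq_nonneg r, sq_pos_of_pos hr]
      calc Real.sqrt q < Real.sqrt (r ^ 2) := Real.sqrt_lt_sqrt hq.le a2
        _ = r := Real.sqrt_sq hr.le
    have hval : ∀ u ∈ closedBall u0 ρ,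
        ‖addChains I F Z (p + 1) v q (ψ u) - (w + c i p * (u - u0))‖ ≤ ε / 2 := by
      intro u hu
      have hub := hsub hu
      obtain ⟨hψ1, hψ2⟩ := hψ u hub
      set z := ψ u with hzdef
      have hz1 : ‖z‖ ≤ 1 := hψ1.le
      have hzc : z ∈ closedBall (0:ℂ) 1 := by simpa using hz1
      have hne : z ≠ Z i := by
        intro h; rw [h, hZ i hi] at hψ1; exact lt_irrefl _ hψ1
      have hdpos : 0 < ‖Z i - z‖ := by
        rw [norm_pos_iff, sub_ne_zero]; exact hne.symm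
      have hun : ε / ‖c i p‖ < ‖u‖ := by
        have h5 := hin u hu
        have h6 : (1 / 2 : ℝ) ≤ ‖u‖ + ‖u - 1 / 2‖ := by
          have : ‖(1 / 2 : ℂ)‖ = 1 / 2 := by simp
          calc (1 / 2 : ℝ) = ‖(1 / 2 : ℂ)‖ := this.symm
            _ = ‖u - (u - 1 / 2)‖ := by ring_nf
            _ ≤ _ := norm_sub_le _ _
        linarith
      have hfar := bump_far (Z i) (hZ i hi) _ (hκ p) (hκ1 p) z hz1 hne
      rw [hψ2, le_div_iff₀ hdpos] at hfar
      have hd1 : ‖Z i - z‖ * ε ≤ 2 * q ^ (p + 1) * C := by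
        have h7 : ε / ‖c i p‖ * ‖Z i - z‖ ≤ 2 * q ^ (p + 1) :=
          le_trans (mul_le_mul_of_nonneg_right hun.le hdpos.le) hfar
        have h8 : ε / ‖c i p‖ * ‖Z i - z‖ * ‖c i p‖ ≤ 2 * q ^ (p + 1) * ‖c i p‖ :=
          mul_le_mul_of_nonneg_right h7 hcpos.le
        have h9 : ε / ‖c i p‖ * ‖Z i - z‖ * ‖c i p‖ = ‖Z i - z‖ * ε := by field_simp
        have h10 : 2 * q ^ (p + 1) * ‖c i p‖ ≤ 2 * q ^ (p + 1) * C := by
          have := hκ p
          gcongr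
        linarith
      -- d ≤ q ^ p * sqrt q / 4
      have hd2 : ‖Z i - z‖ ≤ q ^ p * Real.sqrt q / 4 := by
        have h11 : 2 * q ^ (p + 1) * C = q ^ p * Real.sqrt q * (2 * Real.sqrt q * C) := by
          rw [show q ^ p * Real.sqrt q * (2 * Real.sqrt q * C)
            = 2 * (q ^ p * (Real.sqrt q * Real.sqrt q)) * C by ring, hqq, pow_succ]
        have h12 : q ^ p * Real.sqrt q * (2 * Real.sqrt q * C) ≤ q ^ p * Real.sqrt q * (ε / 4) := by
          have := pow_pos hq p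
          gcongr
        have h13 : ‖Z i - z‖ * ε ≤ (q ^ p * Real.sqrt q / 4) * ε := by linarith
        exact le_of_mul_le_mul_right h13 hε
      have hqp1 : q ^ p ≤ 1 := pow_le_one₀ hq.le hq1.le
      have hdr : ‖Z i - z‖ < r := by
        have : q ^ p * Real.sqrt q ≤ 1 * Real.sqrt q := by gcongr
        linarith
      have hzi : z ∈ ball (Z i) r := by rw [mem_ball, dist_eq_norm, norm_sub_rev]; exact hdr
      obtain ⟨E, hE, hv⟩ := hsplit i hi z hzc hzi
      have hlow : ∀ k ∈ Finset.range p, ‖bump (Z i) (q ^ (k + 1)) z - 1‖ ≤ Real.sqrt q := by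
        intro k hk
        rw [Finset.mem_range] at hk
        refine (bump_near (Z i) (hZ i hi) _ (hκ k) (hκ1 k) z hz1 (by linarith)).trans ?_
        rw [div_le_iff₀ (hκ k)]
        have h4 : q ^ p ≤ q ^ (k + 1) := pow_le_pow_of_le_one hq.le hq1.le (by omega)
        have h5 : q ^ p * Real.sqrt q ≤ q ^ (k + 1) * Real.sqrt q := by gcongr
        have h6 : 0 < q ^ p * Real.sqrt q := mul_pos (pow_pos hq p) hqs
        linarith
      have hb1 : ‖∑ k ∈ Finset.range p, c i k * (bump (Z i) (q ^ (k + 1)) z - 1)‖ ≤ ε / 8 := by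
        have : ‖∑ k ∈ Finset.range p, c i k * (bump (Z i) (q ^ (k + 1)) z - 1)‖
            ≤ Real.sqrt q * ∑ k ∈ Finset.range p, ‖c i k‖ := by
          rw [Finset.mul_sum]
          refine (norm_sum_le _ _).trans (Finset.sum_le_sum fun k hk => ?_)
          rw [norm_mul, mul_comm]
          exact mul_le_mul_of_nonneg_right (hlow k hk) (norm_nonneg _)
        have h14 : ∑ k ∈ Finset.range p, ‖c i k‖ ≤ C := by
          refine le_trans ?_ (chain_le i hi)
          rw [Finset.sum_range_succ]; linarith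
        have h15 : Real.sqrt q * ∑ k ∈ Finset.range p, ‖c i k‖ ≤ Real.sqrt q * C :=
          mul_le_mul_of_nonneg_left h14 hqs.le
        linarith
      have hkey : addChains I F Z (p + 1) v q z - (w + c i p * (u - u0))
          = E + ∑ k ∈ Finset.range p, c i k * (bump (Z i) (q ^ (k + 1)) z - 1) := by
        rw [hv, Finset.sum_range_succ, hψ2]
        have t := tele i p
        simp only [mul_sub, mul_one, Finset.sum_sub_distrib]
        rw [t, hv0 i hi, hu0, mul_div_cancel₀ _ hc0]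
        ring
      rw [hkey]
      refine (norm_add_le _ _).trans ?_
      linarith
    -- open mapping
    have hHdiff : DifferentiableOn ℂ (fun u => addChains I F Z (p + 1) v q (ψ u)) (ball (1 / 2 : ℂ) (1 / 2)) := by
      refine DifferentiableOn.comp (t := closedBall 0 1) (g := addChains I F Z (p + 1) v q) (f := ψ)
        hanal.differentiableOn hψd ?_
      intro u hu
      simpa using (hψ u hu).1.le
    have hdc : DiffContOnCl ℂ (fun u => addChains I F Z (p + 1) v q (ψ u)) (ball u0 ρ) :=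
      hHdiff.diffContOnCl_ball hsub
    have hsph : ∀ u ∈ sphere u0 ρ, 4 * ε ≤ ‖(fun u => addChains I F Z (p + 1) v q (ψ u)) u
        - (fun u => addChains I F Z (p + 1) v q (ψ u)) u0‖ := by
      intro u hu
      have e1 := hval u (sphere_subset_closedBall hu)
      have e2 := hval u0 (mem_closedBall_self hρ0.le)
      rw [sub_self, mul_zero, add_zero] at e2
      have e3 : ‖c i p * (u - u0)‖ = 5 * ε := by
        rw [norm_mul]
        rw [mem_sphere, dist_eq_norm] at hu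
        rw [hu, hρ]; field_simp
      have e4 : c i p * (u - u0) = (addChains I F Z (p + 1) v q (ψ u) - addChains I F Z (p + 1) v q (ψ u0))
          - (addChains I F Z (p + 1) v q (ψ u) - (w + c i p * (u - u0)))
          + (addChains I F Z (p + 1) v q (ψ u0) - w) := by ring
      have e5 : ‖c i p * (u - u0)‖ ≤ ‖addChains I F Z (p + 1) v q (ψ u) - addChains I F Z (p + 1) v q (ψ u0)‖
          + ‖addChains I F Z (p + 1) v q (ψ u) - (w + c i p * (u - u0))‖
          + ‖addChains I F Z (p + 1) v q (ψ u0) - w‖ := by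
        conv_lhs => rw [e4]
        exact (norm_add_le _ _).trans (add_le_add (norm_sub_le _ _) le_rfl)
      show 4 * ε ≤ ‖addChains I F Z (p + 1) v q (ψ u) - addChains I F Z (p + 1) v q (ψ u0)‖
      linarith
    have hfreq : ∃ᶠ u in 𝓝 u0, (fun u => addChains I F Z (p + 1) v q (ψ u)) u
        ≠ (fun u => addChains I F Z (p + 1) v q (ψ u)) u0 := by
      intro hcon
      have hev : (fun u => addChains I F Z (p + 1) v q (ψ u)) =ᶠ[𝓝 u0]
          fun _ => (fun u => addChains I F Z (p + 1) v q (ψ u)) u0 := by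
        filter_upwards [hcon] with u hu
        simpa using hu
      have hA : AnalyticOnNhd ℂ (fun u => addChains I F Z (p + 1) v q (ψ u)) (ball (1 / 2 : ℂ) (1 / 2)) :=
        hHdiff.analyticOnNhd isOpen_ball
      have hEq := hA.eqOn_of_preconnected_of_eventuallyEq analyticOnNhd_const
        (convex_ball _ _).isPreconnected (hsub (mem_closedBall_self hρ0.le)) hev
      have hpt : u0 + ρ ∈ sphere u0 ρ := by
        rw [mem_sphere, dist_eq_norm, add_sub_cancel_left]; simp [abs_of_pos hρ0]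
      have h16 := hsph _ hpt
      have h17 := hEq (hsub (sphere_subset_closedBall hpt))
      rw [h17, sub_self, norm_zero] at h16
      linarith
    have himg := hdc.ball_subset_image_closedBall hρ0 hsph hfreq
    have hwmem : w ∈ ball ((fun u => addChains I F Z (p + 1) v q (ψ u)) u0) (4 * ε / 2) := by
      have e2 := hval u0 (mem_closedBall_self hρ0.le)
      rw [sub_self, mul_zero, add_zero] at e2
      rw [mem_ball, dist_eq_norm, norm_sub_rev]
      show ‖addChains I F Z (p + 1) v q (ψ u0) - w‖ < _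
      linarith
    obtain ⟨u, hu, huw⟩ := himg hwmem
    refine ⟨ψ u, ?_, huw⟩
    have := (hψ u (hsub hu)).1
    simpa using this
  · intro L hL z hz
    rw [hder z hz]
    refine (norm_add_le _ _).trans (add_le_add (hL z hz) ?_)
    have hz1 : ‖z‖ ≤ 1 := by simpa using hz
    have : C / (2 * q ^ m) = (1 / (2 * q ^ m)) * C := by ring
    rw [this]
    refine le_trans ?_ (mul_le_mul_of_nonneg_left hC (by positivity))
    rw [Finset.mul_sum]
    refine (norm_sum_le _ _).trans (Finset.sum_le_sum fun i hi => ?_)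
    rw [Finset.mul_sum]
    refine (norm_sum_le _ _).trans (Finset.sum_le_sum fun l hl => ?_)
    rw [norm_mul, mul_comm]
    refine mul_le_mul_of_nonneg_right ?_ (norm_nonneg _)
    refine (bump_deriv_le (Z i) (hZ i hi) _ (hκ l) (hκ1 l) z hz1).trans ?_
    rw [Finset.mem_range] at hl
    have h4 : q ^ m ≤ q ^ (l + 1) := pow_le_pow_of_le_one hq.le hq1.le (by omega)
    have := hκ l
    have : 0 < q ^ m := pow_pos hq _
    gcongr

theorem stage {α : Type} (I : Finset α) (F : ℂ → ℂ) (hF : AnalyticOnNhd ℂ F (closedBall 0 1))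
    (Z : α → ℂ) (hZ : ∀ i ∈ I, ‖Z i‖ = 1) (r : ℝ) (hr : 0 < r) (hr1 : r ≤ 1 / 2)
    (hdisj : ∀ i ∈ I, ∀ j ∈ I, i ≠ j → Disjoint (ball (Z i) r) (ball (Z j) r))
    (m : ℕ) (hm : 0 < m) (v : α → ℕ → ℂ) (hv0 : ∀ i ∈ I, v i 0 = F (Z i))
    (q ε C : ℝ) (hq : 0 < q) (hq1 : q < 1) (hε : 0 < ε)
    (hC : ∑ i ∈ I, ∑ l ∈ Finset.range m, ‖v i (l + 1) - v i l‖ ≤ C)
    (h1 : 2 * q * C / r ^ 2 ≤ ε / 4) (h2 : 2 * Real.sqrt q * C ≤ ε / 4)
    (h3 : ∀ i ∈ I, ∀ z ∈ closedBall (0:ℂ) 1, z ∈ ball (Z i) r → ‖F z - F (Z i)‖ ≤ ε / 4) :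
    AnalyticOnNhd ℂ (addChains I F Z m v q) (closedBall 0 1) ∧
    (∀ z ∈ closedBall (0:ℂ) 1, (∀ i ∈ I, z ∉ ball (Z i) r) →
      ‖addChains I F Z m v q z - F z‖ ≤ ε ∧
      ‖deriv (addChains I F Z m v q) z - deriv F z‖ ≤ ε) ∧
    (∀ i ∈ I, ∀ z ∈ closedBall (0:ℂ) 1, z ∈ ball (Z i) r → ∃ l < m,
      ‖addChains I F Z m v q z - (v i l + v i (l + 1)) / 2‖ ≤ ‖v i (l + 1) - v i l‖ / 2 + ε) ∧
    (∀ i ∈ I, ∀ w : ℂ, ‖w - (v i (m - 1) + v i m) / 2‖ + 6 * ε < ‖v i m - v i (m - 1)‖ / 2 →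
      w ∈ addChains I F Z m v q '' ball 0 1) ∧
    (∀ L : ℝ, (∀ z ∈ closedBall (0:ℂ) 1, ‖deriv F z‖ ≤ L) →
      ∀ z ∈ closedBall (0:ℂ) 1, ‖deriv (addChains I F Z m v q) z‖ ≤ L + C / (2 * q ^ m)) := by
  exact stage_aux I F hF Z hZ r hr hr1 hdisj m hm v hv0 q ε C hq hq1 hε hC h1 h2 h3
    (fun Z hZ κ h0 h1 => bump_analytic Z hZ κ h0 h1)
    (fun Z hZ κ h0 h1 z hz => bump_half Z hZ κ h0 h1 z hz)
    (fun Z hZ κ h0 h1 z hz hne => bump_far Z hZ κ h0 h1 z hz hne)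
    (fun Z hZ κ h0 h1 z hz hn => bump_near Z hZ κ h0 h1 z hz hn)
    (fun Z hZ κ h0 h1 z hz hne => bump_deriv_far Z hZ κ h0 h1 z hz hne)
    (fun Z hZ κ h0 h1 z hz => bump_deriv_le Z hZ κ h0 h1 z hz)
    (fun Z hZ κ h0 h1 => bump_inverse Z hZ κ h0 h1)

/-- limits of a fast converging sequence of holomorphic functions; `A n` are sets on which the
convergence is controlled, `V n` open sets reaching the boundary -/
theorem limit_fn (F : ℕ → ℂ → ℂ) (hF : ∀ n, DifferentiableOn ℂ (F n) (ball 0 1))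
    (s e : ℕ → ℝ) (V : ℕ → Set ℂ) (hV : ∀ n, V n ⊆ V (n + 1))
    (hs : ∀ n, (1 + s n) / 2 ≤ s (n + 1)) (hs0 : 0 < s 0) (hs1 : ∀ n, s n < 1)
    (he : ∀ n, e (n + 1) ≤ e n / 2) (he0 : ∀ n, 0 < e n)
    (hstep : ∀ n, ∀ z ∈ ball (0:ℂ) 1, (z ∈ closedBall (0:ℂ) (s n) ∨ z ∈ V n) →
      ‖F (n + 1) z - F n z‖ ≤ e n / 2 ∧ ‖deriv (F (n + 1)) z - deriv (F n) z‖ ≤ e n / 2) :
    ∃ f : ℂ → ℂ, DifferentiableOn ℂ f (ball 0 1) ∧
      (∀ z ∈ ball (0:ℂ) 1, Tendsto (fun n => F n z) atTop (𝓝 (f z))) ∧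
      ∀ n, ∀ z ∈ ball (0:ℂ) 1, (z ∈ closedBall (0:ℂ) (s n) ∨ z ∈ V n) →
        ‖f z - F n z‖ ≤ e n ∧ ‖deriv f z - deriv (F n) z‖ ≤ e n := by
  -- monotonicity of the control sets
  have hsmono : ∀ n, s n ≤ s (n + 1) := fun n => by linarith [hs n, hs1 n]
  have hP : ∀ n k, ∀ z : ℂ, (z ∈ closedBall (0:ℂ) (s n) ∨ z ∈ V n) →
      (z ∈ closedBall (0:ℂ) (s (n + k)) ∨ z ∈ V (n + k)) := by
    intro n k z hz
    induction k with
    | zero => simpa using hz
    | succ k ih =>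
      rcases ih with h | h
      · left
        exact closedBall_subset_closedBall (hsmono (n + k)) h
      · right
        exact hV (n + k) h
  have hegeo : ∀ n k, e (n + k) ≤ e n / 2 ^ k := by
    intro n k
    induction k with
    | zero => simp
    | succ k ih =>
      calc e (n + (k + 1)) ≤ e (n + k) / 2 := he (n + k)
        _ ≤ (e n / 2 ^ k) / 2 := by linarith
        _ = e n / 2 ^ (k + 1) := by rw [pow_succ]; field_simp
  have he_tend : Tendsto e atTop (𝓝 0) := by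
    have h1 : Tendsto (fun k : ℕ => e 0 / 2 ^ k) atTop (𝓝 0) := by
      have := (tendsto_pow_atTop_nhds_zero_of_lt_one (r := (1/2 : ℝ)) (by norm_num) (by norm_num)).const_mul (e 0)
      simp only [mul_zero] at this
      refine this.congr (fun k => ?_)
      rw [one_div, inv_pow]; rfl
    refine squeeze_zero (fun n => (he0 n).le) (fun n => ?_) h1
    simpa using hegeo 0 n
  have hs_tend : ∀ n, 1 - s n ≤ (1 - s 0) / 2 ^ n := by
    intro n
    induction n with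
    | zero => simp
    | succ n ih =>
      calc 1 - s (n + 1) ≤ (1 - s n) / 2 := by linarith [hs n]
        _ ≤ ((1 - s 0) / 2 ^ n) / 2 := by linarith
        _ = (1 - s 0) / 2 ^ (n + 1) := by rw [pow_succ]; field_simp
  have hcover : ∀ z ∈ ball (0:ℂ) 1, ∃ n, ‖z‖ < s n := by
    intro z hz
    have hz1 : ‖z‖ < 1 := by simpa using hz
    have h1 : Tendsto (fun k : ℕ => (1 - s 0) / 2 ^ k) atTop (𝓝 0) := by
      have := (tendsto_pow_atTop_nhds_zero_of_lt_one (r := (1/2 : ℝ)) (by norm_num) (by norm_num)).const_mul (1 - s 0)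
      simp only [mul_zero] at this
      refine this.congr (fun k => ?_)
      rw [one_div, inv_pow]; rfl
    obtain ⟨n, hn⟩ := (h1.eventually (gt_mem_nhds (sub_pos.mpr hz1))).exists
    exact ⟨n, by linarith [hs_tend n]⟩
  -- geometric control from index n on
  have hgeo : ∀ n, ∀ z ∈ ball (0:ℂ) 1, (z ∈ closedBall (0:ℂ) (s n) ∨ z ∈ V n) → ∀ k,
      dist (F (n + k) z) (F (n + (k + 1)) z) ≤ (e n) / 2 / 2 ^ k ∧
      dist (deriv (F (n + k)) z) (deriv (F (n + (k + 1))) z) ≤ (e n) / 2 / 2 ^ k := by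
    intro n z hz hz' k
    have h := hstep (n + k) z hz (hP n k z hz')
    have h2 : e (n + k) / 2 ≤ e n / 2 / 2 ^ k := by
      have := hegeo n k
      calc e (n + k) / 2 ≤ (e n / 2 ^ k) / 2 := by linarith
        _ = e n / 2 / 2 ^ k := by ring
    rw [dist_comm, dist_comm (deriv (F (n + k)) z), dist_eq_norm, dist_eq_norm]
    exact ⟨h.1.trans h2, h.2.trans h2⟩
  have hlim : ∀ z ∈ ball (0:ℂ) 1, ∃ l, Tendsto (fun n => F n z) atTop (𝓝 l) := by
    intro z hz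
    obtain ⟨n, hn⟩ := hcover z hz
    have hz' : z ∈ closedBall (0:ℂ) (s n) ∨ z ∈ V n := Or.inl (by simpa using hn.le)
    have hc : CauchySeq (fun k => F (n + k) z) :=
      cauchySeq_of_le_geometric_two (fun k => (hgeo n z hz hz' k).1)
    obtain ⟨l, hl⟩ := cauchySeq_tendsto_of_complete hc
    refine ⟨l, ?_⟩
    have : Tendsto (fun k => F (k + n) z) atTop (𝓝 l) := by
      refine hl.congr (fun k => by rw [add_comm])
    exact (tendsto_add_atTop_iff_nat (f := fun m => F m z) n).mp this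
  classical
  let f : ℂ → ℂ := fun z => if h : z ∈ ball (0:ℂ) 1 then (hlim z h).choose else 0
  have hf : ∀ z ∈ ball (0:ℂ) 1, Tendsto (fun n => F n z) atTop (𝓝 (f z)) := by
    intro z hz
    have : f z = (hlim z hz).choose := by simp only [f]; rw [dif_pos hz]
    rw [this]
    exact (hlim z hz).choose_spec
  have hf' : ∀ n, ∀ z ∈ ball (0:ℂ) 1, Tendsto (fun k => F (n + k) z) atTop (𝓝 (f z)) := by
    intro n z hz
    have := (tendsto_add_atTop_iff_nat (f := fun m => F m z) n).mpr (hf z hz)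
    exact this.congr (fun k => by rw [add_comm])
  have hbound : ∀ n, ∀ z ∈ ball (0:ℂ) 1, (z ∈ closedBall (0:ℂ) (s n) ∨ z ∈ V n) →
      dist (F n z) (f z) ≤ e n := by
    intro n z hz hz'
    have := dist_le_of_le_geometric_two_of_tendsto₀ (C := e n) (fun k => (hgeo n z hz hz' k).1) (hf' n z hz)
    simpa using this
  have hunif : TendstoLocallyUniformlyOn F f atTop (ball 0 1) := by
    rw [Metric.tendstoLocallyUniformlyOn_iff]
    intro ε hε z hz
    obtain ⟨n, hn⟩ := hcover z hz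
    refine ⟨ball z (s n - ‖z‖), ?_, ?_⟩
    · exact mem_nhdsWithin_of_mem_nhds (ball_mem_nhds z (by linarith))
    · filter_upwards [he_tend.eventually (gt_mem_nhds hε), eventually_ge_atTop n] with m hm hmn
      intro y hy
      have hy1 : ‖y‖ < s n := by
        have h1 : ‖y - z‖ < s n - ‖z‖ := by simpa [dist_eq_norm] using hy
        have h2 : ‖y‖ ≤ ‖y - z‖ + ‖z‖ := by simpa using norm_add_le (y - z) z
        linarith
      have hyb : y ∈ ball (0:ℂ) 1 := by simpa using hy1.trans (hs1 n)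
      obtain ⟨k, rfl⟩ := Nat.exists_eq_add_of_le hmn
      have hy' := hP n k y (Or.inl (by simpa using hy1.le))
      have := hbound (n + k) y hyb hy'
      rw [dist_comm]
      exact lt_of_le_of_lt this hm
  have hdiff : DifferentiableOn ℂ f (ball 0 1) :=
    hunif.differentiableOn (Eventually.of_forall hF) isOpen_ball
  have hderiv : ∀ z ∈ ball (0:ℂ) 1, Tendsto (fun n => deriv (F n) z) atTop (𝓝 (deriv f z)) := by
    intro z hz
    have h1 := hunif.deriv (Eventually.of_forall hF) isOpen_ball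
    exact h1.tendsto_at hz
  refine ⟨f, hdiff, hf, ?_⟩
  intro n z hz hz'
  refine ⟨?_, ?_⟩
  · have := hbound n z hz hz'
    rw [← dist_eq_norm, dist_comm]; exact this
  · have h1 : Tendsto (fun k => deriv (F (n + k)) z) atTop (𝓝 (deriv f z)) := by
      have := (tendsto_add_atTop_iff_nat (f := fun m => deriv (F m) z) n).mpr (hderiv z hz)
      exact this.congr (fun k => by rw [add_comm])
    have := dist_le_of_le_geometric_two_of_tendsto₀ (C := e n) (fun k => (hgeo n z hz hz' k).2) h1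
    rw [← dist_eq_norm, dist_comm]; simpa using this

theorem path_aux (T : Finset (ℂ × ℝ)) (hT : ∀ t ∈ T, 0 < t.2)
    (hsep : ∀ t ∈ T, ∀ t' ∈ T, t ≠ t' → t.2 + t'.2 < ‖t.1 - t'.1‖) (x y : ℂ)
    (hx : ∀ t ∈ T, t.2 ≤ ‖x - t.1‖) (hy : ∀ t ∈ T, t.2 ≤ ‖y - t.1‖) (S : Finset (ℂ × ℝ)) :
    S ⊆ T → ∃ γ : unitInterval → ℂ, Continuous γ ∧ γ 0 = x ∧ γ 1 = y ∧
      (∀ s, ∀ t ∈ T, γ s ≠ t.1) ∧ ∀ s, ∀ t ∈ S, t.2 ≤ ‖γ s - t.1‖ := by
  classical
  induction S using Finset.induction_on with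
  | empty =>
    intro _
    have hc : IsPathConnected ((T.image Prod.fst : Finset ℂ) : Set ℂ)ᶜ := by
      apply Set.Countable.isPathConnected_compl_of_one_lt_rank
      · rw [Complex.rank_real_complex]; norm_num
      · exact (Finset.finite_toSet _).countable
    have hne : ∀ z : ℂ, (∀ t ∈ T, t.2 ≤ ‖z - t.1‖) →
        z ∈ ((T.image Prod.fst : Finset ℂ) : Set ℂ)ᶜ := by
      intro z hz hmem
      rw [Finset.mem_coe, Finset.mem_image] at hmem
      obtain ⟨t, ht, rfl⟩ := hmem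
      have h1 := hz t ht
      have h2 := hT t ht
      rw [sub_self, norm_zero] at h1
      linarith
    obtain ⟨γ, hγ⟩ := hc.joinedIn x (hne x hx) y (hne y hy)
    refine ⟨γ, γ.continuous, γ.source, γ.target, ?_, ?_⟩
    · intro s t ht h
      apply hγ s
      rw [Finset.mem_coe, Finset.mem_image]
      exact ⟨t, ht, h.symm⟩
    · intro s t ht
      exact absurd ht (Finset.notMem_empty t)
  | insert t0 S ht0 ih =>
    intro hST
    have ht0T : t0 ∈ T := hST (Finset.mem_insert_self _ _)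
    obtain ⟨γ, hc, h0, h1, hne, hout⟩ := ih (fun t ht => hST (Finset.mem_insert_of_mem ht))
    have hr := hT t0 ht0T
    have hpos : ∀ s, 0 < ‖γ s - t0.1‖ := fun s => norm_pos_iff.mpr (sub_ne_zero.mpr (hne s t0 ht0T))
    let m : unitInterval → ℝ := fun s => max 1 (t0.2 / ‖γ s - t0.1‖)
    have hmc : Continuous m := by
      apply continuous_const.max
      exact continuous_const.div (hc.sub continuous_const).norm (fun s => (hpos s).ne')
    have hfix : ∀ s, t0.2 ≤ ‖γ s - t0.1‖ → m s = 1 := by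
      intro s hs
      exact max_eq_left ((div_le_one (hpos s)).mpr hs)
    have hmove : ∀ s, ‖γ s - t0.1‖ ≤ t0.2 → m s * ‖γ s - t0.1‖ = t0.2 := by
      intro s hs
      show max 1 (t0.2 / ‖γ s - t0.1‖) * ‖γ s - t0.1‖ = t0.2
      rw [max_eq_right ((one_le_div (hpos s)).mpr hs), div_mul_cancel₀ _ (hpos s).ne']
    have hm0 : ∀ s, 0 ≤ m s := fun s => le_trans zero_le_one (le_max_left _ _)
    refine ⟨fun s => t0.1 + (m s : ℂ) * (γ s - t0.1), ?_, ?_, ?_, ?_, ?_⟩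
    · exact continuous_const.add ((Complex.continuous_ofReal.comp hmc).mul (hc.sub continuous_const))
    · show t0.1 + (m 0 : ℂ) * (γ 0 - t0.1) = x
      rw [hfix 0 (by rw [h0]; exact hx t0 ht0T), h0]; push_cast; ring
    · show t0.1 + (m 1 : ℂ) * (γ 1 - t0.1) = y
      rw [hfix 1 (by rw [h1]; exact hy t0 ht0T), h1]; push_cast; ring
    · intro s t ht
      show t0.1 + (m s : ℂ) * (γ s - t0.1) ≠ t.1
      by_cases htt : t = t0
      · subst htt
        intro h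
        have h2 : (m s : ℂ) * (γ s - t.1) = 0 := by linear_combination h
        rcases mul_eq_zero.mp h2 with h3 | h3
        · have h4 : m s = 0 := by exact_mod_cast h3
          have h5 : 1 ≤ m s := le_max_left _ _
          linarith
        · exact hne s t ht (sub_eq_zero.mp h3)
      · rcases le_total t0.2 ‖γ s - t0.1‖ with hs | hs
        · rw [hfix s hs]
          intro h
          apply hne s t ht
          push_cast at h
          linear_combination h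
        · intro h
          have h2 : ‖(t0.1 + (m s : ℂ) * (γ s - t0.1)) - t0.1‖ = t0.2 := by
            rw [add_sub_cancel_left, norm_mul, Complex.norm_real, Real.norm_of_nonneg (hm0 s)]
            exact hmove s hs
          rw [h] at h2
          have h3 := hsep t ht t0 ht0T htt
          have h4 := hT t ht
          linarith
    · intro s t ht
      show t.2 ≤ ‖t0.1 + (m s : ℂ) * (γ s - t0.1) - t.1‖
      rcases Finset.mem_insert.mp ht with htt | htS
      · subst htt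
        rw [add_sub_cancel_left, norm_mul, Complex.norm_real, Real.norm_of_nonneg (hm0 s)]
        rcases le_total t.2 ‖γ s - t.1‖ with hs | hs
        · rw [hfix s hs, one_mul]; exact hs
        · rw [hmove s hs]
      · have htT : t ∈ T := hST (Finset.mem_insert_of_mem htS)
        have htt : t ≠ t0 := fun h => ht0 (h ▸ htS)
        rcases le_total t0.2 ‖γ s - t0.1‖ with hs | hs
        · rw [hfix s hs]
          have e : t0.1 + ((1 : ℝ) : ℂ) * (γ s - t0.1) - t.1 = γ s - t.1 := by push_cast; ring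
          rw [e]
          exact hout s t htS
        · have h2 : ‖(m s : ℂ) * (γ s - t0.1)‖ = t0.2 := by
            rw [norm_mul, Complex.norm_real, Real.norm_of_nonneg (hm0 s)]
            exact hmove s hs
          have h3 := hsep t0 ht0T t htT (Ne.symm htt)
          have e : t0.1 - t.1 = (t0.1 + (m s : ℂ) * (γ s - t0.1) - t.1) - (m s : ℂ) * (γ s - t0.1) := by
            ring
          have h4 : ‖t0.1 - t.1‖ ≤ ‖t0.1 + (m s : ℂ) * (γ s - t0.1) - t.1‖
              + ‖(m s : ℂ) * (γ s - t0.1)‖ := by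
            calc ‖t0.1 - t.1‖ = ‖(t0.1 + (m s : ℂ) * (γ s - t0.1) - t.1) - (m s : ℂ) * (γ s - t0.1)‖ := by
                  rw [← e]
              _ ≤ _ := norm_sub_le _ _
          linarith

/-- the complement of finitely many separated discs is connected by small steps -/
theorem path_lemma (T : Finset (ℂ × ℝ)) (hT : ∀ t ∈ T, 0 < t.2)
    (hsep : ∀ t ∈ T, ∀ t' ∈ T, t ≠ t' → t.2 + t'.2 < ‖t.1 - t'.1‖) (x y : ℂ)
    (hx : ∀ t ∈ T, t.2 ≤ ‖x - t.1‖) (hy : ∀ t ∈ T, t.2 ≤ ‖y - t.1‖) (η : ℝ) (hη : 0 < η) :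
    ∃ M₀ : ℕ, ∀ M ≥ M₀, ∃ v : ℕ → ℂ, v 0 = x ∧ v M = y ∧
      (∀ l < M, ‖v (l + 1) - v l‖ ≤ η) ∧ ∀ l ≤ M, ∀ t ∈ T, t.2 ≤ ‖v l - t.1‖ := by
  obtain ⟨γ, hc, h0, h1, _, hout⟩ := path_aux T hT hsep x y hx hy T (Finset.Subset.refl T)
  have huc : UniformContinuous γ := CompactSpace.uniformContinuous_of_continuous hc
  rw [Metric.uniformContinuous_iff] at huc
  obtain ⟨δ, hδ, hγδ⟩ := huc η hη
  obtain ⟨M₀, hM₀⟩ := exists_nat_gt (1 / δ)
  refine ⟨M₀ + 1, fun M hM => ?_⟩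
  have hMpos : (0 : ℝ) < M := by
    have : 1 ≤ M := by omega
    exact_mod_cast this
  have hMδ : 1 / (M : ℝ) < δ := by
    have h2 : (M₀ : ℝ) < M := by exact_mod_cast (by omega : M₀ < M)
    rw [div_lt_iff₀ hMpos]
    rw [div_lt_iff₀ hδ] at hM₀
    nlinarith
  refine ⟨fun l => γ (Set.projIcc 0 1 zero_le_one ((l : ℝ) / M)), ?_, ?_, ?_, ?_⟩
  · show γ (Set.projIcc 0 1 zero_le_one (((0 : ℕ) : ℝ) / M)) = x
    rw [Nat.cast_zero, zero_div, ← h0]
    congr 1
    exact Set.projIcc_left (h := zero_le_one)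
  · show γ (Set.projIcc 0 1 zero_le_one ((M : ℝ) / M)) = y
    rw [div_self hMpos.ne', ← h1]
    congr 1
    exact Set.projIcc_right (h := zero_le_one)
  · intro l hl
    have hb : ∀ j ≤ M, (j : ℝ) / M ∈ Set.Icc (0 : ℝ) 1 := by
      intro j hj
      constructor
      · positivity
      · rw [div_le_one hMpos]; exact_mod_cast hj
    show ‖γ (Set.projIcc 0 1 zero_le_one (((l + 1 : ℕ) : ℝ) / M))
      - γ (Set.projIcc 0 1 zero_le_one ((l : ℝ) / M))‖ ≤ η
    rw [Set.projIcc_of_mem zero_le_one (hb (l + 1) (by omega)),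
      Set.projIcc_of_mem zero_le_one (hb l (by omega)), ← dist_eq_norm]
    apply le_of_lt
    apply hγδ
    rw [Subtype.dist_eq, Real.dist_eq]
    have : (((l + 1 : ℕ) : ℝ) / M) - (l : ℝ) / M = 1 / M := by
      push_cast; ring
    rw [this, abs_of_pos (by positivity)]
    exact hMδ
  · intro l _ t ht
    exact hout _ t ht

/-- coverage of a compact set is stable under small perturbations on a large disc -/
theorem robust (F : ℂ → ℂ) (hF : DifferentiableOn ℂ F (ball 0 1)) (K : Set ℂ) (hK : IsCompact K)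
    (hKF : K ⊆ F '' ball 0 1) (hn : ¬ ∃ c, ∀ z ∈ ball (0:ℂ) 1, F z = c) :
    ∃ s : ℝ, 0 < s ∧ s < 1 ∧ ∃ e : ℝ, 0 < e ∧ ∀ f : ℂ → ℂ, DifferentiableOn ℂ f (ball 0 1) →
      (∀ z ∈ closedBall (0:ℂ) s, ‖f z - F z‖ ≤ e) → K ⊆ f '' ball 0 1 := by
  refine hK.induction_on (p := fun K => ∃ s : ℝ, 0 < s ∧ s < 1 ∧ ∃ e : ℝ, 0 < e ∧
    ∀ f : ℂ → ℂ, DifferentiableOn ℂ f (ball 0 1) →
      (∀ z ∈ closedBall (0:ℂ) s, ‖f z - F z‖ ≤ e) → K ⊆ f '' ball 0 1) ?_ ?_ ?_ ?_
  · exact ⟨1/2, by norm_num, by norm_num, 1, one_pos, fun f _ _ => empty_subset _⟩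
  · rintro s t hst ⟨s', h1, h2, e, h3, h4⟩
    exact ⟨s', h1, h2, e, h3, fun f hf hc => hst.trans (h4 f hf hc)⟩
  · rintro s t ⟨s1, h1, h2, e, h3, h4⟩ ⟨s2, h1', h2', e', h3', h4'⟩
    refine ⟨max s1 s2, lt_max_of_lt_left h1, max_lt h2 h2', min e e', lt_min h3 h3', ?_⟩
    intro f hf hc
    apply union_subset
    · exact h4 f hf (fun z hz => (hc z (closedBall_subset_closedBall (le_max_left _ _) hz)).trans
        (min_le_left _ _))
    · exact h4' f hf (fun z hz => (hc z (closedBall_subset_closedBall (le_max_right _ _) hz)).trans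
        (min_le_right _ _))
  · intro w hw
    obtain ⟨z0, hz0, rfl⟩ := hKF hw
    have hana : AnalyticOnNhd ℂ F (ball 0 1) := hF.analyticOnNhd isOpen_ball
    have hpre : IsPreconnected (ball (0:ℂ) 1) := (convex_ball _ _).isPreconnected
    have hne : ∀ᶠ z in 𝓝[≠] z0, F z ≠ F z0 := by
      rcases (hana z0 hz0).eventually_eq_or_eventually_ne (g := fun _ => F z0) analyticAt_const with h | h
      · exfalso
        apply hn
        refine ⟨F z0, fun z hz => ?_⟩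
        exact hana.eqOn_of_preconnected_of_eventuallyEq (g := fun _ => F z0) (fun _ _ => analyticAt_const)
          hpre hz0 h hz
      · exact h
    rw [eventually_nhdsWithin_iff, Metric.eventually_nhds_iff_ball] at hne
    obtain ⟨ρ, hρ, hne⟩ := hne
    have hz0' : ‖z0‖ < 1 := by simpa using hz0
    set r : ℝ := min (ρ/2) ((1 - ‖z0‖)/2) with hr
    have hrpos : 0 < r := lt_min (by linarith) (by linarith)
    have hr1 : r ≤ ρ/2 := min_le_left _ _
    have hr2 : r ≤ (1 - ‖z0‖)/2 := min_le_right _ _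
    have hcb : closedBall z0 r ⊆ ball 0 1 := by
      intro z hz
      rw [mem_closedBall, dist_eq_norm] at hz
      rw [mem_ball_zero_iff]
      calc ‖z‖ = ‖(z - z0) + z0‖ := by ring_nf
        _ ≤ ‖z - z0‖ + ‖z0‖ := norm_add_le _ _
        _ < 1 := by linarith
    have hcs : closedBall z0 r ⊆ closedBall 0 (‖z0‖ + r) := by
      intro z hz
      rw [mem_closedBall, dist_eq_norm] at hz
      rw [mem_closedBall_zero_iff]
      calc ‖z‖ = ‖(z - z0) + z0‖ := by ring_nf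
        _ ≤ ‖z - z0‖ + ‖z0‖ := norm_add_le _ _
        _ ≤ _ := by linarith
    have hsne : (sphere z0 r).Nonempty := NormedSpace.sphere_nonempty.mpr hrpos.le
    have hcont : ContinuousOn (fun z => ‖F z - F z0‖) (sphere z0 r) :=
      ((hF.continuousOn.mono (sphere_subset_closedBall.trans hcb)).sub continuousOn_const).norm
    obtain ⟨zm, hzm, hmin⟩ := (isCompact_sphere z0 r).exists_isMinOn hsne hcont
    set ε : ℝ := ‖F zm - F z0‖ with hε
    have hεpos : 0 < ε := by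
      rw [hε, norm_pos_iff, sub_ne_zero]
      rw [mem_sphere] at hzm
      apply hne zm
      · rw [mem_ball, hzm]; linarith
      · intro h
        simp only [mem_singleton_iff] at h
        rw [h, dist_self] at hzm
        linarith
    have hεle : ∀ z ∈ sphere z0 r, ε ≤ ‖F z - F z0‖ := fun z hz => hmin hz
    refine ⟨ball (F z0) (ε/4), mem_nhdsWithin_of_mem_nhds (ball_mem_nhds _ (by linarith)),
      ‖z0‖ + r, by positivity, by linarith, ε/8, by linarith, ?_⟩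
    intro f hf hc
    have hsph : ∀ z ∈ sphere z0 r, 3*ε/4 ≤ ‖f z - f z0‖ := by
      intro z hz
      have h1 := hεle z hz
      have h2 := hc z (hcs (sphere_subset_closedBall hz))
      have h3 := hc z0 (hcs (mem_closedBall_self hrpos.le))
      have h4 : ‖F z - F z0‖ ≤ ‖f z - f z0‖ + ‖f z - F z‖ + ‖f z0 - F z0‖ := by
        have : F z - F z0 = (f z - f z0) - (f z - F z) + (f z0 - F z0) := by ring
        rw [this]
        refine (norm_add_le _ _).trans ?_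
        gcongr
        exact norm_sub_le _ _
      linarith
    have hdc : DiffContOnCl ℂ f (ball z0 r) := by
      apply (hf.mono hcb).diffContOnCl_ball
      exact subset_rfl
    have hfreq : ∃ᶠ z in 𝓝 z0, f z ≠ f z0 := by
      by_contra hcon
      rw [not_frequently] at hcon
      have h1 : f =ᶠ[𝓝 z0] (fun _ => f z0) := by
        filter_upwards [hcon] with z hz
        simpa using hz
      have hfa : AnalyticOnNhd ℂ f (ball 0 1) := hf.analyticOnNhd isOpen_ball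
      have h2 := hfa.eqOn_of_preconnected_of_eventuallyEq (g := fun _ => f z0)
        (fun _ _ => analyticAt_const) hpre hz0 h1
      have h3 := hsph zm hzm
      have h4 : f zm = f z0 := h2 (hcb (sphere_subset_closedBall hzm))
      rw [h4, sub_self, norm_zero] at h3
      linarith
    have h5 := hdc.ball_subset_image_closedBall hrpos hsph hfreq
    intro w hw
    have h6 : w ∈ ball (f z0) (3*ε/4/2) := by
      rw [mem_ball] at hw ⊢
      have h3 := hc z0 (hcs (mem_closedBall_self hrpos.le))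
      calc dist w (f z0) ≤ dist w (F z0) + dist (F z0) (f z0) := dist_triangle _ _ _
        _ < ε/4 + ε/8 := by
          apply add_lt_add_of_lt_of_le hw
          rw [dist_comm, dist_eq_norm]; exact h3
        _ = 3*ε/4/2 := by ring
    obtain ⟨z, hz, hzw⟩ := h5 h6
    exact ⟨z, hcb hz, hzw⟩

/-- a state of the construction: current function, used boundary balls, radius, tolerance, places -/
structure St where
  F : ℂ → ℂ
  V : Finset (ℂ × ℝ)
  s : ℝ
  e : ℝ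
  P : Set (ℂ × ℝ × Set ℂ)

/-- region used up by the boundary balls -/
def reg (V : Finset (ℂ × ℝ)) : Set ℂ := {z | ∃ b ∈ V, z ∈ ball b.1 b.2}

theorem reg_mono {V W : Finset (ℂ × ℝ)} (h : V ⊆ W) : reg V ⊆ reg W := by
  rintro z ⟨b, hb, hz⟩
  exact ⟨b, h hb, hz⟩

/-- functions close to a state -/
structure Near (S : St) (f : ℂ → ℂ) : Prop where
  diff : DifferentiableOn ℂ f (ball 0 1)
  close : ∀ z ∈ ball (0:ℂ) 1, (z ∈ closedBall (0:ℂ) S.s ∨ z ∈ reg S.V) →
    ‖f z - S.F z‖ ≤ S.e ∧ ‖deriv f z - deriv S.F z‖ ≤ S.e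
  avoid : ∀ t ∈ S.P, ∀ z ∈ ball (0:ℂ) 1, z ∉ t.2.2 → t.2.1 ≤ ‖f z - t.1‖

/-- invariants of a state -/
structure Inv (S : St) : Prop where
  an : AnalyticOnNhd ℂ S.F (closedBall 0 1)
  Vunit : ∀ b ∈ S.V, ‖b.1‖ = 1 ∧ 0 < b.2
  Vsum : ∑ b ∈ S.V, b.2 < 1 / 1000
  small : ∀ z ∈ closedBall (0:ℂ) 1, z ∉ reg S.V → ‖S.F z‖ ≤ 1 / 2 - S.e
  spos : 0 < S.s
  slt : S.s < 1
  epos : 0 < S.e
  ele : S.e ≤ 1 / 8
  Pfin : S.P.Finite
  Pax : ∀ t ∈ S.P, 0 < t.2.1 ∧ t.2.1 + 3 ≤ |t.1.re| ∧ t.2.1 + 3 ≤ |t.1.im|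
  Psep : ∀ t ∈ S.P, ∀ t' ∈ S.P, t ≠ t' → t.2.1 + t'.2.1 + 4 ≤ ‖t.1 - t'.1‖
  avoid : ∀ t ∈ S.P, ∀ z ∈ ball (0:ℂ) 1, z ∉ t.2.2 → t.2.1 + 2 * S.e ≤ ‖S.F z - t.1‖
  cover : ∀ f, Near S f → ∀ t ∈ S.P, closedBall t.1 (t.2.1 + 1) ⊆ f '' ball 0 1

/-- one step of the construction -/
structure Step (S S' : St) : Prop where
  hF : ∀ z ∈ ball (0:ℂ) 1, (z ∈ closedBall (0:ℂ) S.s ∨ z ∈ reg S.V) →
    ‖S'.F z - S.F z‖ ≤ S.e / 2 ∧ ‖deriv S'.F z - deriv S.F z‖ ≤ S.e / 2
  hV : S.V ⊆ S'.V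
  hs : (1 + S.s) / 2 ≤ S'.s
  he : S'.e ≤ S.e / 2
  hP : S.P ⊆ S'.P

theorem Step.near {S S' : St} (hI : Inv S) (h : Step S S') {f : ℂ → ℂ} (hf : Near S' f) :
    Near S f := by
  refine ⟨hf.diff, ?_, fun t ht z hz hzt => hf.avoid t (h.hP ht) z hz hzt⟩
  intro z hz hz'
  have h1 := h.hF z hz hz'
  have hss : S.s ≤ S'.s := by have := h.hs; have := hI.slt; linarith
  have h2 := hf.close z hz (by
    rcases hz' with h' | h'
    · left; exact closedBall_subset_closedBall hss h'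
    · right; exact reg_mono h.hV h')
  have he := h.he
  constructor
  · have : f z - S.F z = (f z - S'.F z) + (S'.F z - S.F z) := by ring
    rw [this]
    exact (norm_add_le _ _).trans (by linarith [h1.1, h2.1])
  · have : deriv f z - deriv S.F z = (deriv f z - deriv S'.F z) + (deriv S'.F z - deriv S.F z) := by
      ring
    rw [this]
    exact (norm_add_le _ _).trans (by linarith [h1.2, h2.2])

theorem inv_step {α : Type} (S : St) (hI : Inv S) (I : Finset α) (Z : α → ℂ)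
    (hZ : ∀ i ∈ I, ‖Z i‖ = 1) (r : ℝ) (hr : 0 < r) (hrs : r < 1 - S.s)
    (hfree : ∀ i ∈ I, ∀ b ∈ S.V, b.2 + r ≤ ‖Z i - b.1‖)
    (hsum : (I.card : ℝ) * r + ∑ b ∈ S.V, b.2 < 1 / 1000)
    (F' : ℂ → ℂ) (hF' : AnalyticOnNhd ℂ F' (closedBall 0 1))
    (hfar : ∀ z ∈ closedBall (0:ℂ) 1, (∀ i ∈ I, z ∉ ball (Z i) r) →
      ‖F' z - S.F z‖ ≤ S.e / 4 ∧ ‖deriv F' z - deriv S.F z‖ ≤ S.e / 4)
    (Pn : Set (ℂ × ℝ × Set ℂ)) (hPn : Pn.Finite)
    (hPax : ∀ t ∈ Pn, 0 < t.2.1 ∧ t.2.1 + 3 ≤ |t.1.re| ∧ t.2.1 + 3 ≤ |t.1.im|)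
    (hsep1 : ∀ t ∈ Pn, ∀ t' ∈ Pn, t ≠ t' → t.2.1 + t'.2.1 + 4 ≤ ‖t.1 - t'.1‖)
    (hsep2 : ∀ t ∈ Pn, ∀ t' ∈ S.P, t.2.1 + t'.2.1 + 4 ≤ ‖t.1 - t'.1‖)
    (hav_old : ∀ t ∈ S.P, ∀ i ∈ I, ∀ z ∈ ball (0:ℂ) 1, z ∈ ball (Z i) r →
      t.2.1 + 1 / 2 ≤ ‖F' z - t.1‖)
    (hav_new : ∀ t ∈ Pn, ∀ z ∈ ball (0:ℂ) 1, z ∉ t.2.2 → t.2.1 + 1 / 2 ≤ ‖F' z - t.1‖)
    (hcov : ∀ t ∈ Pn, closedBall t.1 (t.2.1 + 1) ⊆ F' '' ball 0 1)
    (K : Set ℂ) (hK : IsCompact K) (hKF : K ⊆ F' '' ball 0 1)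
    (hnc : ¬ ∃ c, ∀ z ∈ ball (0:ℂ) 1, F' z = c) (e0 : ℝ) (he0 : 0 < e0) :
    ∃ S' : St, Inv S' ∧ Step S S' ∧ S'.F = F' ∧
      (∀ z, z ∈ reg S'.V ↔ z ∈ reg S.V ∨ ∃ i ∈ I, z ∈ ball (Z i) r) ∧
      S'.P = S.P ∪ Pn ∧ S'.e ≤ e0 ∧ ∀ f, Near S' f → K ⊆ f '' ball 0 1 := by
  classical
  -- compact set for robustness
  set K' : Set ℂ := K ∪ ⋃ t ∈ Pn, closedBall t.1 (t.2.1 + 1) with hK'
  have hK'c : IsCompact K' := by
    apply hK.union
    apply hPn.isCompact_biUnion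
    intro t _
    exact isCompact_closedBall _ _
  have hK'F : K' ⊆ F' '' ball 0 1 := by
    apply union_subset hKF
    apply iUnion₂_subset
    intro t ht
    exact hcov t ht
  have hd : DifferentiableOn ℂ F' (ball 0 1) :=
    hF'.differentiableOn.mono ball_subset_closedBall
  obtain ⟨s0, hs0, hs01, eR, heR, hrob⟩ := robust F' hd K' hK'c hK'F hnc
  set s' : ℝ := max s0 ((1 + S.s) / 2) with hs'
  set e' : ℝ := min (min e0 eR) (S.e / 2) with he'
  have hspos := hI.spos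
  have hslt := hI.slt
  have hepos := hI.epos
  have hele := hI.ele
  have he'0 : 0 < e' := by
    rw [he']; exact lt_min (lt_min he0 heR) (by linarith)
  have he'1 : e' ≤ e0 := (min_le_left _ _).trans (min_le_left _ _)
  have he'2 : e' ≤ eR := (min_le_left _ _).trans (min_le_right _ _)
  have he'3 : e' ≤ S.e / 2 := min_le_right _ _
  have hs'0 : s0 ≤ s' := le_max_left _ _
  have hs'1 : (1 + S.s) / 2 ≤ s' := le_max_right _ _
  have hs'2 : s' < 1 := by
    rw [hs']; exact max_lt hs01 (by linarith)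
  set V' : Finset (ℂ × ℝ) := S.V ∪ I.image (fun i => (Z i, r)) with hV'
  have hreg : ∀ z, z ∈ reg V' ↔ z ∈ reg S.V ∨ ∃ i ∈ I, z ∈ ball (Z i) r := by
    intro z
    constructor
    · rintro ⟨b, hb, hz⟩
      rw [hV', Finset.mem_union, Finset.mem_image] at hb
      rcases hb with hb | ⟨i, hi, rfl⟩
      · exact Or.inl ⟨b, hb, hz⟩
      · exact Or.inr ⟨i, hi, hz⟩
    · rintro (⟨b, hb, hz⟩ | ⟨i, hi, hz⟩)
      · exact ⟨b, by rw [hV']; exact Finset.mem_union_left _ hb, hz⟩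
      · exact ⟨(Z i, r), by
          rw [hV']
          exact Finset.mem_union_right _ (Finset.mem_image_of_mem _ hi), hz⟩
  -- points away from the new balls
  have haway : ∀ z ∈ ball (0:ℂ) 1, (z ∈ closedBall (0:ℂ) S.s ∨ z ∈ reg S.V) →
      ∀ i ∈ I, z ∉ ball (Z i) r := by
    intro z _ hz i hi hzi
    rw [mem_ball, dist_eq_norm] at hzi
    rcases hz with hz | ⟨b, hb, hz⟩
    · rw [mem_closedBall, dist_zero_right] at hz
      have h1 : ‖Z i‖ ≤ ‖z‖ + ‖z - Z i‖ := by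
        have : Z i = z - (z - Z i) := by ring
        calc ‖Z i‖ = ‖z - (z - Z i)‖ := by rw [← this]
          _ ≤ _ := norm_sub_le _ _
      rw [hZ i hi] at h1
      linarith
    · rw [mem_ball, dist_eq_norm] at hz
      have h1 := hfree i hi b hb
      have h2 : ‖Z i - b.1‖ ≤ ‖z - b.1‖ + ‖z - Z i‖ := by
        have : Z i - b.1 = (z - b.1) - (z - Z i) := by ring
        rw [this]
        exact norm_sub_le _ _
      linarith
  let S' : St := ⟨F', V', s', e', S.P ∪ Pn⟩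
  have hstep : Step S S' := by
    refine ⟨?_, ?_, hs'1, he'3, subset_union_left⟩
    · intro z hz hz'
      have := hfar z (ball_subset_closedBall hz) (haway z hz hz')
      exact ⟨this.1.trans (by linarith), this.2.trans (by linarith)⟩
    · show S.V ⊆ V'
      rw [hV']; exact Finset.subset_union_left
  have hK'f : ∀ f, Near S' f → K' ⊆ f '' ball 0 1 := by
    intro f hf
    apply hrob f hf.diff
    intro z hz
    have hz1 : z ∈ closedBall (0:ℂ) s' := closedBall_subset_closedBall hs'0 hz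
    have hz2 : z ∈ ball (0:ℂ) 1 := closedBall_subset_ball hs'2 hz1
    exact (hf.close z hz2 (Or.inl hz1)).1.trans he'2
  refine ⟨S', ?_, hstep, rfl, hreg, rfl, he'1, fun f hf => subset_union_left.trans (hK'f f hf)⟩
  refine
    { an := hF'
      Vunit := ?_
      Vsum := ?_
      small := ?_
      spos := lt_of_lt_of_le hs0 hs'0
      slt := hs'2
      epos := he'0
      ele := by show e' ≤ 1 / 8; linarith
      Pfin := hI.Pfin.union hPn
      Pax := ?_
      Psep := ?_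
      avoid := ?_
      cover := ?_ }
  · intro b hb
    change b ∈ V' at hb
    rw [hV', Finset.mem_union, Finset.mem_image] at hb
    rcases hb with hb | ⟨i, hi, rfl⟩
    · exact hI.Vunit b hb
    · exact ⟨hZ i hi, hr⟩
  · show ∑ b ∈ V', b.2 < 1 / 1000
    have h1 := Finset.sum_union_inter (s₁ := S.V) (s₂ := I.image (fun i => (Z i, r)))
      (f := fun b : ℂ × ℝ => b.2)
    have h2 : 0 ≤ ∑ b ∈ S.V ∩ I.image (fun i => (Z i, r)), b.2 := by
      apply Finset.sum_nonneg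
      intro b hb
      exact (hI.Vunit b (Finset.mem_inter.1 hb).1).2.le
    have h3 : ∑ b ∈ I.image (fun i => (Z i, r)), b.2 ≤ (I.card : ℝ) * r := by
      calc ∑ b ∈ I.image (fun i => (Z i, r)), b.2
          = ∑ b ∈ I.image (fun i => (Z i, r)), r := by
            apply Finset.sum_congr rfl
            intro b hb
            rw [Finset.mem_image] at hb
            obtain ⟨i, _, rfl⟩ := hb
            rfl
        _ = ((I.image (fun i => (Z i, r))).card : ℝ) * r := by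
            rw [Finset.sum_const, nsmul_eq_mul]
        _ ≤ _ := by
            apply mul_le_mul_of_nonneg_right _ hr.le
            exact_mod_cast Finset.card_image_le
    rw [hV']
    linarith
  · intro z hz hzV
    change z ∉ reg V' at hzV
    rw [hreg, not_or] at hzV
    obtain ⟨hz1, hz2⟩ := hzV
    have h1 := hI.small z hz hz1
    have h2 := (hfar z hz (by
      intro i hi hzi
      exact hz2 ⟨i, hi, hzi⟩)).1
    show ‖F' z‖ ≤ 1 / 2 - e'
    have h3 : ‖F' z‖ ≤ ‖S.F z‖ + ‖F' z - S.F z‖ := by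
      have : F' z = S.F z + (F' z - S.F z) := by ring
      calc ‖F' z‖ = ‖S.F z + (F' z - S.F z)‖ := by rw [← this]
        _ ≤ _ := norm_add_le _ _
    linarith
  · rintro t (ht | ht)
    · exact hI.Pax t ht
    · exact hPax t ht
  · rintro t (ht | ht) t' (ht' | ht') hne
    · exact hI.Psep t ht t' ht' hne
    · have := hsep2 t' ht' t ht
      rw [norm_sub_rev]
      linarith
    · exact hsep2 t ht t' ht'
    · exact hsep1 t ht t' ht' hne
  · rintro t (ht | ht) z hz hzt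
    · show t.2.1 + 2 * e' ≤ ‖F' z - t.1‖
      by_cases hzi : ∃ i ∈ I, z ∈ ball (Z i) r
      · obtain ⟨i, hi, hzi⟩ := hzi
        have := hav_old t ht i hi z hz hzi
        linarith
      · have h1 := hI.avoid t ht z hz hzt
        have h2 := (hfar z (ball_subset_closedBall hz) (by
          intro i hi h
          exact hzi ⟨i, hi, h⟩)).1
        have h3 : ‖S.F z - t.1‖ ≤ ‖F' z - t.1‖ + ‖F' z - S.F z‖ := by
          have : S.F z - t.1 = (F' z - t.1) - (F' z - S.F z) := by ring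
          rw [this]
          exact norm_sub_le _ _
        linarith
    · show t.2.1 + 2 * e' ≤ ‖F' z - t.1‖
      have := hav_new t ht z hz hzt
      linarith
  · rintro f hf t (ht | ht)
    · exact hI.cover f (hstep.near hI hf) t ht
    · intro w hw
      apply hK'f f hf
      right
      exact mem_iUnion₂.2 ⟨t, ht, hw⟩

theorem free_pos (V : Finset (ℂ × ℝ)) (hV : ∀ b ∈ V, ‖b.1‖ = 1 ∧ 0 < b.2)
    (hs : ∑ b ∈ V, b.2 < 1 / 1000) :
    ∀ᶠ N : ℕ in atTop, ∀ (_ : NeZero N), ∀ J : Finset (ZMod N),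
      (∀ a : ZMod N, a ∈ J ↔ ∀ b ∈ V, 3 * b.2 ≤ ‖rt N a - b.1‖ ∧ 3 * b.2 ≤ ‖-rt N a - b.1‖) →
      7 * N ≤ 8 * J.card := by
  have hV0 : ∀ b ∈ V, 0 < b.2 := fun b hb => (hV b hb).2
  filter_upwards [eventually_ge_atTop (34 * V.card)] with N hN
  intro _ J hJ
  classical
  have hsub : Finset.univ \ J ⊆ V.biUnion (fun b =>
      (Finset.univ.filter (fun a : ZMod N => ‖rt N a - b.1‖ < 3 * b.2)) ∪
      (Finset.univ.filter (fun a : ZMod N => ‖rt N a - (-b.1)‖ < 3 * b.2))) := by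
    intro a ha
    rw [Finset.mem_sdiff] at ha
    have h1 : ¬ ∀ b ∈ V, 3 * b.2 ≤ ‖rt N a - b.1‖ ∧ 3 * b.2 ≤ ‖-rt N a - b.1‖ := fun h =>
      ha.2 ((hJ a).mpr h)
    push Not at h1
    obtain ⟨b, hb, h2⟩ := h1
    rw [Finset.mem_biUnion]
    refine ⟨b, hb, ?_⟩
    rw [Finset.mem_union, Finset.mem_filter, Finset.mem_filter]
    by_cases h3 : 3 * b.2 ≤ ‖rt N a - b.1‖
    · right
      refine ⟨Finset.mem_univ _, ?_⟩
      have h4 := h2 h3
      have h5 : -rt N a - b.1 = -(rt N a - (-b.1)) := by ring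
      rwa [h5, norm_neg] at h4
    · left
      exact ⟨Finset.mem_univ _, not_le.mp h3⟩
  have h1 : ((Finset.univ \ J).card : ℝ) ≤ ∑ b ∈ V, (6 * N * b.2 + 4) := by
    calc ((Finset.univ \ J).card : ℝ) ≤ ((V.biUnion (fun b =>
      (Finset.univ.filter (fun a : ZMod N => ‖rt N a - b.1‖ < 3 * b.2)) ∪
      (Finset.univ.filter (fun a : ZMod N => ‖rt N a - (-b.1)‖ < 3 * b.2)))).card : ℝ) := by
          exact_mod_cast Finset.card_le_card hsub
      _ ≤ ((∑ b ∈ V, ((Finset.univ.filter (fun a : ZMod N => ‖rt N a - b.1‖ < 3 * b.2)) ∪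
      (Finset.univ.filter (fun a : ZMod N => ‖rt N a - (-b.1)‖ < 3 * b.2))).card : ℕ) : ℝ) := by
          exact_mod_cast Finset.card_biUnion_le
      _ = ∑ b ∈ V, ((((Finset.univ.filter (fun a : ZMod N => ‖rt N a - b.1‖ < 3 * b.2)) ∪
      (Finset.univ.filter (fun a : ZMod N => ‖rt N a - (-b.1)‖ < 3 * b.2))).card : ℕ) : ℝ) := by
          push_cast; rfl
      _ ≤ _ := by
          apply Finset.sum_le_sum
          intro b hb
          have g1 := count_near N b.1 (hV b hb).1 (3 * b.2) (by linarith [hV0 b hb])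
          have g2 := count_near N (-b.1) (by rw [norm_neg]; exact (hV b hb).1) (3 * b.2)
            (by linarith [hV0 b hb])
          have g3 : ((((Finset.univ.filter (fun a : ZMod N => ‖rt N a - b.1‖ < 3 * b.2)) ∪
            (Finset.univ.filter (fun a : ZMod N => ‖rt N a - (-b.1)‖ < 3 * b.2))).card : ℕ) : ℝ) ≤
            ((Finset.univ.filter (fun a : ZMod N => ‖rt N a - b.1‖ < 3 * b.2)).card : ℝ) +
            ((Finset.univ.filter (fun a : ZMod N => ‖rt N a - (-b.1)‖ < 3 * b.2)).card : ℝ) := by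
            exact_mod_cast Finset.card_union_le _ _
          linarith
  rw [Finset.sum_add_distrib, ← Finset.mul_sum, Finset.sum_const, nsmul_eq_mul] at h1
  have h2 : ((Finset.univ \ J).card : ℝ) = N - J.card := by
    rw [Finset.card_sdiff_of_subset (Finset.subset_univ J), Finset.card_univ, ZMod.card]
    rw [Nat.cast_sub]
    have := Finset.card_le_univ J
    rwa [ZMod.card] at this
  rw [h2] at h1
  have hNr : (34 : ℝ) * V.card ≤ N := by exact_mod_cast hN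
  have hN0 : (0 : ℝ) ≤ N := Nat.cast_nonneg _
  have h3 : (7 * N : ℝ) ≤ 8 * J.card := by
    nlinarith
  exact_mod_cast h3

/-- positions in a cluster are close to the centre of the cluster -/
theorem pos_close (N : ℕ) [NeZero N] (j : ZMod N) (t : ℕ) (ht : t < 4) :
    ‖rt N j * Complex.exp (((2 * Real.pi * t / (4 * N) : ℝ) : ℂ) * Complex.I)‖ = 1 ∧
    ‖rt N j * Complex.exp (((2 * Real.pi * t / (4 * N) : ℝ) : ℂ) * Complex.I) - rt N j‖
      ≤ (24 / 5) / N := by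
  have hN : (0 : ℝ) < N := by
    have := NeZero.pos N
    exact_mod_cast this
  constructor
  · rw [norm_mul, norm_rt, Complex.norm_exp_ofReal_mul_I, mul_one]
  · have h1 : rt N j * Complex.exp (((2 * Real.pi * t / (4 * N) : ℝ) : ℂ) * Complex.I) - rt N j =
      rt N j * (Complex.exp (Complex.I * ((2 * Real.pi * t / (4 * N) : ℝ) : ℂ)) - 1) := by
      rw [mul_comm Complex.I]; ring
    rw [h1, norm_mul, norm_rt, one_mul]
    refine (Real.norm_exp_I_mul_ofReal_sub_one_le).trans ?_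
    rw [Real.norm_eq_abs, abs_of_nonneg (by positivity)]
    have ht3 : (t : ℝ) ≤ 3 := by exact_mod_cast (by omega : t ≤ 3)
    have hpi := Real.pi_lt_d2
    have hpi0 := Real.pi_pos
    rw [div_le_div_iff₀ (by positivity) hN]
    have : 2 * Real.pi * t ≤ 96 / 5 := by nlinarith
    nlinarith

/-- the positions are separated -/
theorem pos_sep (N : ℕ) [NeZero N] (j j' : ZMod N) (t t' : ℕ) (ht : t < 4) (ht' : t' < 4)
    (hne : j ≠ j' ∨ t ≠ t') :
    1 / N ≤ ‖rt N j * Complex.exp (((2 * Real.pi * t / (4 * N) : ℝ) : ℂ) * Complex.I)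
      - rt N j' * Complex.exp (((2 * Real.pi * t' / (4 * N) : ℝ) : ℂ) * Complex.I)‖ := by
  have hNpos : 0 < N := NeZero.pos N
  have hN : (0 : ℝ) < N := by exact_mod_cast hNpos
  have hrt : ∀ (j : ZMod N) (t : ℕ),
      rt N j * Complex.exp (((2 * Real.pi * t / (4 * N) : ℝ) : ℂ) * Complex.I) =
      Complex.exp (((2 * Real.pi * (4 * j.val + t : ℕ) / (4 * N) : ℝ) : ℂ) * Complex.I) := by
    intro j t
    have h1 : rt N j = rt N ((j.val : ℕ) : ZMod N) := by rw [ZMod.natCast_zmod_val]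
    rw [h1, rt_natCast, ← Complex.exp_add, ← add_mul, ← Complex.ofReal_add]
    congr 3
    push_cast
    field_simp
  rw [hrt, hrt]
  -- general separation
  have key : ∀ A B : ℕ, A < 4 * N → B < A → 1 / (N : ℝ) ≤
      ‖Complex.exp (((2 * Real.pi * (A : ℕ) / (4 * N) : ℝ) : ℂ) * Complex.I)
      - Complex.exp (((2 * Real.pi * (B : ℕ) / (4 * N) : ℝ) : ℂ) * Complex.I)‖ := by
    intro A B hA hAB
    set d : ℕ := A - B with hd
    have hAd : (A : ℝ) = B + d := by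
      rw [hd, Nat.cast_sub hAB.le]; ring
    have e1 : Complex.exp (((2 * Real.pi * (A : ℕ) / (4 * N) : ℝ) : ℂ) * Complex.I)
      - Complex.exp (((2 * Real.pi * (B : ℕ) / (4 * N) : ℝ) : ℂ) * Complex.I) =
      Complex.exp (((2 * Real.pi * (B : ℕ) / (4 * N) : ℝ) : ℂ) * Complex.I) *
      (Complex.exp (Complex.I * ((2 * Real.pi * (d : ℕ) / (4 * N) : ℝ) : ℂ)) - 1) := by
      have : ((2 * Real.pi * (A : ℕ) / (4 * N) : ℝ) : ℂ) * Complex.I =
        ((2 * Real.pi * (B : ℕ) / (4 * N) : ℝ) : ℂ) * Complex.I +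
        Complex.I * ((2 * Real.pi * (d : ℕ) / (4 * N) : ℝ) : ℂ) := by
        rw [mul_comm Complex.I, ← add_mul, ← Complex.ofReal_add]
        congr 2
        rw [hAd]; ring
      rw [this, Complex.exp_add]
      ring
    rw [e1, norm_mul, Complex.norm_exp_ofReal_mul_I, one_mul, Complex.norm_exp_I_mul_ofReal_sub_one]
    have hd1 : (1 : ℝ) ≤ d := by exact_mod_cast (by omega : 1 ≤ d)
    have hd2 : (d : ℝ) ≤ 4 * N - 1 := by
      have : d + 1 ≤ 4 * N := by omega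
      have : ((d + 1 : ℕ) : ℝ) ≤ ((4 * N : ℕ) : ℝ) := by exact_mod_cast this
      push_cast at this
      linarith
    have hpi := Real.pi_pos
    have e2 : 2 * Real.pi * (d : ℕ) / (4 * N) / 2 = Real.pi * (d / (4 * N)) := by
      field_simp
    rw [e2]
    have hsin : 1 / (2 * (N : ℝ)) ≤ Real.sin (Real.pi * (d / (4 * N))) := by
      rcases le_total ((d : ℝ) / (4 * N)) (1 / 2) with h | h
      · have h1 := Real.mul_le_sin (x := Real.pi * (d / (4 * N))) (by positivity) (by nlinarith)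
        have h2 : 2 / Real.pi * (Real.pi * (d / (4 * N))) = 2 * (d / (4 * N)) := by
          field_simp
        rw [h2] at h1
        refine le_trans ?_ h1
        rw [← mul_div_assoc, div_le_div_iff₀ (by positivity) (by positivity)]
        nlinarith
      · have h0 : (d : ℝ) / (4 * N) ≤ 1 - 1 / (4 * N) := by
          rw [le_sub_iff_add_le, ← add_div, div_le_one (by positivity)]
          linarith
        have h1 := Real.mul_le_sin (x := Real.pi - Real.pi * (d / (4 * N))) (by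
          have : 0 ≤ 1 - (d : ℝ) / (4 * N) := by
            have : 0 < 1 / (4 * (N : ℝ)) := by positivity
            linarith
          nlinarith) (by nlinarith)
        rw [Real.sin_pi_sub] at h1
        have h2 : 2 / Real.pi * (Real.pi - Real.pi * (d / (4 * N))) = 2 * (1 - d / (4 * N)) := by
          field_simp
        rw [h2] at h1
        refine le_trans ?_ h1
        have h3 : 1 / (4 * (N : ℝ)) ≤ 1 - d / (4 * N) := by linarith
        have h4 : 1 / (2 * (N : ℝ)) = 2 * (1 / (4 * (N : ℝ))) := by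
          field_simp; norm_num
        rw [h4]
        linarith
    have h5 : 0 < 1 / (2 * (N : ℝ)) := by positivity
    rw [Real.norm_eq_abs, abs_of_nonneg (by linarith)]
    have h6 : 1 / (N : ℝ) = 2 * (1 / (2 * (N : ℝ))) := by field_simp
    rw [h6]
    linarith
  have hA : 4 * j.val + t < 4 * N := by
    have := ZMod.val_lt j
    omega
  have hB : 4 * j'.val + t' < 4 * N := by
    have := ZMod.val_lt j'
    omega
  have hAB : 4 * j.val + t ≠ 4 * j'.val + t' := by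
    intro h
    have h1 : t = t' := by omega
    have h2 : j.val = j'.val := by omega
    have h3 : j = j' := ZMod.val_injective N h2
    rcases hne with h4 | h4
    · exact h4 h3
    · exact h4 h1
  rcases lt_or_gt_of_ne hAB with h | h
  · rw [norm_sub_rev]
    exact key _ _ hB h
  · exact key _ _ hA h

theorem rt_inj (N : ℕ) [NeZero N] (a b : ZMod N) (h : rt N a = rt N b) : a = b := by
  apply ZMod.injective_toCircle
  exact Subtype.ext h

/-- vertices of the path followed by a chain of a block: `b0` is the starting value, then the ray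
`ι, 2ι, …, Xι`, then `10Λι`, `(10Λ+sΛ)ι`, `(10Λ+sΛ+iy)ι` and finally `(10Λ+iy-sθ)ι` -/
noncomputable def vert (X : ℕ) (Λ y θ s : ℝ) (ι b0 : ℂ) (l : ℕ) : ℂ :=
  if l = 0 then b0 else if l ≤ X then ι * (l : ℂ)
  else if l = X + 1 then ι * ((10 * Λ : ℝ) : ℂ)
  else if l = X + 2 then ι * ((10 * Λ + s * Λ : ℝ) : ℂ)
  else if l = X + 3 then ι * (((10 * Λ + s * Λ : ℝ) : ℂ) + (y : ℂ) * I)
  else ι * (((10 * Λ - s * θ : ℝ) : ℂ) + (y : ℂ) * I)

/-- the place number `y` of the family `ι` -/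
noncomputable def plc (Λ y : ℝ) (ι : ℂ) : ℂ := ι * (((10 * Λ : ℝ) : ℂ) + (y : ℂ) * I)

section VertLemmas
variable {X : ℕ} {Λ y θ s : ℝ} {ι b0 : ℂ}

theorem vert_zero : vert X Λ y θ s ι b0 0 = b0 := by simp [vert]

theorem vert_ray {l : ℕ} (h1 : 1 ≤ l) (h2 : l ≤ X) : vert X Λ y θ s ι b0 l = ι * (l : ℂ) := by
  unfold vert
  rw [if_neg (by omega), if_pos h2]

theorem vert_x1 : vert X Λ y θ s ι b0 (X + 1) = ι * ((10 * Λ : ℝ) : ℂ) := by
  unfold vert
  rw [if_neg (by omega), if_neg (by omega), if_pos rfl]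

theorem vert_x2 : vert X Λ y θ s ι b0 (X + 2) = ι * ((10 * Λ + s * Λ : ℝ) : ℂ) := by
  unfold vert
  rw [if_neg (by omega), if_neg (by omega), if_neg (by omega), if_pos rfl]

theorem vert_x3 : vert X Λ y θ s ι b0 (X + 3) = ι * (((10 * Λ + s * Λ : ℝ) : ℂ) + (y : ℂ) * I) := by
  unfold vert
  rw [if_neg (by omega), if_neg (by omega), if_neg (by omega), if_neg (by omega), if_pos rfl]

theorem vert_x4 : vert X Λ y θ s ι b0 (X + 4) = ι * (((10 * Λ - s * θ : ℝ) : ℂ) + (y : ℂ) * I) := by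
  unfold vert
  rw [if_neg (by omega), if_neg (by omega), if_neg (by omega), if_neg (by omega), if_neg (by omega)]

theorem norm_iota (hι : ι = 1 ∨ ι = I) : ‖ι‖ = 1 := by
  rcases hι with rfl | rfl <;> simp

theorem norm_iota_mul (hι : ι = 1 ∨ ι = I) (z : ℂ) : ‖ι * z‖ = ‖z‖ := by
  rw [norm_mul, norm_iota hι, one_mul]

theorem len_ray (hι : ι = 1 ∨ ι = I) {l : ℕ} (h1 : 1 ≤ l) (h2 : l + 1 ≤ X) :
    ‖vert X Λ y θ s ι b0 (l + 1) - vert X Λ y θ s ι b0 l‖ = 1 := by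
  rw [vert_ray (by omega) h2, vert_ray h1 (by omega), ← mul_sub, norm_iota_mul hι]
  push_cast
  rw [add_sub_cancel_left, norm_one]

theorem len_zero (hX : 1 ≤ X) (hι : ι = 1 ∨ ι = I) (hb : ‖b0‖ ≤ 1 / 2) :
    ‖vert X Λ y θ s ι b0 (0 + 1) - vert X Λ y θ s ι b0 0‖ ≤ 3 / 2 := by
  rw [vert_ray (by omega) hX, vert_zero]
  refine (norm_sub_le _ _).trans ?_
  rw [norm_iota_mul hι]
  simp only [zero_add, Nat.cast_one, norm_one]
  linarith

theorem len_x (hX : 1 ≤ X) (hι : ι = 1 ∨ ι = I) (hΛ : (X : ℝ) + 100 ≤ Λ) :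
    ‖vert X Λ y θ s ι b0 (X + 1) - vert X Λ y θ s ι b0 X‖ = 10 * Λ - X := by
  have hX0 : (0 : ℝ) ≤ X := Nat.cast_nonneg X
  rw [vert_x1, vert_ray hX le_rfl, ← mul_sub, norm_iota_mul hι]
  rw [show ((10 * Λ : ℝ) : ℂ) - (X : ℂ) = ((10 * Λ - X : ℝ) : ℂ) by push_cast; ring,
    Complex.norm_real, Real.norm_eq_abs, abs_of_nonneg (by linarith)]

theorem len_x1 (hι : ι = 1 ∨ ι = I) (hs : s = 1 ∨ s = -1) (hΛ0 : 0 < Λ) :
    ‖vert X Λ y θ s ι b0 (X + 1 + 1) - vert X Λ y θ s ι b0 (X + 1)‖ = Λ := by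
  rw [show X + 1 + 1 = X + 2 from rfl, vert_x2, vert_x1, ← mul_sub, norm_iota_mul hι]
  rw [show ((10 * Λ + s * Λ : ℝ) : ℂ) - ((10 * Λ : ℝ) : ℂ) = ((s * Λ : ℝ) : ℂ) by push_cast; ring,
    Complex.norm_real, Real.norm_eq_abs]
  rcases hs with rfl | rfl
  · rw [one_mul, abs_of_pos hΛ0]
  · rw [neg_one_mul, abs_neg, abs_of_pos hΛ0]

theorem len_x2 (hι : ι = 1 ∨ ι = I) (hy : 0 < y) :
    ‖vert X Λ y θ s ι b0 (X + 2 + 1) - vert X Λ y θ s ι b0 (X + 2)‖ = y := by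
  rw [show X + 2 + 1 = X + 3 from rfl, vert_x3, vert_x2, ← mul_sub, norm_iota_mul hι]
  rw [add_sub_cancel_left, norm_mul, Complex.norm_I, mul_one, Complex.norm_real, Real.norm_eq_abs,
    abs_of_pos hy]

theorem len_x3 (hι : ι = 1 ∨ ι = I) (hs : s = 1 ∨ s = -1) (hΛ0 : 0 < Λ) (hθ : 0 < θ) :
    ‖vert X Λ y θ s ι b0 (X + 3 + 1) - vert X Λ y θ s ι b0 (X + 3)‖ = Λ + θ := by
  rw [show X + 3 + 1 = X + 4 from rfl, vert_x4, vert_x3, ← mul_sub, norm_iota_mul hι]
  rw [show (((10 * Λ - s * θ : ℝ) : ℂ) + (y : ℂ) * I) - (((10 * Λ + s * Λ : ℝ) : ℂ) + (y : ℂ) * I) =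
    ((-(s * (Λ + θ)) : ℝ) : ℂ) by push_cast; ring,
    Complex.norm_real, Real.norm_eq_abs, abs_neg]
  rcases hs with rfl | rfl
  · rw [one_mul, abs_of_pos (by linarith)]
  · rw [neg_one_mul, abs_neg, abs_of_pos (by linarith)]

end VertLemmas

/-- total length of the path -/
theorem vert_len (X : ℕ) (hX : 1 ≤ X) (Λ y θ s : ℝ) (ι b0 : ℂ) (hι : ι = 1 ∨ ι = I)
    (hs : s = 1 ∨ s = -1) (hb : ‖b0‖ ≤ 1 / 2) (hΛ : (X : ℝ) + 100 ≤ Λ) (hy : 0 < y) (hyΛ : y ≤ Λ)
    (hθ : 0 < θ) (hθ1 : θ ≤ 1) :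
    ∑ l ∈ Finset.range (X + 4), ‖vert X Λ y θ s ι b0 (l + 1) - vert X Λ y θ s ι b0 l‖
      ≤ 20 * Λ := by
  have hX0 : (0 : ℝ) ≤ X := Nat.cast_nonneg X
  have hΛ0 : 0 < Λ := by linarith
  rw [Finset.sum_range_succ, Finset.sum_range_succ, Finset.sum_range_succ, Finset.sum_range_succ,
    len_x3 hι hs hΛ0 hθ, len_x2 hι hy, len_x1 hι hs hΛ0, len_x hX hι hΛ]
  have h1 : ∑ l ∈ Finset.range X, ‖vert X Λ y θ s ι b0 (l + 1) - vert X Λ y θ s ι b0 l‖ ≤ X + 1 / 2 := by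
    obtain ⟨Y, rfl⟩ : ∃ Y, X = Y + 1 := ⟨X - 1, by omega⟩
    rw [Finset.sum_range_succ']
    have h2 := len_zero (Λ := Λ) (y := y) (θ := θ) (s := s) hX hι hb
    have h3 : ∑ k ∈ Finset.range Y, ‖vert (Y + 1) Λ y θ s ι b0 (k + 1 + 1) - vert (Y + 1) Λ y θ s ι b0 (k + 1)‖ = Y := by
      rw [Finset.sum_congr rfl fun k hk => len_ray hι (by omega) (by
        have := Finset.mem_range.mp hk; omega)]
      simp
    rw [h3]
    push_cast
    linarith
  linarith

theorem far_of {p w mid : ℂ} {R r ε : ℝ} (hw : ‖w - mid‖ ≤ r + ε) (h : R + 1 / 2 + r + ε ≤ ‖mid - p‖) :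
    R + 1 / 2 ≤ ‖w - p‖ := by
  have h1 : ‖mid - p‖ ≤ ‖w - mid‖ + ‖w - p‖ := by
    have : mid - p = (w - p) - (w - mid) := by ring
    rw [this]
    have := norm_sub_le (w - p) (w - mid)
    linarith
  linarith

theorem far_axis {ι : ℂ} (hι : ι = 1 ∨ ι = I) (t : ℝ) (p : ℂ) {c : ℝ} (h1 : c ≤ |p.re|) (h2 : c ≤ |p.im|) :
    c ≤ ‖ι * (t : ℂ) - p‖ := by
  rcases hι with rfl | rfl
  · refine h2.trans ?_
    have := Complex.abs_im_le_norm (1 * (t : ℂ) - p)
    simpa using this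
  · refine h1.trans ?_
    have := Complex.abs_re_le_norm (I * (t : ℂ) - p)
    simpa using this

theorem norm_ge_re {ι : ℂ} (hι : ι = 1 ∨ ι = I) (a b : ℝ) : a ≤ ‖ι * ((a : ℂ) + (b : ℂ) * I)‖ := by
  rw [norm_iota_mul hι]
  have := Complex.re_le_norm ((a : ℂ) + (b : ℂ) * I)
  simpa using this

/-- old places are avoided -/
theorem vert_old (X : ℕ) (hX : 1 ≤ X) (Λ y θ s : ℝ) (ι b0 : ℂ) (hι : ι = 1 ∨ ι = I)
    (hs : s = 1 ∨ s = -1) (hb : ‖b0‖ ≤ 1 / 2) (hΛ : (X : ℝ) + 100 ≤ Λ) (hy : 0 < y) (hyΛ : y ≤ Λ)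
    (hθ : 0 < θ) (hθ1 : θ ≤ 1) (ε : ℝ) (hε : 0 < ε) (hε1 : ε ≤ 1 / 100)
    (p : ℂ) (R : ℝ) (hR : 0 < R) (h1 : R + 3 ≤ |p.re|) (h2 : R + 3 ≤ |p.im|)
    (hpX : ‖p‖ + R + 5 ≤ X) (l : ℕ) (hl : l < X + 4) (w : ℂ)
    (hw : ‖w - (vert X Λ y θ s ι b0 l + vert X Λ y θ s ι b0 (l + 1)) / 2‖
      ≤ ‖vert X Λ y θ s ι b0 (l + 1) - vert X Λ y θ s ι b0 l‖ / 2 + ε) :
    R + 1 / 2 ≤ ‖w - p‖ := by
  have hX0 : (0 : ℝ) ≤ X := Nat.cast_nonneg X
  have hΛ0 : 0 < Λ := by linarith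
  have hsle : ∀ x : ℝ, 0 ≤ x → -x ≤ s * x := by
    intro x hx
    rcases hs with rfl | rfl <;> linarith
  have hsle' : ∀ x : ℝ, 0 ≤ x → s * x ≤ x := by
    intro x hx
    rcases hs with rfl | rfl <;> linarith
  have hp0 : 0 ≤ ‖p‖ := norm_nonneg p
  refine far_of hw ?_
  rcases Nat.eq_zero_or_pos l with h0 | h0
  · subst h0
    have e1 := len_zero (Λ := Λ) (y := y) (θ := θ) (s := s) hX hι hb
    rw [vert_zero, zero_add, vert_ray le_rfl hX] at e1 ⊢
    have e2 : ‖(b0 + ι * ((1 : ℕ) : ℂ)) / 2‖ ≤ 3 / 4 := by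
      rw [norm_div, Complex.norm_ofNat]
      have := norm_add_le b0 (ι * ((1 : ℕ) : ℂ))
      rw [norm_iota_mul hι, Nat.cast_one, norm_one] at this
      rw [div_le_iff₀ (by norm_num), Nat.cast_one]
      linarith
    have e3 : |p.re| ≤ ‖p‖ := Complex.abs_re_le_norm p
    have e4 : ‖p‖ ≤ ‖(b0 + ι * ((1 : ℕ) : ℂ)) / 2 - p‖ + ‖(b0 + ι * ((1 : ℕ) : ℂ)) / 2‖ := by
      have := norm_sub_le ((b0 + ι * ((1 : ℕ) : ℂ)) / 2) ((b0 + ι * ((1 : ℕ) : ℂ)) / 2 - p)
      rw [sub_sub_cancel] at this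
      linarith
    linarith
  rcases lt_trichotomy l X with h3 | h3 | h3
  · rw [len_ray hι h0 (by omega), vert_ray h0 (by omega), vert_ray (by omega) (by omega)]
    have e1 : (ι * (l : ℂ) + ι * ((l + 1 : ℕ) : ℂ)) / 2 = ι * (((l : ℝ) + 1 / 2 : ℝ) : ℂ) := by
      push_cast; ring
    rw [e1]
    have := far_axis hι ((l : ℝ) + 1 / 2) p h1 h2
    linarith
  · subst h3
    rw [len_x hX hι hΛ, vert_x1, vert_ray hX le_rfl]
    have e1 : (ι * (l : ℂ) + ι * ((10 * Λ : ℝ) : ℂ)) / 2 = ι * ((((l : ℝ) + 10 * Λ) / 2 : ℝ) : ℂ) := by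
      push_cast; ring
    rw [e1]
    have e2 : ‖ι * ((((l : ℝ) + 10 * Λ) / 2 : ℝ) : ℂ)‖ = ((l : ℝ) + 10 * Λ) / 2 := by
      rw [norm_iota_mul hι, Complex.norm_real, Real.norm_eq_abs, abs_of_nonneg (by linarith)]
    have e3 := norm_sub_norm_le (ι * ((((l : ℝ) + 10 * Λ) / 2 : ℝ) : ℂ)) p
    rw [e2] at e3
    linarith
  · have hcases : l = X + 1 ∨ l = X + 2 ∨ l = X + 3 := by omega
    rcases hcases with rfl | rfl | rfl
    · rw [len_x1 hι hs hΛ0, show X + 1 + 1 = X + 2 from rfl, vert_x1, vert_x2]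
      have e1 : (ι * ((10 * Λ : ℝ) : ℂ) + ι * ((10 * Λ + s * Λ : ℝ) : ℂ)) / 2 =
          ι * (((10 * Λ + s * Λ / 2 : ℝ) : ℂ) + ((0 : ℝ) : ℂ) * I) := by
        push_cast; ring
      rw [e1]
      have e2 := norm_ge_re hι (10 * Λ + s * Λ / 2) 0
      have e3 := norm_sub_norm_le (ι * (((10 * Λ + s * Λ / 2 : ℝ) : ℂ) + ((0 : ℝ) : ℂ) * I)) p
      have e4 := hsle Λ hΛ0.le
      linarith
    · rw [len_x2 hι hy, show X + 2 + 1 = X + 3 from rfl, vert_x2, vert_x3]
      have e1 : (ι * ((10 * Λ + s * Λ : ℝ) : ℂ) + ι * (((10 * Λ + s * Λ : ℝ) : ℂ) + (y : ℂ) * I)) / 2 =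
          ι * (((10 * Λ + s * Λ : ℝ) : ℂ) + ((y / 2 : ℝ) : ℂ) * I) := by
        push_cast; ring
      rw [e1]
      have e2 := norm_ge_re hι (10 * Λ + s * Λ) (y / 2)
      have e3 := norm_sub_norm_le (ι * (((10 * Λ + s * Λ : ℝ) : ℂ) + ((y / 2 : ℝ) : ℂ) * I)) p
      have e4 := hsle Λ hΛ0.le
      linarith
    · rw [len_x3 hι hs hΛ0 hθ, show X + 3 + 1 = X + 4 from rfl, vert_x3, vert_x4]
      have e1 : (ι * (((10 * Λ + s * Λ : ℝ) : ℂ) + (y : ℂ) * I) +
          ι * (((10 * Λ - s * θ : ℝ) : ℂ) + (y : ℂ) * I)) / 2 =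
          ι * (((10 * Λ + s * Λ / 2 - s * θ / 2 : ℝ) : ℂ) + (y : ℂ) * I) := by
        push_cast; ring
      rw [e1]
      have e2 := norm_ge_re hι (10 * Λ + s * Λ / 2 - s * θ / 2) y
      have e3 := norm_sub_norm_le (ι * (((10 * Λ + s * Λ / 2 - s * θ / 2 : ℝ) : ℂ) + (y : ℂ) * I)) p
      have e4 := hsle Λ hΛ0.le
      have e5 := hsle' θ hθ.le
      linarith

/-- the new places are away from the axes -/
theorem plc_axes (Λ y R : ℝ) (ι : ℂ) (hι : ι = 1 ∨ ι = I) (h1 : R + 3 ≤ y) (h2 : R + 3 ≤ Λ)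
    (hR : 0 < R) : R + 3 ≤ |(plc Λ y ι).re| ∧ R + 3 ≤ |(plc Λ y ι).im| := by
  unfold plc
  rcases hι with rfl | rfl
  · simp only [one_mul, Complex.add_re, Complex.add_im, Complex.ofReal_re, Complex.ofReal_im,
      Complex.mul_re, Complex.mul_im, Complex.I_re, Complex.I_im]
    constructor
    · rw [abs_of_pos (by linarith)]; linarith
    · rw [abs_of_pos (by linarith)]; linarith
  · simp only [Complex.add_re, Complex.add_im, Complex.ofReal_re, Complex.ofReal_im,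
      Complex.mul_re, Complex.mul_im, Complex.I_re, Complex.I_im]
    constructor
    · rw [abs_of_neg (by linarith)]; linarith
    · rw [abs_of_pos (by linarith)]; linarith

/-- the new places are separated -/
theorem plc_sep (Λ y y' R : ℝ) (ι ι' : ℂ) (hι : ι = 1 ∨ ι = I) (hι' : ι' = 1 ∨ ι' = I)
    (hR : 0 < R) (hy : 0 < y) (hy' : 0 < y') (hΛ : 2 * R + 4 ≤ Λ)
    (hne : ι ≠ ι' ∨ 2 * R + 4 ≤ |y - y'|) : R + R + 4 ≤ ‖plc Λ y ι - plc Λ y' ι'‖ := by
  have key : ∀ u v : ℝ, 0 < u → 0 < v → 2 * R + 4 ≤ ‖plc Λ u 1 - plc Λ v I‖ := by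
    intro u v hu hv
    refine le_trans ?_ (Complex.re_le_norm _)
    simp only [plc, one_mul, Complex.sub_re, Complex.add_re, Complex.add_im, Complex.ofReal_re, Complex.ofReal_im,
      Complex.mul_re, Complex.mul_im, Complex.I_re, Complex.I_im]
    linarith
  by_cases h : ι = ι'
  · subst h
    have h1 : 2 * R + 4 ≤ |y - y'| := by
      rcases hne with h2 | h2
      · exact absurd rfl h2
      · exact h2
    have h2 : plc Λ y ι - plc Λ y' ι = ι * (((y - y' : ℝ) : ℂ) * I) := by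
      unfold plc; push_cast; ring
    rw [h2, norm_iota_mul hι, norm_mul, Complex.norm_I, mul_one, Complex.norm_real, Real.norm_eq_abs]
    linarith
  · rcases hι with rfl | rfl <;> rcases hι' with rfl | rfl
    · exact absurd rfl h
    · have := key y y' hy hy'; linarith
    · rw [norm_sub_rev]; have := key y' y hy' hy; linarith
    · exact absurd rfl h

/-- the new places are far away -/
theorem plc_norm (Λ y : ℝ) (ι : ℂ) (hι : ι = 1 ∨ ι = I) (hΛ : 0 < Λ) :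
    10 * Λ ≤ ‖plc Λ y ι‖ := norm_ge_re hι (10 * Λ) y

section b590

lemma le_norm_of_sq' {z : ℂ} {a : ℝ} (h : a ^ 2 ≤ z.re ^ 2 + z.im ^ 2) : a ≤ ‖z‖ := by
  have h1 : ‖z‖ ^ 2 = z.re ^ 2 + z.im ^ 2 := by
    rw [← Complex.normSq_eq_norm_sq, Complex.normSq_apply]; ring
  have h2 : a ^ 2 ≤ ‖z‖ ^ 2 := by rw [h1]; exact h
  exact le_trans (le_abs_self a) (abs_le_of_sq_le_sq h2 (norm_nonneg z))

variable (X : ℕ) (Λ y θ s : ℝ) (ι b0 : ℂ)

lemma vertb_zero : vert X Λ y θ s ι b0 0 = b0 := by simp [vert]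

lemma vertb_mid {l : ℕ} (h1 : 1 ≤ l) (h2 : l ≤ X) : vert X Λ y θ s ι b0 l = ι * (l : ℂ) := by
  unfold vert
  rw [if_neg (by omega), if_pos h2]

lemma vertb_1 : vert X Λ y θ s ι b0 (X + 1) = ι * ((10 * Λ : ℝ) : ℂ) := by
  unfold vert
  rw [if_neg (by omega), if_neg (by omega), if_pos rfl]

lemma vertb_2 : vert X Λ y θ s ι b0 (X + 2) = ι * ((10 * Λ + s * Λ : ℝ) : ℂ) := by
  unfold vert
  rw [if_neg (by omega), if_neg (by omega), if_neg (by omega), if_pos rfl]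

lemma vertb_3 : vert X Λ y θ s ι b0 (X + 3) =
    ι * (((10 * Λ + s * Λ : ℝ) : ℂ) + (y : ℂ) * I) := by
  unfold vert
  rw [if_neg (by omega), if_neg (by omega), if_neg (by omega), if_neg (by omega), if_pos rfl]

lemma vertb_4 : vert X Λ y θ s ι b0 (X + 4) =
    ι * (((10 * Λ - s * θ : ℝ) : ℂ) + (y : ℂ) * I) := by
  unfold vert
  rw [if_neg (by omega), if_neg (by omega), if_neg (by omega), if_neg (by omega),
    if_neg (by omega)]

lemma vertb_rot (c : ℂ) (hc : ι * c = 1) (l : ℕ) : vert X Λ y θ s ι b0 l =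
    ι * vert X Λ y θ s 1 (c * b0) l := by
  unfold vert
  split_ifs
  · rw [← mul_assoc, hc, one_mul]
  all_goals ring

end b590

set_option maxHeartbeats 1000000 in
theorem vert_core (X : ℕ) (hX : 1 ≤ X) (Λ y θ s : ℝ) (b0 : ℂ)
    (hs : s = 1 ∨ s = -1) (hb : ‖b0‖ ≤ 1 / 2) (R sp : ℝ) (hR : 0 < R)
    (hΛ : (X : ℝ) + 100 * (R + 2) ≤ Λ) (hsp : 100 * (R + 2) ^ 2 * Λ ≤ sp ^ 2) (hsp0 : 0 < sp)
    (hy : sp ≤ y) (hyΛ : y ≤ Λ)
    (hθ : 0 < θ) (hθ1 : θ ≤ 1) (y' : ℝ) (hy' : sp ≤ y') (hyΛ' : y' ≤ Λ)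
    (l : ℕ) (hl : l < X + 4) (p : ℂ)
    (hp : |p.im| = 10 * Λ ∨ (p.re = 10 * Λ ∧ p.im = y' ∧ (sp ≤ |y' - y| ∨ l < X + 3))) :
    ‖vert X Λ y θ s 1 b0 (l + 1) - vert X Λ y θ s 1 b0 l‖ / 2 + (R + 1)
      ≤ ‖(vert X Λ y θ s 1 b0 l + vert X Λ y θ s 1 b0 (l + 1)) / 2 - p‖ := by
  have hX0 : (1 : ℝ) ≤ X := by exact_mod_cast hX
  have hΛ1 : 200 < Λ := by nlinarith
  have hΛR : R + 2 ≤ Λ / 100 := by nlinarith
  have hR1 : 1 ≤ R + 2 := by linarith
  have hss : s ^ 2 = 1 := by rcases hs with h | h <;> rw [h] <;> norm_num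
  have hsabs : |s| = 1 := by rcases hs with h | h <;> rw [h] <;> norm_num
  have hbre : |b0.re| ≤ 1 / 2 := (Complex.abs_re_le_norm b0).trans hb
  have hbim : |b0.im| ≤ 1 / 2 := (Complex.abs_im_le_norm b0).trans hb
  obtain ⟨hbre1, hbre2⟩ := abs_le.mp hbre
  obtain ⟨hbim1, hbim2⟩ := abs_le.mp hbim
  -- values for the squares
  have hsp2 : sp ^ 2 ≤ y' ^ 2 := by nlinarith
  have hbig : (10 * Λ + 1) * (R + 1) + (R + 1) ^ 2 + 2 * Λ ≤ sp ^ 2 := by
    have h1 : (R + 1) ≤ (R + 2) := by linarith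
    have h2 : (R + 2) ≤ (R + 2) ^ 2 := by nlinarith
    have h3 : (R + 2) ^ 2 * 1 ≤ (R + 2) ^ 2 * Λ := by
      apply mul_le_mul_of_nonneg_left _ (by positivity); linarith
    have h4 : (R + 2) * Λ ≤ (R + 2) ^ 2 * Λ := mul_le_mul_of_nonneg_right h2 (by linarith)
    nlinarith
  have key : ∀ (a b : ℂ) (r : ℝ), ‖b - a‖ ≤ 2 * r → r + (R + 1) ≤ ‖(a + b) / 2 - p‖ →
      ‖b - a‖ / 2 + (R + 1) ≤ ‖(a + b) / 2 - p‖ := by
    intro a b r h1 h2
    linarith
  have him : ∀ (z : ℂ) (r : ℝ), |z.im| ≤ Λ → r + (R + 1) ≤ 9 * Λ → |p.im| = 10 * Λ →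
      r + (R + 1) ≤ ‖z - p‖ := by
    intro z r h1 h2 h3
    have h4 := Complex.abs_im_le_norm (z - p)
    have h5 : |p.im| ≤ |z.im| + |(z - p).im| := by
      have : p.im = z.im - (z - p).im := by simp
      rw [this]
      exact abs_sub _ _
    linarith
  have hre : ∀ (z : ℂ) (r : ℝ), |z.re| ≤ X → r + (R + 1) ≤ 10 * Λ - X → p.re = 10 * Λ →
      r + (R + 1) ≤ ‖z - p‖ := by
    intro z r h1 h2 h3
    have h4 := Complex.abs_re_le_norm (z - p)
    have h5 : |p.re| ≤ |z.re| + |(z - p).re| := by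
      have : p.re = z.re - (z - p).re := by simp
      rw [this]
      exact abs_sub _ _
    rw [h3, abs_of_pos (by linarith : (0:ℝ) < 10 * Λ)] at h5
    linarith
  rcases Nat.eq_zero_or_pos l with h0 | hlpos
  · -- l = 0
    subst h0
    rw [vertb_zero, show (0 : ℕ) + 1 = 1 from rfl, vertb_mid X Λ y θ s 1 b0 le_rfl hX]
    refine key _ _ 1 ?_ ?_
    · calc ‖(1 : ℂ) * ((1 : ℕ) : ℂ) - b0‖ ≤ ‖(1 : ℂ) * ((1 : ℕ) : ℂ)‖ + ‖b0‖ := norm_sub_le _ _
        _ ≤ 2 * 1 := by simp; linarith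
    · rcases hp with hp | ⟨hp, _, _⟩
      · refine him _ _ ?_ (by linarith) hp
        simp
        rw [abs_le]; constructor <;> linarith
      · refine hre _ _ ?_ (by linarith) hp
        simp
        rw [abs_le]; constructor <;> linarith
  · rcases lt_or_ge l X with hlX | hlX
    · -- corridor
      have hlX' : (l : ℝ) + 1 ≤ X := by exact_mod_cast hlX
      have hl0 : (0 : ℝ) ≤ l := by positivity
      rw [vertb_mid X Λ y θ s 1 b0 hlpos hlX.le, vertb_mid X Λ y θ s 1 b0 (by omega) hlX]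
      refine key _ _ 1 ?_ ?_
      · simp
      · rcases hp with hp | ⟨hp, _, _⟩
        · refine him _ _ ?_ (by linarith) hp
          simp; linarith
        · refine hre _ _ ?_ (by linarith) hp
          simp
          rw [abs_le]; constructor <;> linarith
    · obtain rfl | rfl | rfl | rfl : l = X ∨ l = X + 1 ∨ l = X + 2 ∨ l = X + 3 := by omega
      · -- hub
        rw [vertb_mid _ Λ y θ s 1 b0 hX le_rfl, vertb_1]
        have hz : ((1 : ℂ) * ((10 * Λ : ℝ) : ℂ) - 1 * (l : ℂ)) = ((10 * Λ - l : ℝ) : ℂ) := by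
          push_cast; ring
        refine key _ _ ((10 * Λ - l) / 2) ?_ ?_
        · rw [hz, Complex.norm_real, Real.norm_eq_abs, abs_of_pos (by linarith)]
          linarith
        · rcases hp with hp | ⟨hp, hp2, _⟩
          · refine him _ _ ?_ (by linarith) hp
            simp; linarith
          · apply le_norm_of_sq'
            have e1 : (((1 : ℂ) * (l : ℂ) + 1 * ((10 * Λ : ℝ) : ℂ)) / 2 - p).re =
                -((10 * Λ - l) / 2) := by
              simp [hp]; ring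
            have e2 : (((1 : ℂ) * (l : ℂ) + 1 * ((10 * Λ : ℝ) : ℂ)) / 2 - p).im = - y' := by
              simp [hp2]
            rw [e1, e2]
            have h9 : ((10 * Λ - l) / 2 + (R + 1)) ^ 2 = (-((10 * Λ - l) / 2)) ^ 2 +
              10 * (Λ * (R + 1)) - l * (R + 1) + (R + 1) ^ 2 := by ring
            have h10 : 0 ≤ l * (R + 1) := mul_nonneg (by linarith) (by linarith)
            have h14 : (10 * Λ + 1) * (R + 1) = 10 * (Λ * (R + 1)) + (R + 1) := by ring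
            rw [h9, neg_sq y']
            linarith
      · rw [show X + 1 + 1 = X + 2 from rfl, vertb_1, vertb_2]
        have hz : ((1 : ℂ) * ((10 * Λ + s * Λ : ℝ) : ℂ) - 1 * ((10 * Λ : ℝ) : ℂ)) =
            ((s * Λ : ℝ) : ℂ) := by
          push_cast; ring
        refine key _ _ (Λ / 2) ?_ ?_
        · rw [hz, Complex.norm_real, Real.norm_eq_abs, abs_mul, hsabs, abs_of_pos (by linarith)]
          linarith
        · rcases hp with hp | ⟨hp, hp2, _⟩
          · refine him _ _ ?_ (by linarith) hp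
            simp; linarith
          · apply le_norm_of_sq'
            have e1 : (((1 : ℂ) * ((10 * Λ : ℝ) : ℂ) + 1 * ((10 * Λ + s * Λ : ℝ) : ℂ)) / 2 -
                p).re = s * Λ / 2 := by
              simp [hp]; ring
            have e2 : (((1 : ℂ) * ((10 * Λ : ℝ) : ℂ) + 1 * ((10 * Λ + s * Λ : ℝ) : ℂ)) / 2 -
                p).im = - y' := by
              simp [hp2]
            rw [e1, e2]
            have e3 : (s * Λ / 2) ^ 2 = Λ ^ 2 / 4 := by rw [div_pow, mul_pow, hss]; ring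
            rw [e3]
            have h9 : (Λ / 2 + (R + 1)) ^ 2 = Λ ^ 2 / 4 + Λ * (R + 1) + (R + 1) ^ 2 := by ring
            have h10 : 0 ≤ Λ * (R + 1) := mul_nonneg (by linarith) (by linarith)
            have h14 : (10 * Λ + 1) * (R + 1) = 10 * (Λ * (R + 1)) + (R + 1) := by ring
            rw [h9, neg_sq y']
            linarith
      · rw [show X + 2 + 1 = X + 3 from rfl, vertb_2, vertb_3]
        have hz : ((1 : ℂ) * (((10 * Λ + s * Λ : ℝ) : ℂ) + (y : ℂ) * I) -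
            1 * ((10 * Λ + s * Λ : ℝ) : ℂ)) = (y : ℂ) * I := by
          ring
        refine key _ _ (y / 2) ?_ ?_
        · rw [hz, norm_mul, Complex.norm_I, Complex.norm_real, Real.norm_eq_abs,
            abs_of_pos (by linarith)]
          linarith
        · rcases hp with hp | ⟨hp, hp2, _⟩
          · refine him _ _ ?_ (by linarith) hp
            simp
            rw [abs_le]; constructor <;> linarith
          · apply le_norm_of_sq'
            have e1 : (((1 : ℂ) * ((10 * Λ + s * Λ : ℝ) : ℂ) +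
                1 * (((10 * Λ + s * Λ : ℝ) : ℂ) + (y : ℂ) * I)) / 2 - p).re = s * Λ := by
              simp [hp]
            rw [e1]
            have e3 : (s * Λ) ^ 2 = Λ ^ 2 := by rw [mul_pow, hss]; ring
            rw [e3]
            have h7 : y / 2 + (R + 1) ≤ Λ := by linarith
            have h8 : 0 ≤ y / 2 + (R + 1) := by linarith
            have h9 := pow_le_pow_left₀ h8 h7 2
            refine h9.trans (le_add_of_nonneg_right (sq_nonneg _))
      · rw [show X + 3 + 1 = X + 4 from rfl, vertb_3, vertb_4]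
        have hz : ((1 : ℂ) * (((10 * Λ - s * θ : ℝ) : ℂ) + (y : ℂ) * I) -
            1 * (((10 * Λ + s * Λ : ℝ) : ℂ) + (y : ℂ) * I)) = ((-(s * (θ + Λ)) : ℝ) : ℂ) := by
          push_cast; ring
        refine key _ _ ((θ + Λ) / 2) ?_ ?_
        · rw [hz, Complex.norm_real, Real.norm_eq_abs, abs_neg, abs_mul, hsabs,
            abs_of_pos (by linarith)]
          linarith
        · rcases hp with hp | ⟨hp, hp2, hp3⟩
          · refine him _ _ ?_ (by linarith) hp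
            simp
            rw [abs_le]; constructor <;> linarith
          · have hp4 : sp ≤ |y' - y| := by
              rcases hp3 with h | h
              · exact h
              · omega
            apply le_norm_of_sq'
            have e1 : (((1 : ℂ) * (((10 * Λ + s * Λ : ℝ) : ℂ) + (y : ℂ) * I) +
                1 * (((10 * Λ - s * θ : ℝ) : ℂ) + (y : ℂ) * I)) / 2 - p).re =
                s * ((Λ - θ) / 2) := by
              simp [hp]; ring
            have e2 : (((1 : ℂ) * (((10 * Λ + s * Λ : ℝ) : ℂ) + (y : ℂ) * I) +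
                1 * (((10 * Λ - s * θ : ℝ) : ℂ) + (y : ℂ) * I)) / 2 - p).im =
                -(y' - y) := by
              simp [hp2]
            rw [e1, e2, mul_pow, hss, neg_sq]
            have h9 : sp ^ 2 ≤ (y' - y) ^ 2 := by
              rw [← sq_abs (y' - y)]
              nlinarith
            have h10 : Λ * θ ≤ Λ * 1 := mul_le_mul_of_nonneg_left hθ1 (by linarith)
            have h11 : θ * (R + 1) ≤ 1 * (R + 1) := mul_le_mul_of_nonneg_right hθ1 (by linarith)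
            have h12 : 0 ≤ Λ * (R + 1) := mul_nonneg (by linarith) (by linarith)
            have h13 : ((θ + Λ) / 2 + (R + 1)) ^ 2 = ((Λ - θ) / 2) ^ 2 + Λ * θ + θ * (R + 1) +
                Λ * (R + 1) + (R + 1) ^ 2 := by ring
            have h14 : (10 * Λ + 1) * (R + 1) = 10 * (Λ * (R + 1)) + (R + 1) := by ring
            rw [h13]
            linarith

/-- the other new places are avoided by all discs, the own place by all discs but the last -/
theorem vert_new (X : ℕ) (hX : 1 ≤ X) (Λ y θ s : ℝ) (ι b0 : ℂ) (hι : ι = 1 ∨ ι = I)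
    (hs : s = 1 ∨ s = -1) (hb : ‖b0‖ ≤ 1 / 2) (R sp : ℝ) (hR : 0 < R)
    (hΛ : (X : ℝ) + 100 * (R + 2) ≤ Λ) (hsp : 100 * (R + 2) ^ 2 * Λ ≤ sp ^ 2) (hsp0 : 0 < sp)
    (hy : sp ≤ y) (hyΛ : y ≤ Λ)
    (hθ : 0 < θ) (hθ1 : θ ≤ 1) (ε : ℝ) (hε : 0 < ε) (hε1 : ε ≤ 1 / 100)
    (ι' : ℂ) (hι' : ι' = 1 ∨ ι' = I) (y' : ℝ) (hy' : sp ≤ y') (hyΛ' : y' ≤ Λ)
    (l : ℕ) (hl : l < X + 4) (hne : ι' ≠ ι ∨ sp ≤ |y' - y| ∨ l < X + 3) (w : ℂ)
    (hw : ‖w - (vert X Λ y θ s ι b0 l + vert X Λ y θ s ι b0 (l + 1)) / 2‖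
      ≤ ‖vert X Λ y θ s ι b0 (l + 1) - vert X Λ y θ s ι b0 l‖ / 2 + ε) :
    R + 1 / 2 ≤ ‖w - plc Λ y' ι'‖ := by
  obtain ⟨c, hc, hcn⟩ : ∃ c : ℂ, ι * c = 1 ∧ ‖c‖ = 1 := by
    rcases hι with h | h
    · exact ⟨1, by rw [h, one_mul], by simp⟩
    · exact ⟨-I, by rw [h]; simp, by simp⟩
  have hιn : ‖ι‖ = 1 := by
    rcases hι with h | h <;> rw [h] <;> simp
  have hcι : c * ι = 1 := by rw [mul_comm]; exact hc
  have hv : ∀ j, vert X Λ y θ s ι b0 j = ι * vert X Λ y θ s 1 (c * b0) j :=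
    vertb_rot X Λ y θ s ι b0 c hc
  have hcore := vert_core X hX Λ y θ s (c * b0) hs (by rw [norm_mul, hcn, one_mul]; exact hb) R sp
    hR hΛ hsp hsp0 hy hyΛ hθ hθ1 y' hy' hyΛ' l hl (c * plc Λ y' ι') ?_
  · have e1 : ‖vert X Λ y θ s ι b0 (l + 1) - vert X Λ y θ s ι b0 l‖ =
        ‖vert X Λ y θ s 1 (c * b0) (l + 1) - vert X Λ y θ s 1 (c * b0) l‖ := by
      rw [hv, hv, ← mul_sub, norm_mul, hιn, one_mul]
    have e2 : ‖(vert X Λ y θ s ι b0 l + vert X Λ y θ s ι b0 (l + 1)) / 2 - plc Λ y' ι'‖ =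
        ‖(vert X Λ y θ s 1 (c * b0) l + vert X Λ y θ s 1 (c * b0) (l + 1)) / 2 -
          c * plc Λ y' ι'‖ := by
      have : (vert X Λ y θ s ι b0 l + vert X Λ y θ s ι b0 (l + 1)) / 2 - plc Λ y' ι' =
          ι * ((vert X Λ y θ s 1 (c * b0) l + vert X Λ y θ s 1 (c * b0) (l + 1)) / 2 -
          c * plc Λ y' ι') := by
        rw [hv, hv]
        linear_combination (- plc Λ y' ι') * (-hc)
      rw [this, norm_mul, hιn, one_mul]
    rw [e1] at hw
    have h3 : ‖(vert X Λ y θ s ι b0 l + vert X Λ y θ s ι b0 (l + 1)) / 2 - plc Λ y' ι'‖ ≤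
        ‖w - (vert X Λ y θ s ι b0 l + vert X Λ y θ s ι b0 (l + 1)) / 2‖ + ‖w - plc Λ y' ι'‖ := by
      have := norm_sub_le (w - plc Λ y' ι')
        (w - (vert X Λ y θ s ι b0 l + vert X Λ y θ s ι b0 (l + 1)) / 2)
      have e : (w - plc Λ y' ι') -
        (w - (vert X Λ y θ s ι b0 l + vert X Λ y θ s ι b0 (l + 1)) / 2) =
        (vert X Λ y θ s ι b0 l + vert X Λ y θ s ι b0 (l + 1)) / 2 - plc Λ y' ι' := by ring
      rw [e] at this
      linarith
    rw [e2] at h3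
    linarith
  · have hX0 : (1 : ℝ) ≤ X := by exact_mod_cast hX
    have hΛ1 : 0 < Λ := by nlinarith
    by_cases hii : ι' = ι
    · right
      have e : c * plc Λ y' ι' = ((10 * Λ : ℝ) : ℂ) + (y' : ℂ) * I := by
        unfold plc
        rw [hii, ← mul_assoc, hcι, one_mul]
      rw [e]
      refine ⟨by simp, by simp, ?_⟩
      rcases hne with h | h | h
      · exact absurd hii h
      · exact Or.inl h
      · exact Or.inr h
    · left
      rcases hι with h | h <;> rcases hι' with h' | h'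
      · exact absurd (h'.trans h.symm) hii
      · have hc1 : c = 1 := by rw [h, one_mul] at hc; exact hc
        rw [hc1, h']
        unfold plc
        simp
        exact hΛ1.le
      · have hc1 : c = -I := by
          have := hcι
          rw [h] at this
          have h5 : c * I * I = 1 * I := by rw [this]
          rw [mul_assoc, I_mul_I] at h5
          linear_combination -h5
        rw [hc1, h']
        unfold plc
        simp
        exact hΛ1.le
      · exact absurd (h'.trans h.symm) hii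

theorem vert3 (X : ℕ) (Λ y θ s : ℝ) (ι b0 : ℂ) : vert X Λ y θ s ι b0 (X + 3) =
    ι * (((10 * Λ + s * Λ : ℝ) : ℂ) + (y : ℂ) * I) := by
  unfold vert
  rw [if_neg (by omega), if_neg (by omega), if_neg (by omega), if_neg (by omega), if_pos rfl]

theorem vert4 (X : ℕ) (Λ y θ s : ℝ) (ι b0 : ℂ) : vert X Λ y θ s ι b0 (X + 4) =
    ι * (((10 * Λ - s * θ : ℝ) : ℂ) + (y : ℂ) * I) := by
  unfold vert
  rw [if_neg (by omega), if_neg (by omega), if_neg (by omega), if_neg (by omega),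
    if_neg (by omega)]

theorem iota_norm {ι : ℂ} (hι : ι = 1 ∨ ι = I) : ‖ι‖ = 1 := by
  rcases hι with rfl | rfl <;> simp

theorem iota_conj {ι : ℂ} (hι : ι = 1 ∨ ι = I) : ι * (starRingEnd ℂ) ι = 1 := by
  rcases hι with rfl | rfl <;> simp

theorem mid_norm (X : ℕ) (Λ y θ s : ℝ) (ι b0 w : ℂ) (hι : ι = 1 ∨ ι = I) :
    ‖w - (vert X Λ y θ s ι b0 (X + 3) + vert X Λ y θ s ι b0 (X + 4)) / 2‖ =
      ‖(starRingEnd ℂ) ι * (w - plc Λ y ι) - ((s * ((Λ - θ) / 2) : ℝ) : ℂ)‖ := by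
  have h1 : w - (vert X Λ y θ s ι b0 (X + 3) + vert X Λ y θ s ι b0 (X + 4)) / 2 =
      ι * ((starRingEnd ℂ) ι * (w - plc Λ y ι) - ((s * ((Λ - θ) / 2) : ℝ) : ℂ)) := by
    rw [mul_sub, ← mul_assoc, iota_conj hι, vert3, vert4, plc]
    push_cast
    ring
  rw [h1, norm_mul, iota_norm hι, one_mul]

theorem diff_norm (X : ℕ) (Λ y θ s : ℝ) (ι b0 : ℂ) (hι : ι = 1 ∨ ι = I)
    (hs : s = 1 ∨ s = -1) (h : 0 ≤ Λ + θ) :
    ‖vert X Λ y θ s ι b0 (X + 4) - vert X Λ y θ s ι b0 (X + 3)‖ = Λ + θ := by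
  have h1 : vert X Λ y θ s ι b0 (X + 4) - vert X Λ y θ s ι b0 (X + 3) =
      ι * ((-(s * (Λ + θ)) : ℝ) : ℂ) := by
    rw [vert3, vert4]
    push_cast
    ring
  rw [h1, norm_mul, iota_norm hι, one_mul, Complex.norm_real, Real.norm_eq_abs, abs_neg, abs_mul,
    abs_of_nonneg h]
  rcases hs with rfl | rfl <;> simp

theorem cover_aux {R Λ θ ε : ℝ} (hR : 0 < R) (hΛ : 100 * (R + 2) ≤ Λ) (hε : 0 < ε)
    (hε1 : ε ≤ 1 / 100) (hθ : 6 * ε + 2 * (R + 2) ^ 2 / Λ ≤ θ) (hθ1 : θ ≤ 1) {z : ℂ}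
    (hz : ‖z‖ ≤ R + 1) {s : ℝ} (hs : s = 1 ∨ s = -1) (hsz : 0 ≤ s * z.re) :
    ‖z - ((s * ((Λ - θ) / 2) : ℝ) : ℂ)‖ + 6 * ε < (Λ + θ) / 2 := by
  have hΛ0 : 0 < Λ := by linarith
  have h1 : ‖z - ((s * ((Λ - θ) / 2) : ℝ) : ℂ)‖ ^ 2 ≤ ((Λ - θ) / 2) ^ 2 + (R + 1) ^ 2 := by
    rw [Complex.sq_norm, Complex.normSq_apply]
    simp only [Complex.sub_re, Complex.ofReal_re, Complex.sub_im, Complex.ofReal_im, sub_zero]
    have h2 : z.re * z.re + z.im * z.im ≤ (R + 1) ^ 2 := by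
      rw [← Complex.normSq_apply, ← Complex.sq_norm]
      have := norm_nonneg z
      nlinarith
    have h3 : s * s = 1 := by rcases hs with rfl | rfl <;> norm_num
    have h4 : 0 ≤ (s * z.re) * (Λ - θ) := mul_nonneg hsz (by linarith)
    have h5 : (z.re - s * ((Λ - θ) / 2)) * (z.re - s * ((Λ - θ) / 2)) =
        z.re * z.re - (s * z.re) * (Λ - θ) + (s * s) * ((Λ - θ) / 2) ^ 2 := by ring
    rw [h5, h3]
    linarith
  have h6 : (R + 1) ^ 2 < (Λ - 6 * ε) * (θ - 6 * ε) := by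
    have h7 : 2 * (R + 2) ^ 2 / Λ ≤ θ - 6 * ε := by linarith
    have h8 : Λ / 2 ≤ Λ - 6 * ε := by linarith
    have h9 : (R + 2) ^ 2 = (Λ / 2) * (2 * (R + 2) ^ 2 / Λ) := by field_simp
    have h10 : (Λ / 2) * (2 * (R + 2) ^ 2 / Λ) ≤ (Λ - 6 * ε) * (θ - 6 * ε) :=
      mul_le_mul h8 h7 (by positivity) (by linarith)
    nlinarith
  have h11 : 0 < (Λ + θ) / 2 - 6 * ε := by
    have : 0 ≤ 2 * (R + 2) ^ 2 / Λ := by positivity
    linarith
  have h12 : ‖z - ((s * ((Λ - θ) / 2) : ℝ) : ℂ)‖ < (Λ + θ) / 2 - 6 * ε := by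
    apply lt_of_pow_lt_pow_left₀ 2 h11.le
    refine lt_of_le_of_lt h1 ?_
    have : ((Λ + θ) / 2 - 6 * ε) ^ 2 = ((Λ - θ) / 2) ^ 2 + (Λ - 6 * ε) * (θ - 6 * ε) := by ring
    rw [this]
    linarith
  linarith

/-- the last disc stays on its side of the own place -/
theorem vert_own (X : ℕ) (Λ y θ s : ℝ) (ι b0 : ℂ) (hι : ι = 1 ∨ ι = I)
    (hs : s = 1 ∨ s = -1) (hΛ : (X : ℝ) + 100 ≤ Λ)
    (hθ : 0 < θ) (hθ1 : θ ≤ 1) (ε : ℝ) (w : ℂ)
    (hw : ‖w - (vert X Λ y θ s ι b0 (X + 3) + vert X Λ y θ s ι b0 (X + 4)) / 2‖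
      ≤ ‖vert X Λ y θ s ι b0 (X + 4) - vert X Λ y θ s ι b0 (X + 3)‖ / 2 + ε) :
    -(θ + ε) ≤ s * ((starRingEnd ℂ) ι * (w - plc Λ y ι)).re := by
  have hX : (0 : ℝ) ≤ X := Nat.cast_nonneg X
  rw [mid_norm X Λ y θ s ι b0 w hι, diff_norm X Λ y θ s ι b0 hι hs (by linarith)] at hw
  have h1 := (Complex.abs_re_le_norm _).trans hw
  simp only [Complex.sub_re, Complex.ofReal_re] at h1
  have h2 := abs_le.1 h1
  rcases hs with rfl | rfl
  · linarith [h2.1]
  · linarith [h2.2]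

/-- the two last discs cover a neighbourhood of the own place -/
theorem vert_cover (X : ℕ) (Λ y θ : ℝ) (ι b0 b1 : ℂ) (hι : ι = 1 ∨ ι = I) (R : ℝ) (hR : 0 < R)
    (hΛ : (X : ℝ) + 100 * (R + 2) ≤ Λ) (ε : ℝ) (hε : 0 < ε) (hε1 : ε ≤ 1 / 100)
    (hθ : 6 * ε + 2 * (R + 2) ^ 2 / Λ ≤ θ) (hθ1 : θ ≤ 1) (w : ℂ)
    (hw : ‖w - plc Λ y ι‖ ≤ R + 1) :
    ‖w - (vert X Λ y θ (-1) ι b0 (X + 3) + vert X Λ y θ (-1) ι b0 (X + 4)) / 2‖ + 6 * ε
      < ‖vert X Λ y θ (-1) ι b0 (X + 4) - vert X Λ y θ (-1) ι b0 (X + 3)‖ / 2 ∨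
    ‖w - (vert X Λ y θ 1 ι b1 (X + 3) + vert X Λ y θ 1 ι b1 (X + 4)) / 2‖ + 6 * ε
      < ‖vert X Λ y θ 1 ι b1 (X + 4) - vert X Λ y θ 1 ι b1 (X + 3)‖ / 2 := by
  have hX : (0 : ℝ) ≤ X := Nat.cast_nonneg X
  have hΛ0 : 0 < Λ := by linarith
  have hθ0 : 0 ≤ 2 * (R + 2) ^ 2 / Λ := by positivity
  rw [mid_norm X Λ y θ (-1) ι b0 w hι, mid_norm X Λ y θ 1 ι b1 w hι,
    diff_norm X Λ y θ (-1) ι b0 hι (Or.inr rfl) (by linarith),
    diff_norm X Λ y θ 1 ι b1 hι (Or.inl rfl) (by linarith)]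
  have hz : ‖(starRingEnd ℂ) ι * (w - plc Λ y ι)‖ ≤ R + 1 := by
    rw [norm_mul, RCLike.norm_conj, iota_norm hι, one_mul]; exact hw
  rcases le_total ((starRingEnd ℂ) ι * (w - plc Λ y ι)).re 0 with h | h
  · left
    exact cover_aux hR (by linarith) hε hε1 hθ hθ1 hz (Or.inr rfl) (by linarith)
  · right
    exact cover_aux hR (by linarith) hε hε1 hθ hθ1 hz (Or.inl rfl) (by linarith)

theorem num_block_ev (K : ℝ) (k : ℕ) (c : ℝ) (hc : 0 < c) (δ : ℝ) (hδ : 0 < δ) :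
    ∀ᶠ n : ℕ in atTop, K * (n : ℝ) ^ k * Real.exp (-(c * (n : ℝ))) ≤ δ := by
  have h1 : Tendsto (fun n : ℕ => c * (n : ℝ)) atTop atTop :=
    Tendsto.const_mul_atTop hc tendsto_natCast_atTop_atTop
  have h2 := (Real.tendsto_pow_mul_exp_neg_atTop_nhds_zero k).comp h1
  have h3 := (h2.const_mul (K / c ^ k))
  rw [mul_zero] at h3
  have h4 := h3.eventually (ge_mem_nhds hδ)
  filter_upwards [h4] with n hn
  have e : K * (n : ℝ) ^ k * Real.exp (-(c * (n : ℝ))) =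
      K / c ^ k * ((fun x : ℝ => x ^ k * Real.exp (-x)) ∘ fun n : ℕ => c * (n : ℝ)) n := by
    simp only [Function.comp]
    rw [mul_pow]
    have : c ^ k ≠ 0 := pow_ne_zero _ hc.ne'
    field_simp
  rw [e]
  exact hn

theorem num_block (X : ℕ) (R L ε η B : ℝ) (hR : 0 < R) (hε : 0 < ε) (hη : 0 < η) :
    ∀ᶠ n : ℕ in atTop, ∀ N sp Λ q r C : ℝ, N = 4 * (n:ℝ) ^ 8 → sp = 100 * N * (R + 2) ^ 2 →
      Λ = N * sp → q = Real.exp (-(n:ℝ)) → r = η / N → C = (4 * N) * (20 * Λ) →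
      1 ≤ N ∧ B ≤ N ∧ B ≤ sp ∧ B ≤ Λ ∧ r * B ≤ 1 ∧ 0 < q ∧ q < 1 ∧ 0 < r ∧
      2 * q * C / r ^ 2 ≤ ε / 4 ∧ 2 * Real.sqrt q * C ≤ ε / 4 ∧ L * r ≤ ε / 4 ∧
      2 * (R + 2) ^ 2 / Λ ≤ ε ∧
      L + C / (2 * q ^ (X + 4)) + 1 ≤ Real.exp (((X + 5 : ℕ) : ℝ) * n) := by
  have hc0 : Tendsto (fun n : ℕ => (n : ℝ)) atTop atTop := tendsto_natCast_atTop_atTop
  have a1 := hc0.eventually (eventually_ge_atTop (1 : ℝ))
  have a2 := hc0.eventually (eventually_ge_atTop |B|)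
  have a3 := hc0.eventually (eventually_ge_atTop (η * |B|))
  have a4 := hc0.eventually (eventually_ge_atTop (4 * |L| * η / ε))
  have a5 := hc0.eventually (eventually_ge_atTop (1 / ε))
  have b1 := num_block_ev (16384000 * (R + 2) ^ 2 / η ^ 2) 40 1 one_pos (ε / 4) (by positivity)
  have b2 := num_block_ev (1024000 * (R + 2) ^ 2) 24 (1 / 2) (by norm_num) (ε / 4) (by positivity)
  have b3 := num_block_ev (256000 * (R + 2) ^ 2) 24 1 one_pos (1 / 2) (by norm_num)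
  have b4 := num_block_ev (|L| + 1) 0 1 one_pos (1 / 2) (by norm_num)
  filter_upwards [a1, a2, a3, a4, a5, b1, b2, b3, b4] with n a1 a2 a3 a4 a5 b1 b2 b3 b4
  intro N sp Λ q r C hN hsp hΛ hq hr hC
  have hn0 : (0 : ℝ) < n := by linarith
  have hnN : (n : ℝ) ≤ N := by
    rw [hN]
    have : (n : ℝ) ≤ (n : ℝ) ^ 8 := le_self_pow₀ a1 (by norm_num)
    nlinarith
  have hN1 : 1 ≤ N := le_trans a1 hnN
  have hNpos : 0 < N := by linarith
  have hR4 : 4 ≤ (R + 2) ^ 2 := by nlinarith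
  have hspN : N ≤ sp := by
    rw [hsp]
    nlinarith [mul_le_mul_of_nonneg_left hR4 hNpos.le]
  have hsppos : 0 < sp := by linarith
  have hΛsp : sp ≤ Λ := by
    rw [hΛ]
    nlinarith
  have hΛpos : 0 < Λ := by linarith
  have hBN : B ≤ N := le_trans (le_trans (le_abs_self B) a2) hnN
  have hqpos : 0 < q := by rw [hq]; exact Real.exp_pos _
  have hq1 : q < 1 := by
    rw [hq]
    rw [Real.exp_lt_one_iff]
    linarith
  have hrpos : 0 < r := by rw [hr]; positivity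
  have hCe : C = 512000 * (R + 2) ^ 2 * (n : ℝ) ^ 24 := by
    rw [hC, hΛ, hsp, hN]; ring
  have hCpos : 0 < C := by rw [hCe]; positivity
  refine ⟨hN1, hBN, le_trans hBN hspN, le_trans hBN (le_trans hspN hΛsp), ?_, hqpos, hq1, hrpos,
    ?_, ?_, ?_, ?_, ?_⟩
  · rw [hr, div_mul_eq_mul_div, div_le_one hNpos]
    calc η * B ≤ η * |B| := by gcongr; exact le_abs_self B
      _ ≤ n := a3
      _ ≤ N := hnN
  · have e : 2 * q * C / r ^ 2 =
        16384000 * (R + 2) ^ 2 / η ^ 2 * (n : ℝ) ^ 40 * Real.exp (-(1 * (n : ℝ))) := by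
      rw [hr, hq, hCe, hN, one_mul]
      have : (n : ℝ) ≠ 0 := hn0.ne'
      have : η ≠ 0 := hη.ne'
      field_simp
      ring
    rw [e]
    exact b1
  · have e : 2 * Real.sqrt q * C =
        1024000 * (R + 2) ^ 2 * (n : ℝ) ^ 24 * Real.exp (-(1 / 2 * (n : ℝ))) := by
      have e1 : Real.sqrt q = Real.exp (-(1 / 2 * (n : ℝ))) := by
        rw [hq, ← Real.exp_half]
        congr 1
        ring
      rw [e1, hCe]
      ring
    rw [e]
    exact b2
  · rw [hr, ← mul_div_assoc, div_le_iff₀ hNpos]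
    rw [div_le_iff₀ hε] at a4
    calc L * η ≤ |L| * η := by gcongr; exact le_abs_self L
      _ ≤ ε / 4 * n := by nlinarith
      _ ≤ ε / 4 * N := by gcongr
  · rw [div_le_iff₀ hΛpos]
    rw [div_le_iff₀ hε] at a5
    have h1 : 100 * (n : ℝ) * (R + 2) ^ 2 ≤ Λ := by
      calc 100 * (n : ℝ) * (R + 2) ^ 2 ≤ 100 * N * (R + 2) ^ 2 := by gcongr
        _ = sp := hsp.symm
        _ ≤ Λ := hΛsp
    have h2 : 1 * (R + 2) ^ 2 ≤ (n * ε) * (R + 2) ^ 2 := by gcongr
    nlinarith [mul_le_mul_of_nonneg_left h1 hε.le]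
  · have hqp : q ^ (X + 4) = Real.exp (-(((X + 4 : ℕ) : ℝ) * n)) := by
      rw [hq, ← Real.exp_nat_mul]
      congr 1
      ring
    have e : C / (2 * q ^ (X + 4)) = C / 2 * Real.exp (((X + 4 : ℕ) : ℝ) * n) := by
      rw [hqp, Real.exp_neg]
      have := (Real.exp_pos (((X + 4 : ℕ) : ℝ) * n)).ne'
      field_simp
    rw [e]
    have hE1 : 1 ≤ Real.exp (((X + 4 : ℕ) : ℝ) * n) := Real.one_le_exp (by positivity)
    have hsum : (|L| + 1 + C / 2) ≤ Real.exp n := by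
      have h1 : (|L| + 1 + C / 2) * Real.exp (-(n : ℝ)) ≤ 1 := by
        rw [hCe]
        rw [one_mul] at b3 b4
        rw [pow_zero, mul_one] at b4
        nlinarith
      have h2 := mul_le_mul_of_nonneg_right h1 (Real.exp_pos (n : ℝ)).le
      rw [mul_assoc, ← Real.exp_add, neg_add_cancel, Real.exp_zero, mul_one, one_mul] at h2
      exact h2
    have hexp : Real.exp (((X + 5 : ℕ) : ℝ) * n) =
        Real.exp n * Real.exp (((X + 4 : ℕ) : ℝ) * n) := by
      rw [← Real.exp_add]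
      congr 1
      push_cast
      ring
    rw [hexp]
    calc L + C / 2 * Real.exp (((X + 4 : ℕ) : ℝ) * n) + 1
        ≤ (|L| + 1) * 1 + C / 2 * Real.exp (((X + 4 : ℕ) : ℝ) * n) := by
          linarith [le_abs_self L]
      _ ≤ (|L| + 1) * Real.exp (((X + 4 : ℕ) : ℝ) * n) +
          C / 2 * Real.exp (((X + 4 : ℕ) : ℝ) * n) := by
          gcongr
      _ = (|L| + 1 + C / 2) * Real.exp (((X + 4 : ℕ) : ℝ) * n) := by ring
      _ ≤ Real.exp n * Real.exp (((X + 4 : ℕ) : ℝ) * n) := by gcongr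

theorem f601_positions (V : Finset (ℂ × ℝ)) (hV : ∀ b ∈ V, ‖b.1‖ = 1 ∧ 0 < b.2)
    (hs : ∑ b ∈ V, b.2 < 1 / 1000) (T : Finset ℂ) :
    ∃ Z : ℂ → ℂ, (∀ w ∈ T, ‖Z w‖ = 1) ∧ (∀ w ∈ T, ∀ b ∈ V, 3 * b.2 ≤ ‖Z w - b.1‖) ∧
      ∀ w ∈ T, ∀ w' ∈ T, w ≠ w' → Z w ≠ Z w' := by
  classical
  obtain ⟨N, hN1, hN2⟩ := ((free_pos V hV hs).and (eventually_ge_atTop (2 * T.card + 1))).exists
  have : NeZero N := ⟨by omega⟩
  obtain ⟨J, hJ⟩ : ∃ J : Finset (ZMod N), ∀ a : ZMod N, a ∈ J ↔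
      ∀ b ∈ V, 3 * b.2 ≤ ‖rt N a - b.1‖ ∧ 3 * b.2 ≤ ‖-rt N a - b.1‖ :=
    ⟨Finset.univ.filter (fun a => ∀ b ∈ V, 3 * b.2 ≤ ‖rt N a - b.1‖ ∧ 3 * b.2 ≤ ‖-rt N a - b.1‖),
      fun a => by simp⟩
  have hcard := hN1 ‹_› J hJ
  have hle : T.card ≤ J.card := by omega
  have hle' : Fintype.card T ≤ Fintype.card J := by simpa using hle
  obtain ⟨g⟩ := Function.Embedding.nonempty_of_card_le hle'
  refine ⟨fun w => if h : w ∈ T then rt N (g ⟨w, h⟩).1 else 0, ?_, ?_, ?_⟩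
  · intro w hw
    simp only [hw, dif_pos]
    exact norm_rt N _
  · intro w hw b hb
    simp only [hw, dif_pos]
    exact (((hJ _).1 (g ⟨w, hw⟩).2) b hb).1
  · intro w hw w' hw' hne h
    simp only [hw, hw', dif_pos] at h
    have h1 := rt_inj N _ _ h
    have h2 := g.injective (Subtype.ext h1)
    exact hne (by simpa using congrArg Subtype.val h2)

theorem f601_r (V : Finset (ℂ × ℝ)) (hV : ∀ b ∈ V, ‖b.1‖ = 1 ∧ 0 < b.2)
    (hs : ∑ b ∈ V, b.2 < 1 / 1000) (T : Finset ℂ) (Z : ℂ → ℂ) (hZ : ∀ w ∈ T, ‖Z w‖ = 1)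
    (hne : ∀ w ∈ T, ∀ w' ∈ T, w ≠ w' → Z w ≠ Z w') (F : ℂ → ℂ)
    (hF : AnalyticOnNhd ℂ F (closedBall 0 1)) (s : ℝ) (hs1 : s < 1) (δ : ℝ) (hδ : 0 < δ) :
    ∃ r : ℝ, 0 < r ∧ r ≤ 1 / 2 ∧ r < 1 - s ∧ (∀ b ∈ V, r ≤ b.2) ∧
      (∀ w ∈ T, ∀ w' ∈ T, w ≠ w' → 2 * r ≤ ‖Z w - Z w'‖) ∧
      (T.card : ℝ) * r + ∑ b ∈ V, b.2 < 1 / 1000 ∧
      (∀ w ∈ T, ∀ z ∈ closedBall (0:ℂ) 1, z ∈ ball (Z w) r → ‖F z - F (Z w)‖ ≤ δ) := by
  have h0 : ∀ᶠ r : ℝ in 𝓝[>] 0, 0 < r := eventually_mem_nhdsWithin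
  have hlt : ∀ x : ℝ, 0 < x → ∀ᶠ r : ℝ in 𝓝[>] 0, r < x := fun x hx =>
    mem_nhdsWithin_of_mem_nhds (Iio_mem_nhds hx)
  have h1 := hlt (1 / 2) (by norm_num)
  have h2 := hlt (1 - s) (by linarith)
  have h3 : ∀ᶠ r : ℝ in 𝓝[>] 0, ∀ b ∈ V, r ≤ b.2 := by
    rw [Finset.eventually_all]
    intro b hb
    exact (hlt b.2 (hV b hb).2).mono fun r hr => hr.le
  have h4 : ∀ᶠ r : ℝ in 𝓝[>] 0, ∀ w ∈ T, ∀ w' ∈ T, w ≠ w' → 2 * r ≤ ‖Z w - Z w'‖ := by
    rw [Finset.eventually_all]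
    intro w hw
    rw [Finset.eventually_all]
    intro w' hw'
    by_cases h : w = w'
    · exact Filter.Eventually.of_forall fun r hr => absurd h hr
    · have hpos : 0 < ‖Z w - Z w'‖ / 2 := by
        have := norm_pos_iff.2 (sub_ne_zero.2 (hne w hw w' hw' h))
        linarith
      exact (hlt _ hpos).mono fun r hr _ => by linarith
  have h5 : ∀ᶠ r : ℝ in 𝓝[>] 0, (T.card : ℝ) * r + ∑ b ∈ V, b.2 < 1 / 1000 := by
    have hc : (0:ℝ) ≤ T.card := Nat.cast_nonneg _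
    have hpos : 0 < (1 / 1000 - ∑ b ∈ V, b.2) / (T.card + 1) := by
      apply div_pos <;> linarith
    filter_upwards [h0, hlt _ hpos] with r hr0 hr
    rw [lt_div_iff₀ (by linarith)] at hr
    nlinarith
  have h6 : ∀ᶠ r : ℝ in 𝓝[>] 0, ∀ w ∈ T, ∀ z ∈ closedBall (0:ℂ) 1, z ∈ ball (Z w) r →
      ‖F z - F (Z w)‖ ≤ δ := by
    rw [Finset.eventually_all]
    intro w hw
    have hw1 : Z w ∈ closedBall (0:ℂ) 1 := by simp [hZ w hw]
    have hc := (hF (Z w) hw1).continuousAt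
    obtain ⟨ρ, hρ, h⟩ := Metric.continuousAt_iff.1 hc δ hδ
    filter_upwards [hlt ρ hρ] with r hr z hz hzr
    have := h (lt_trans (mem_ball.1 hzr) hr)
    rw [dist_eq_norm] at this
    exact this.le
  obtain ⟨r, a0, a1, a2, a3, a4, a5, a6⟩ :=
    (h0.and (h1.and (h2.and (h3.and (h4.and (h5.and h6)))))).exists
  exact ⟨r, a0, a1.le, a2, a3, a4, a5, a6⟩

theorem f601_q (C r δ : ℝ) (hδ : 0 < δ) :
    ∃ q : ℝ, 0 < q ∧ q < 1 ∧ 2 * q * C / r ^ 2 ≤ δ ∧ 2 * Real.sqrt q * C ≤ δ := by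
  have h0 : ∀ᶠ q : ℝ in 𝓝[>] 0, 0 < q := eventually_mem_nhdsWithin
  have h1 : ∀ᶠ q : ℝ in 𝓝[>] 0, q < 1 := mem_nhdsWithin_of_mem_nhds (Iio_mem_nhds one_pos)
  have h2 : ∀ᶠ q : ℝ in 𝓝[>] 0, 2 * q * C / r ^ 2 < δ := by
    have hc : Continuous fun q : ℝ => 2 * q * C / r ^ 2 := by fun_prop
    have := hc.tendsto 0
    simp only [mul_zero, zero_mul, zero_div] at this
    exact mem_nhdsWithin_of_mem_nhds (this (Iio_mem_nhds hδ))
  have h3 : ∀ᶠ q : ℝ in 𝓝[>] 0, 2 * Real.sqrt q * C < δ := by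
    have hc : Continuous fun q : ℝ => 2 * Real.sqrt q * C := by fun_prop
    have := hc.tendsto 0
    simp only [Real.sqrt_zero, mul_zero, zero_mul] at this
    exact mem_nhdsWithin_of_mem_nhds (this (Iio_mem_nhds hδ))
  obtain ⟨q, a0, a1, a2, a3⟩ := (h0.and (h1.and (h2.and h3))).exists
  exact ⟨q, a0, a1, a2.le, a3.le⟩

/-- vertices of the chain -/
noncomputable def f601_vv (x0 w : ℂ) (M : ℕ) (v : ℕ → ℂ) (n : ℕ) : ℂ :=
  if n = 0 then x0 else if n ≤ M + 1 then v (n - 1) else if n = M + 2 then w - 1 / 8 else w + 1 / 8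

theorem f601_vv_zero (x0 w : ℂ) (M : ℕ) (v : ℕ → ℂ) : f601_vv x0 w M v 0 = x0 := by
  simp [f601_vv]

theorem f601_vv_mid (x0 w : ℂ) (M : ℕ) (v : ℕ → ℂ) (l : ℕ) (hl : l ≤ M) :
    f601_vv x0 w M v (l + 1) = v l := by
  have : l + 1 ≤ M + 1 := by omega
  simp [f601_vv, this]

theorem f601_vv_a (x0 w : ℂ) (M : ℕ) (v : ℕ → ℂ) :
    f601_vv x0 w M v (M + 2) = w - 1 / 8 := by
  have h1 : ¬ (M + 2 = 0) := by omega
  have h2 : ¬ (M + 2 ≤ M + 1) := by omega
  rw [f601_vv, if_neg h1, if_neg h2, if_pos rfl]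

theorem f601_vv_b (x0 w : ℂ) (M : ℕ) (v : ℕ → ℂ) :
    f601_vv x0 w M v (M + 3) = w + 1 / 8 := by
  have h1 : ¬ (M + 3 = 0) := by omega
  have h2 : ¬ (M + 3 ≤ M + 1) := by omega
  have h3 : ¬ (M + 3 = M + 2) := by omega
  rw [f601_vv, if_neg h1, if_neg h2, if_neg h3]

/-- near the chain we are far from the places -/
theorem f601_avoid (x0 w : ℂ) (M : ℕ) (v : ℕ → ℂ) (hx0 : ‖x0‖ ≤ 1 / 2)
    (hv0 : v 0 = 0) (hvM : v M = w) (hstep : ∀ l < M, ‖v (l + 1) - v l‖ ≤ 1 / 8)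
    (c : ℂ) (R : ℝ) (hR : 0 < R) (hc : R + 3 ≤ ‖c‖) (hfar : ∀ l ≤ M, R + 1 ≤ ‖v l - c‖)
    (y : ℂ) (ε : ℝ) (hε : ε ≤ 1 / 16) (l : ℕ) (hl : l < M + 3)
    (hy : ‖y - (f601_vv x0 w M v l + f601_vv x0 w M v (l + 1)) / 2‖ ≤
      ‖f601_vv x0 w M v (l + 1) - f601_vv x0 w M v l‖ / 2 + ε) :
    R + 1 / 2 ≤ ‖y - c‖ := by
  rcases Nat.eq_zero_or_pos l with rfl | hlpos
  · rw [f601_vv_zero, f601_vv_mid x0 w M v 0 (Nat.zero_le _), hv0] at hy
    simp only [add_zero, zero_sub, norm_neg] at hy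
    have h1 : ‖y‖ ≤ ‖y - x0 / 2‖ + ‖x0 / 2‖ := by
      have := norm_add_le (y - x0 / 2) (x0 / 2)
      simpa using this
    have h2 : ‖x0 / 2‖ = ‖x0‖ / 2 := by simp
    have h3 : ‖c‖ ≤ ‖y‖ + ‖y - c‖ := by
      have := norm_sub_le y (y - c)
      simpa using this
    linarith
  · obtain ⟨j, rfl⟩ : ∃ j, l = j + 1 := ⟨l - 1, by omega⟩
    rcases lt_trichotomy j M with hj | hj | hj
    · rw [f601_vv_mid x0 w M v j hj.le, f601_vv_mid x0 w M v (j + 1) hj] at hy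
      have h1 := hstep j hj
      have h2 := hfar j hj.le
      have h3 : ‖v j - c‖ ≤ ‖y - c‖ + ‖y - (v j + v (j + 1)) / 2‖ + ‖v (j + 1) - v j‖ / 2 := by
        have e1 : v j - c = (y - c) - (y - (v j + v (j + 1)) / 2) - (v (j + 1) - v j) / 2 := by
          ring
        have e2 : ‖(v (j + 1) - v j) / 2‖ = ‖v (j + 1) - v j‖ / 2 := by simp
        rw [e1, ← e2]
        exact (norm_sub_le _ _).trans (by gcongr; exact norm_sub_le _ _)
      linarith
    · subst hj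
      rw [f601_vv_mid x0 w j v j le_rfl, f601_vv_a, hvM] at hy
      have h2 := hfar j le_rfl
      rw [hvM] at h2
      have e0 : w - 1 / 8 - w = -(1 / 8) := by ring
      have e00 : ‖(-(1 / 8) : ℂ)‖ = 1 / 8 := by rw [norm_neg]; norm_num
      rw [e0, e00] at hy
      have h3 : ‖w - c‖ ≤ ‖y - c‖ + ‖y - (w + (w - 1 / 8)) / 2‖ + 1 / 16 := by
        have e1 : w - c = (y - c) - (y - (w + (w - 1 / 8)) / 2) - (-(1/16)) := by
          ring
        have e2 : ‖(-(1/16) : ℂ)‖ = 1 / 16 := by rw [norm_neg]; norm_num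
        rw [e1, ← e2]
        exact (norm_sub_le _ _).trans (by gcongr; exact norm_sub_le _ _)
      linarith
    · have hj' : j = M + 1 := by omega
      subst hj'
      rw [show M + 1 + 1 = M + 2 from rfl, show M + 2 + 1 = M + 3 from rfl, f601_vv_a,
        f601_vv_b] at hy
      have h2 := hfar M le_rfl
      rw [hvM] at h2
      have e0 : w + 1 / 8 - (w - 1 / 8) = 1 / 4 := by ring
      have e00 : ‖((1 / 4) : ℂ)‖ = 1 / 4 := by norm_num
      have e3 : (w - 1 / 8 + (w + 1 / 8)) / 2 = w := by ring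
      rw [e0, e00, e3] at hy
      have h3 : ‖w - c‖ ≤ ‖y - c‖ + ‖y - w‖ := by
        have e1 : w - c = (y - c) - (y - w) := by ring
        rw [e1]
        exact norm_sub_le _ _
      linarith

/-- filler stage -/
theorem filler (S : St) (hI : Inv S) (k : ℝ) (hk : 1 ≤ k) :
    ∃ S', Inv S' ∧ Step S S' ∧ ∀ f, Near S' f → closedBall 0 k ⊆ f '' ball 0 1 := by
  classical
  have hspos := hI.spos
  have hepos := hI.epos
  have hele := hI.ele
  set K0 : Set ℂ := closedBall 0 k \ ⋃ t ∈ S.P, ball t.1 (t.2.1 + 1) with hK0def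
  have hPn : ∀ t ∈ S.P, t.2.1 + 3 ≤ ‖t.1‖ := fun t ht =>
    ((hI.Pax t ht).2.1).trans (Complex.abs_re_le_norm _)
  have hK0 : IsCompact K0 :=
    (isCompact_closedBall (0:ℂ) k).diff (isOpen_biUnion fun t _ => isOpen_ball)
  obtain ⟨T, hT1, hT2⟩ := hK0.elim_nhds_subcover (fun x => ball x (1 / 16))
    (fun x _ => ball_mem_nhds x (by norm_num))
  have h0K : (0:ℂ) ∈ K0 := by
    refine ⟨by simp; linarith, ?_⟩
    simp only [mem_iUnion, not_exists]
    intro t ht hb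
    rw [mem_ball, dist_eq_norm, zero_sub, norm_neg] at hb
    linarith [hPn t ht]
  have hTne : T.Nonempty := by
    have := hT2 h0K
    simp only [mem_iUnion] at this
    obtain ⟨w, hw, _⟩ := this
    exact ⟨w, hw⟩
  have hKout : ∀ w ∈ K0, ∀ t ∈ S.P, t.2.1 + 1 ≤ ‖w - t.1‖ := by
    intro w hw t ht
    by_contra hcon
    apply hw.2
    simp only [mem_iUnion]
    exact ⟨t, ht, by rw [mem_ball, dist_eq_norm]; exact not_le.1 hcon⟩
  -- paths
  have hpath : ∀ w ∈ T, ∃ M₀ : ℕ, ∀ M ≥ M₀, ∃ v : ℕ → ℂ, v 0 = 0 ∧ v M = w ∧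
      (∀ l < M, ‖v (l + 1) - v l‖ ≤ 1 / 8) ∧ ∀ l ≤ M, ∀ t ∈ S.P, t.2.1 + 1 ≤ ‖v l - t.1‖ := by
    intro w hw
    obtain ⟨M₀, hM₀⟩ := path_lemma (hI.Pfin.toFinset.image (fun t => (t.1, t.2.1 + 1)))
      (by
        intro t ht
        simp only [Finset.mem_image, Set.Finite.mem_toFinset] at ht
        obtain ⟨t', ht', rfl⟩ := ht
        have := (hI.Pax t' ht').1
        simp only
        linarith)
      (by
        intro t ht u hu htu
        simp only [Finset.mem_image, Set.Finite.mem_toFinset] at ht hu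
        obtain ⟨t', ht', rfl⟩ := ht
        obtain ⟨u', hu', rfl⟩ := hu
        have hne : t' ≠ u' := by
          rintro rfl
          exact htu rfl
        have := hI.Psep t' ht' u' hu' hne
        simp only
        linarith)
      0 w
      (by
        intro t ht
        simp only [Finset.mem_image, Set.Finite.mem_toFinset] at ht
        obtain ⟨t', ht', rfl⟩ := ht
        have := hPn t' ht'
        simp only [zero_sub, norm_neg]
        linarith)
      (by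
        intro t ht
        simp only [Finset.mem_image, Set.Finite.mem_toFinset] at ht
        obtain ⟨t', ht', rfl⟩ := ht
        exact hKout w (hT1 w hw) t' ht')
      (1 / 8) (by norm_num)
    refine ⟨M₀, fun M hM => ?_⟩
    obtain ⟨v, h1, h2, h3, h4⟩ := hM₀ M hM
    refine ⟨v, h1, h2, h3, fun l hl t ht => ?_⟩
    exact h4 l hl (t.1, t.2.1 + 1) (Finset.mem_image.2 ⟨t, by simpa using ht, rfl⟩)
  choose! M0 hM0 using hpath
  obtain ⟨M, hM⟩ : ∃ M : ℕ, ∀ w ∈ T, M0 w ≤ M :=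
    ⟨T.sup M0, fun w hw => Finset.le_sup (f := M0) hw⟩
  have hpath2 : ∀ w ∈ T, ∃ v : ℕ → ℂ, v 0 = 0 ∧ v M = w ∧
      (∀ l < M, ‖v (l + 1) - v l‖ ≤ 1 / 8) ∧ ∀ l ≤ M, ∀ t ∈ S.P, t.2.1 + 1 ≤ ‖v l - t.1‖ :=
    fun w hw => hM0 w hw M (hM w hw)
  choose! v hv using hpath2
  obtain ⟨Z, hZ1, hZ2, hZ3⟩ := f601_positions S.V hI.Vunit hI.Vsum T
  obtain ⟨r, hr0, hr2, hrs, hrV, hrZ, hrsum, hrF⟩ := f601_r S.V hI.Vunit hI.Vsum T Z hZ1 hZ3
    S.F hI.an S.s hI.slt (S.e / 16 / 4) (by positivity)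
  set vv : ℂ → ℕ → ℂ := fun w => f601_vv (S.F (Z w)) w M (v w) with hvv
  obtain ⟨q, hq0, hq1, hqa, hqb⟩ := f601_q
    (∑ i ∈ T, ∑ l ∈ Finset.range (M + 3), ‖vv i (l + 1) - vv i l‖) r (S.e / 16 / 4)
    (by positivity)
  have hdisj : ∀ i ∈ T, ∀ j ∈ T, i ≠ j → Disjoint (ball (Z i) r) (ball (Z j) r) := by
    intro i hi j hj hij
    apply ball_disjoint_ball
    rw [dist_eq_norm]
    linarith [hrZ i hi j hj hij]
  obtain ⟨g1, g2, g3, g4, -⟩ := stage T S.F hI.an Z hZ1 r hr0 hr2 hdisj (M + 3) (by omega) vv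
    (fun i _ => by simp only [hvv]; exact f601_vv_zero _ _ _ _) q (S.e / 16) _ hq0 hq1
    (by positivity) le_rfl hqa hqb hrF
  set F' := addChains T S.F Z (M + 3) vv q with hF'
  have hcov : ∀ w ∈ T, closedBall w (1 / 16) ⊆ F' '' ball 0 1 := by
    intro w hw y hy
    apply g4 w hw y
    rw [show M + 3 - 1 = M + 2 by omega]
    simp only [hvv]
    rw [f601_vv_a, f601_vv_b]
    have e0 : w + 1 / 8 - (w - 1 / 8) = 1 / 4 := by ring
    have e00 : ‖((1 / 4) : ℂ)‖ = 1 / 4 := by norm_num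
    have e3 : (w - 1 / 8 + (w + 1 / 8)) / 2 = w := by ring
    rw [e0, e00, e3]
    rw [mem_closedBall, dist_eq_norm] at hy
    linarith
  have hKc : IsCompact (⋃ w ∈ T, closedBall w (1 / 16) : Set ℂ) :=
    T.isCompact_biUnion fun w _ => isCompact_closedBall w (1 / 16)
  have hKF : (⋃ w ∈ T, closedBall w (1 / 16) : Set ℂ) ⊆ F' '' ball 0 1 := by
    intro y hy
    simp only [mem_iUnion] at hy
    obtain ⟨w, hw, hy⟩ := hy
    exact hcov w hw hy
  have hnc : ¬ ∃ c, ∀ z ∈ ball (0:ℂ) 1, F' z = c := by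
    rintro ⟨c, hc⟩
    obtain ⟨w, hw⟩ := hTne
    obtain ⟨z1, hz1, e1⟩ := hcov w hw (mem_closedBall_self (by norm_num))
    obtain ⟨z2, hz2, e2⟩ := hcov w hw (show w + 1 / 16 ∈ closedBall w (1 / 16) by
      rw [mem_closedBall, dist_eq_norm]
      have : w + 1 / 16 - w = 1 / 16 := by ring
      rw [this]
      norm_num)
    rw [hc z1 hz1] at e1
    rw [hc z2 hz2, e1] at e2
    have : (1 / 16 : ℂ) = 0 := by linear_combination -e2
    norm_num at this
  obtain ⟨S', i1, i2, -, -, -, -, i7⟩ := inv_step S hI T Z hZ1 r hr0 hrs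
    (fun i hi b hb => by
      have h1 := hZ2 i hi b hb
      have h2 := hrV b hb
      have h3 := (hI.Vunit b hb).2
      linarith) hrsum F' g1
    (fun z hz hzi => by
      obtain ⟨a, b⟩ := g2 z hz hzi
      constructor <;> linarith)
    ∅ Set.finite_empty (by simp) (by simp) (by simp)
    (by
      intro t ht i hi z hz hzr
      obtain ⟨l, hl, hle⟩ := g3 i hi z (ball_subset_closedBall hz) hzr
      obtain ⟨a1, a2, a3, a4⟩ := hv i hi
      refine f601_avoid (S.F (Z i)) i M (v i) ?_ a1 a2 a3 t.1 t.2.1 (hI.Pax t ht).1 (hPn t ht)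
        (fun l hl => a4 l hl t ht) (F' z) (S.e / 16) (by linarith) l hl hle
      have := hI.small (Z i) (by simp [hZ1 i hi]) (by
        rintro ⟨b, hb, hzb⟩
        rw [mem_ball, dist_eq_norm] at hzb
        have h1 := hZ2 i hi b hb
        have h3 := (hI.Vunit b hb).2
        linarith)
      linarith)
    (by simp) (by simp) _ hKc hKF hnc 1 one_pos
  refine ⟨S', i1, i2, fun f hf y hy => ?_⟩
  by_cases hyP : ∃ t ∈ S.P, y ∈ ball t.1 (t.2.1 + 1)
  · obtain ⟨t, ht, hyt⟩ := hyP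
    exact hI.cover f (Step.near hI i2 hf) t ht (ball_subset_closedBall hyt)
  · have hyK0 : y ∈ K0 := by
      refine ⟨hy, ?_⟩
      simp only [mem_iUnion, not_exists]
      intro t ht hb
      exact hyP ⟨t, ht, hb⟩
    have := hT2 hyK0
    simp only [mem_iUnion] at this
    obtain ⟨w, hw, hyw⟩ := this
    apply i7 f hf
    simp only [mem_iUnion]
    exact ⟨w, hw, ball_subset_closedBall hyw⟩

/-- direction of a family -/
noncomputable def io (b : Bool) : ℂ := if b then I else 1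

/-- side of a chain -/
noncomputable def sg (b : Bool) : ℝ := if b then 1 else -1

/-- number of a chain inside its cluster -/
def tt (b c : Bool) : ℕ := (if b then 2 else 0) + (if c then 1 else 0)

/-- position of a chain -/
noncomputable def posn (N : ℕ) [NeZero N] (i : ZMod N × Bool × Bool) : ℂ :=
  rt N i.1 * Complex.exp (((2 * Real.pi * (tt i.2.1 i.2.2) / (4 * N) : ℝ) : ℂ) * Complex.I)

/-- antipode of a cluster -/
def hlf (N : ℕ) (a : ZMod N) : ZMod N := a + ((N / 2 : ℕ) : ZMod N)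

/-- place served by a chain -/
def pj (N : ℕ) (i : ZMod N × Bool × Bool) : ZMod N := if i.2.2 then hlf N i.1 else i.1

/-- height of a place -/
noncomputable def hgt (N : ℕ) (sp : ℝ) (a : ZMod N) : ℝ := ((a.val : ℝ) + 1) * sp

theorem io_or (b : Bool) : io b = 1 ∨ io b = I := by
  cases b <;> simp [io]

theorem io_inj (b c : Bool) (h : b ≠ c) : io b ≠ io c := by
  have h1 : (1:ℂ) ≠ I := by
    intro h; have := congrArg Complex.im h; simp at this
  cases b <;> cases c <;> simp [io] at h ⊢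
  · exact h1
  · exact h1.symm

theorem sg_or (b : Bool) : sg b = 1 ∨ sg b = -1 := by
  cases b <;> simp [sg]

theorem tt_lt (b c : Bool) : tt b c < 4 := by
  cases b <;> cases c <;> simp [tt]

theorem tt_inj (b c b' c' : Bool) (h : tt b c = tt b' c') : b = b' ∧ c = c' := by
  cases b <;> cases c <;> cases b' <;> cases c' <;> simp [tt] at h ⊢

theorem hlf_hlf (N : ℕ) [NeZero N] (hN : Even N) (a : ZMod N) : hlf N (hlf N a) = a := by
  unfold hlf
  have : (((N / 2 : ℕ) : ZMod N) + ((N / 2 : ℕ) : ZMod N)) = 0 := by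
    rw [← Nat.cast_add]
    obtain ⟨m, hm⟩ := hN
    have h2 : N / 2 + N / 2 = N := by omega
    rw [h2]; exact ZMod.natCast_self N
  rw [add_assoc, this, add_zero]

theorem hgt_le (N : ℕ) [NeZero N] (sp : ℝ) (hsp : 0 < sp) (a : ZMod N) :
    sp ≤ hgt N sp a ∧ hgt N sp a ≤ N * sp := by
  unfold hgt
  have h1 : (0:ℝ) ≤ (a.val : ℝ) := Nat.cast_nonneg _
  have h2 : a.val + 1 ≤ N := ZMod.val_lt a
  have h3 : ((a.val + 1 : ℕ) : ℝ) ≤ N := by exact_mod_cast h2
  push_cast at h3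
  constructor
  · nlinarith
  · nlinarith

theorem hgt_sep (N : ℕ) [NeZero N] (sp : ℝ) (hsp : 0 < sp) (a b : ZMod N) (h : a ≠ b) :
    sp ≤ |hgt N sp a - hgt N sp b| := by
  unfold hgt
  have h1 : a.val ≠ b.val := fun h' => h (ZMod.val_injective N h')
  have h2 : (1:ℝ) ≤ |(a.val : ℝ) - (b.val : ℝ)| := by
    rcases Nat.lt_or_gt_of_ne h1 with h3 | h3
    · have h4 : ((a.val + 1 : ℕ) : ℝ) ≤ (b.val : ℝ) := by exact_mod_cast h3
      push_cast at h4
      rw [abs_sub_comm]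
      exact le_trans (by linarith) (le_abs_self _)
    · have h4 : ((b.val + 1 : ℕ) : ℝ) ≤ (a.val : ℝ) := by exact_mod_cast h3
      push_cast at h4
      exact le_trans (by linarith) (le_abs_self _)
  have h3 : ((a.val : ℝ) + 1) * sp - ((b.val : ℝ) + 1) * sp = ((a.val : ℝ) - b.val) * sp := by ring
  rw [h3, abs_mul, abs_of_pos hsp]
  nlinarith

theorem posn_norm (N : ℕ) [NeZero N] (i : ZMod N × Bool × Bool) : ‖posn N i‖ = 1 :=
  (pos_close N i.1 (tt i.2.1 i.2.2) (tt_lt _ _)).1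

theorem posn_close (N : ℕ) [NeZero N] (i : ZMod N × Bool × Bool) :
    ‖posn N i - rt N i.1‖ ≤ (24 / 5) / N :=
  (pos_close N i.1 (tt i.2.1 i.2.2) (tt_lt _ _)).2

theorem posn_sep (N : ℕ) [NeZero N] (i j : ZMod N × Bool × Bool) (h : i ≠ j) :
    1 / N ≤ ‖posn N i - posn N j‖ := by
  apply pos_sep N i.1 j.1 _ _ (tt_lt _ _) (tt_lt _ _)
  by_contra h'
  push Not at h'
  obtain ⟨h1, h2⟩ := tt_inj _ _ _ _ h'.2
  apply h
  rcases i with ⟨i1, i2, i3⟩
  rcases j with ⟨j1, j2, j3⟩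
  simp_all

theorem block_core (S : St) (hI : Inv S) (R ε δ : ℝ) (X : ℕ) (N : ℕ) [NeZero N] (hNe : Even N)
    (J : Finset (ZMod N)) (hJfree : ∀ a ∈ J, ∀ b ∈ S.V, 3 * b.2 ≤ ‖rt N a - b.1‖)
    (hJs : ∀ a ∈ J, hlf N a ∈ J) (hJne : J.Nonempty) (sp Λ q r L B0 θ η : ℝ)
    (hR : 0 < R) (hε : 0 < ε) (hεe : ε ≤ S.e / 4) (hε1 : ε ≤ 1 / 100) (hX : 1 ≤ X)
    (hXP : ∀ t ∈ S.P, ‖t.1‖ + t.2.1 + 5 ≤ X)
    (hB0 : ∀ z ∈ closedBall (0:ℂ) 1, ‖S.F z‖ ≤ B0)
    (hL : ∀ z ∈ closedBall (0:ℂ) 1, ‖deriv S.F z‖ ≤ L)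
    (hη : 0 < η) (hη1 : η ≤ 1 / 8000) (hrη : r = η / N)
    (hVη : 4 * η + ∑ b ∈ S.V, b.2 < 1 / 1000) (hrs : r < 1 - S.s)
    (hNV : ∀ b ∈ S.V, 3 / N ≤ b.2)
    (hsp0 : 0 < sp) (hsp1 : 2 * R + 4 ≤ sp) (hΛ : Λ = N * sp)
    (hsp : 100 * (R + 2) ^ 2 * Λ ≤ sp ^ 2) (hΛX : (X : ℝ) + 100 * (R + 2) + B0 ≤ Λ)
    (hθ : θ = 6 * ε + 2 * (R + 2) ^ 2 / Λ) (hθε : 2 * (R + 2) ^ 2 / Λ ≤ ε)
    (hδ : 9 * ε ≤ δ / 8)
    (hq : 0 < q) (hq1 : q < 1) (C : ℝ) (hC : C = (4 * N) * (20 * Λ))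
    (h1 : 2 * q * C / r ^ 2 ≤ ε / 4) (h2 : 2 * Real.sqrt q * C ≤ ε / 4) (h3 : L * r ≤ ε / 4) :
    ∃ S' : St, Inv S' ∧ Step S S' ∧ ∀ f, Near S' f → ∀ j ∈ J, ∀ ι : ℂ, (ι = 1 ∨ ι = I) →
      ∃ p zA zB : ℂ, ball zA r ⊆ closedBall (rt N j) (5 / N) ∧
        ball zB r ⊆ closedBall (-rt N j) (5 / N) ∧
        Room f R r δ (L + C / (2 * q ^ (X + 4)) + 1) ι p zA zB := by
  classical
  have hNpos : (0:ℝ) < N := by exact_mod_cast Nat.pos_of_ne_zero (NeZero.ne N)
  have hN1 : (1:ℝ) ≤ N := by exact_mod_cast Nat.one_le_iff_ne_zero.mpr (NeZero.ne N)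
  have hr : 0 < r := by rw [hrη]; positivity
  have hr1 : r ≤ 1 / 2 := by
    rw [hrη, div_le_iff₀ hNpos]; nlinarith only [hη1, hN1]
  have hB00 : 0 ≤ B0 := (norm_nonneg _).trans (hB0 0 (by simp))
  have hL0 : 0 ≤ L := (norm_nonneg _).trans (hL 0 (by simp))
  have hX0 : (1:ℝ) ≤ X := by exact_mod_cast hX
  have hΛpos : 0 < Λ := by linarith only [hX0, hR, hB00, hΛX]
  have hθ0 : 0 < θ := by
    rw [hθ]
    have : 0 < 2 * (R + 2) ^ 2 / Λ := by positivity
    linarith only [this, hε]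
  have hθ7 : θ ≤ 7 * ε := by rw [hθ]; linarith only [hθε]
  have hθ1 : θ ≤ 1 := by linarith only [hθ7, hε1]
  have hΛ100 : (X : ℝ) + 100 ≤ Λ := by linarith only [hR, hB00, hΛX]
  have hΛR : (X : ℝ) + 100 * (R + 2) ≤ Λ := by linarith only [hB00, hΛX]
  -- chains
  set I' : Finset (ZMod N × Bool × Bool) := J ×ˢ (Finset.univ : Finset (Bool × Bool)) with hI'
  have hmemI : ∀ i, i ∈ I' ↔ i.1 ∈ J := by
    intro i; rw [hI', Finset.mem_product]; simp
  have hcardI : (I'.card : ℝ) ≤ 4 * N := by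
    have h4 : I'.card = J.card * 4 := by
      rw [hI', Finset.card_product]; rfl
    have h5 : J.card ≤ N := by
      calc J.card ≤ (Finset.univ : Finset (ZMod N)).card := Finset.card_le_univ _
        _ = N := by rw [Finset.card_univ, ZMod.card]
    rw [h4]
    have : ((J.card * 4 : ℕ) : ℝ) ≤ ((N * 4 : ℕ) : ℝ) := by exact_mod_cast Nat.mul_le_mul_right 4 h5
    push_cast at this ⊢
    linarith
  have hZfree : ∀ i ∈ I', ∀ b ∈ S.V, b.2 + r ≤ ‖posn N i - b.1‖ := by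
    intro i hi b hb
    have e1 := hJfree i.1 ((hmemI i).mp hi) b hb
    have e2 := posn_close N i
    have e3 := hNV b hb
    have e4 : ‖rt N i.1 - b.1‖ ≤ ‖posn N i - rt N i.1‖ + ‖posn N i - b.1‖ := by
      have : rt N i.1 - b.1 = -(posn N i - rt N i.1) + (posn N i - b.1) := by ring
      rw [this]
      refine (norm_add_le _ _).trans ?_
      rw [norm_neg]
    have e5 : r ≤ (1 / 8000) / N := by rw [hrη]; gcongr
    have e6 : (24 / 5) / (N:ℝ) = (24 / 5) * (1 / N) := by ring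
    have e7 : (1 / 8000) / (N:ℝ) = (1 / 8000) * (1 / N) := by ring
    have e8 : 3 / (N:ℝ) = 3 * (1 / N) := by ring
    rw [e6] at e2; rw [e7] at e5; rw [e8] at e3
    have e9 : 0 < 1 / (N:ℝ) := by positivity
    linarith only [e1, e2, e3, e4, e5, e9]
  have hZreg : ∀ i ∈ I', posn N i ∉ reg S.V := by
    rintro i hi ⟨b, hb, hz⟩
    rw [mem_ball, dist_eq_norm] at hz
    have := hZfree i hi b hb
    linarith only [this, hz, hr]
  have hb0 : ∀ i ∈ I', ‖S.F (posn N i)‖ ≤ 1 / 2 := by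
    intro i hi
    have := hI.small (posn N i) (by rw [mem_closedBall, dist_zero_right, posn_norm])
      (hZreg i hi)
    linarith only [this, hI.epos]
  set v : ZMod N × Bool × Bool → ℕ → ℂ := fun i l =>
    vert X Λ (hgt N sp (pj N i)) θ (sg i.2.2) (io i.2.1) (S.F (posn N i)) l with hv
  have hhgt : ∀ a : ZMod N, sp ≤ hgt N sp a ∧ hgt N sp a ≤ Λ := by
    intro a; rw [hΛ]; exact hgt_le N sp hsp0 a
  have hlen : ∑ i ∈ I', ∑ l ∈ Finset.range (X + 4), ‖v i (l + 1) - v i l‖ ≤ C := by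
    have e1 : ∀ i ∈ I', ∑ l ∈ Finset.range (X + 4), ‖v i (l + 1) - v i l‖ ≤ 20 * Λ := by
      intro i hi
      obtain ⟨e2, e3⟩ := hhgt (pj N i)
      exact vert_len X hX Λ _ θ _ _ _ (io_or _) (sg_or _) (hb0 i hi) hΛ100 (by linarith) e3 hθ0 hθ1
    calc _ ≤ ∑ i ∈ I', 20 * Λ := Finset.sum_le_sum e1
      _ = I'.card * (20 * Λ) := by rw [Finset.sum_const, nsmul_eq_mul]
      _ ≤ (4 * N) * (20 * Λ) := mul_le_mul_of_nonneg_right hcardI (by positivity)
      _ = C := hC.symm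
  have hLip : ∀ i ∈ I', ∀ z ∈ closedBall (0:ℂ) 1, z ∈ ball (posn N i) r →
      ‖S.F z - S.F (posn N i)‖ ≤ ε / 4 := by
    intro i hi z hz hz'
    have e1 := Convex.norm_image_sub_le_of_norm_deriv_le (𝕜 := ℂ) (f := S.F)
      (s := closedBall (0:ℂ) 1) (C := L) (x := posn N i) (y := z)
      (fun x hx => (hI.an x hx).differentiableAt) hL (convex_closedBall _ _)
      (by rw [mem_closedBall, dist_zero_right, posn_norm]) hz
    rw [mem_ball, dist_eq_norm] at hz'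
    calc ‖S.F z - S.F (posn N i)‖ ≤ L * ‖z - posn N i‖ := e1
      _ ≤ L * r := mul_le_mul_of_nonneg_left hz'.le hL0
      _ ≤ ε / 4 := h3
  have hdisj : ∀ i ∈ I', ∀ j ∈ I', i ≠ j → Disjoint (ball (posn N i) r) (ball (posn N j) r) := by
    intro i _ j _ hij
    apply ball_disjoint_ball
    rw [dist_eq_norm]
    have e1 := posn_sep N i j hij
    have e2 : r ≤ (1 / 8000) * (1 / N) := by
      rw [hrη, ← mul_one_div]; gcongr
    have e9 : 0 < 1 / (N:ℝ) := by positivity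
    linarith only [e1, e2, e9]
  obtain ⟨s1, s2, s3, s4, s5⟩ := stage I' S.F hI.an (posn N) (fun i _ => posn_norm N i) r hr hr1
    hdisj (X + 4) (by omega) v (fun i _ => by simp [hv, vert]) q ε C hq hq1 hε hlen h1 h2 hLip
  set F' : ℂ → ℂ := addChains I' S.F (posn N) (X + 4) v q with hF'
  -- the key estimate near a chain
  have hnew : ∀ i ∈ I', ∀ z ∈ ball (0:ℂ) 1, z ∈ ball (posn N i) r → ∀ (a : ZMod N) (b : Bool),
      (b ≠ i.2.1 ∨ a ≠ pj N i) → R + 1 / 2 ≤ ‖F' z - plc Λ (hgt N sp a) (io b)‖ := by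
    intro i hi z hz hz' a b hab
    obtain ⟨l, hl, hw⟩ := s3 i hi z (ball_subset_closedBall hz) hz'
    refine vert_new X hX Λ (hgt N sp (pj N i)) θ (sg i.2.2) (io i.2.1) (S.F (posn N i)) (io_or _)
      (sg_or _) (hb0 i hi) R sp hR hΛR hsp hsp0 (hhgt _).1 (hhgt _).2 hθ0 hθ1 ε hε hε1 (io b)
      (io_or _) (hgt N sp a) (hhgt _).1 (hhgt _).2 l hl ?_ (F' z) hw
    rcases hab with h | h
    · left; exact io_inj _ _ h
    · right; left; exact hgt_sep N sp hsp0 _ _ h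
  have hown : ∀ i ∈ I', ∀ z ∈ ball (0:ℂ) 1, z ∈ ball (posn N i) r →
      ‖F' z - plc Λ (hgt N sp (pj N i)) (io i.2.1)‖ < R + 1 / 2 →
      -(θ + ε) ≤ sg i.2.2 * ((starRingEnd ℂ) (io i.2.1) *
        (F' z - plc Λ (hgt N sp (pj N i)) (io i.2.1))).re := by
    intro i hi z hz hz' hlt
    obtain ⟨l, hl, hw⟩ := s3 i hi z (ball_subset_closedBall hz) hz'
    by_cases hl3 : l < X + 3
    · exfalso
      have := vert_new X hX Λ (hgt N sp (pj N i)) θ (sg i.2.2) (io i.2.1) (S.F (posn N i)) (io_or _)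
        (sg_or _) (hb0 i hi) R sp hR hΛR hsp hsp0 (hhgt _).1 (hhgt _).2 hθ0 hθ1 ε hε hε1
        (io i.2.1) (io_or _) (hgt N sp (pj N i)) (hhgt _).1 (hhgt _).2 l hl (Or.inr (Or.inr hl3))
        (F' z) hw
      linarith only [this, hlt]
    · have hl4 : l = X + 3 := by omega
      rw [hl4] at hw
      exact vert_own X Λ (hgt N sp (pj N i)) θ (sg i.2.2) (io i.2.1) (S.F (posn N i)) (io_or _)
        (sg_or _) hΛ100 hθ0 hθ1 ε (F' z) hw
  have hcovp : ∀ a ∈ J, ∀ b : Bool, closedBall (plc Λ (hgt N sp a) (io b)) (R + 1) ⊆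
      F' '' ball 0 1 := by
    intro a ha b w hw
    rw [mem_closedBall, dist_eq_norm] at hw
    have hA : ((a, b, false) : ZMod N × Bool × Bool) ∈ I' := (hmemI _).mpr ha
    have hB : ((hlf N a, b, true) : ZMod N × Bool × Bool) ∈ I' := (hmemI _).mpr (hJs a ha)
    have hpA : pj N ((a, b, false) : ZMod N × Bool × Bool) = a := by simp [pj]
    have hpB : pj N ((hlf N a, b, true) : ZMod N × Bool × Bool) = a := by
      simp [pj, hlf_hlf N hNe]
    rcases vert_cover X Λ (hgt N sp a) θ (io b) (S.F (posn N (a, b, false)))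
      (S.F (posn N (hlf N a, b, true))) (io_or _) R hR hΛR ε hε hε1 hθ.ge hθ1 w hw with h | h
    · apply s4 _ hA w
      simp only [hv, hpA, sg]
      exact h
    · apply s4 _ hB w
      simp only [hv, hpB, sg]
      exact h
  -- places
  let tr : ZMod N × Bool → ℂ × ℝ × Set ℂ := fun x =>
    (plc Λ (hgt N sp x.1) (io x.2), R,
      ball (posn N (x.1, x.2, false)) r ∪ ball (posn N (hlf N x.1, x.2, true)) r)
  set Pn : Set (ℂ × ℝ × Set ℂ) := {t | ∃ x : ZMod N × Bool, x.1 ∈ J ∧ t = tr x} with hPn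
  have hPnfin : Pn.Finite := by
    apply (Set.finite_range tr).subset
    rintro t ⟨x, -, rfl⟩
    exact ⟨x, rfl⟩
  obtain ⟨a0, ha0⟩ := hJne
  obtain ⟨S', hS1, hS2, hS3, hS4, hS5, hS6, -⟩ := inv_step S hI I' (posn N)
    (fun i _ => posn_norm N i) r hr hrs hZfree
    (by
      have e1 : (I'.card : ℝ) * r ≤ 4 * N * r := mul_le_mul_of_nonneg_right hcardI hr.le
      have e2 : 4 * N * r = 4 * η := by rw [hrη]; field_simp
      linarith only [e1, e2, hVη])
    F' s1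
    (fun z hz hz' => ⟨(s2 z hz hz').1.trans hεe, (s2 z hz hz').2.trans hεe⟩)
    Pn hPnfin
    (by
      rintro t ⟨x, hx, rfl⟩
      exact ⟨hR, plc_axes Λ _ R _ (io_or _) (by have := (hhgt x.1).1; linarith only [this, hsp1, hR])
        (by linarith only [hΛR, hX0, hR]) hR⟩)
    (by
      rintro t ⟨x, hx, rfl⟩ t' ⟨x', hx', rfl⟩ hne
      refine plc_sep Λ _ _ R _ _ (io_or _) (io_or _) hR (by have := (hhgt x.1).1; linarith)
        (by have := (hhgt x'.1).1; linarith) (by linarith only [hΛR, hX0, hR]) ?_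
      by_cases hb : x.2 = x'.2
      · right
        have hxx : x.1 ≠ x'.1 := by
          intro h
          apply hne
          have : x = x' := Prod.ext h hb
          rw [this]
        exact hsp1.trans (hgt_sep N sp hsp0 _ _ hxx)
      · left; exact io_inj _ _ hb)
    (by
      rintro t ⟨x, hx, rfl⟩ t' ht'
      have e1 := plc_norm Λ (hgt N sp x.1) (io x.2) (io_or _) hΛpos
      have e2 := hXP t' ht'
      have e3 : ‖plc Λ (hgt N sp x.1) (io x.2)‖ - ‖t'.1‖ ≤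
        ‖plc Λ (hgt N sp x.1) (io x.2) - t'.1‖ := norm_sub_norm_le _ _
      show R + t'.2.1 + 4 ≤ ‖plc Λ (hgt N sp x.1) (io x.2) - t'.1‖
      linarith only [e1, e2, e3, hΛR, hR, hX0, hΛpos])
    (by
      intro t ht i hi z hz hz'
      obtain ⟨l, hl, hw⟩ := s3 i hi z (ball_subset_closedBall hz) hz'
      obtain ⟨p1, p2, p3⟩ := hI.Pax t ht
      obtain ⟨e2, e3⟩ := hhgt (pj N i)
      exact vert_old X hX Λ (hgt N sp (pj N i)) θ (sg i.2.2) (io i.2.1) (S.F (posn N i)) (io_or _)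
        (sg_or _) (hb0 i hi) hΛ100 (by linarith) e3 hθ0 hθ1 ε hε hε1 t.1 t.2.1 p1 p2 p3
        (hXP t ht) l hl (F' z) hw)
    (by
      rintro t ⟨x, hx, rfl⟩ z hz hzU
      show R + 1 / 2 ≤ ‖F' z - plc Λ (hgt N sp x.1) (io x.2)‖
      by_cases hex : ∃ i ∈ I', z ∈ ball (posn N i) r
      · obtain ⟨i, hi, hz'⟩ := hex
        apply hnew i hi z hz hz'
        by_contra hcon
        push Not at hcon
        apply hzU
        rcases i with ⟨j, b, c⟩
        obtain ⟨hc1, hc2⟩ := hcon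
        simp only at hc1
        cases c
        · left
          have : j = x.1 := by rw [hc2]; simp [pj]
          rw [hc1, ← this]; exact hz'
        · right
          have : j = hlf N x.1 := by rw [hc2]; simp [pj, hlf_hlf N hNe]
          rw [hc1, ← this]; exact hz'
      · push Not at hex
        have e1 := (s2 z (ball_subset_closedBall hz) hex).1
        have e2 := hB0 z (ball_subset_closedBall hz)
        have e3 := plc_norm Λ (hgt N sp x.1) (io x.2) (io_or _) hΛpos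
        have e4 : ‖plc Λ (hgt N sp x.1) (io x.2)‖ ≤
            ‖F' z - plc Λ (hgt N sp x.1) (io x.2)‖ + ‖F' z - S.F z‖ + ‖S.F z‖ := by
          have : plc Λ (hgt N sp x.1) (io x.2) =
            -(F' z - plc Λ (hgt N sp x.1) (io x.2)) + (F' z - S.F z) + S.F z := by ring
          calc _ = ‖-(F' z - plc Λ (hgt N sp x.1) (io x.2)) + (F' z - S.F z) + S.F z‖ := by
                rw [← this]
            _ ≤ ‖-(F' z - plc Λ (hgt N sp x.1) (io x.2)) + (F' z - S.F z)‖ + ‖S.F z‖ :=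
                norm_add_le _ _
            _ ≤ ‖-(F' z - plc Λ (hgt N sp x.1) (io x.2))‖ + ‖F' z - S.F z‖ + ‖S.F z‖ := by
                gcongr; exact norm_add_le _ _
            _ = _ := by rw [norm_neg]
        linarith only [e1, e2, e3, e4, hΛX, hX0, hR, hε1, hB00, hΛpos])
    (by
      rintro t ⟨x, hx, rfl⟩
      exact hcovp x.1 hx x.2)
    ∅ isCompact_empty (empty_subset _)
    (by
      rintro ⟨c, hc⟩
      have hsub := hcovp a0 ha0 false
      obtain ⟨z1, hz1, e1⟩ := hsub (mem_closedBall_self (by linarith only [hR]))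
      have hmem : plc Λ (hgt N sp a0) (io false) + 1 ∈
          closedBall (plc Λ (hgt N sp a0) (io false)) (R + 1) := by
        rw [mem_closedBall, dist_eq_norm, add_sub_cancel_left, norm_one]; linarith only [hR]
      obtain ⟨z2, hz2, e2⟩ := hsub hmem
      rw [hc z1 hz1] at e1
      rw [hc z2 hz2, e1] at e2
      simp at e2)
    ε hε
  refine ⟨S', hS1, hS2, ?_⟩
  intro f hf j hj ι hι
  obtain ⟨b, rfl⟩ : ∃ b : Bool, ι = io b := by
    rcases hι with h | h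
    · exact ⟨false, by simp [io, h]⟩
    · exact ⟨true, by simp [io, h]⟩
  have hA : ((j, b, false) : ZMod N × Bool × Bool) ∈ I' := (hmemI _).mpr hj
  have hB : ((hlf N j, b, true) : ZMod N × Bool × Bool) ∈ I' := (hmemI _).mpr (hJs j hj)
  have hpA : pj N ((j, b, false) : ZMod N × Bool × Bool) = j := by simp [pj]
  have hpB : pj N ((hlf N j, b, true) : ZMod N × Bool × Bool) = j := by
    simp [pj, hlf_hlf N hNe]
  have hrh : rt N (hlf N j) = -rt N j := rt_half N hNe j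
  have hreg : ∀ i ∈ I', ∀ z ∈ ball (posn N i) r, z ∈ reg S'.V := by
    intro i hi z hz
    rw [hS4]; right; exact ⟨i, hi, hz⟩
  have hcl : ∀ i ∈ I', ∀ z ∈ ball (0:ℂ) 1, z ∈ ball (posn N i) r →
      ‖f z - F' z‖ ≤ ε ∧ ‖deriv f z - deriv F' z‖ ≤ ε := by
    intro i hi z hz hz'
    have := hf.close z hz (Or.inr (hreg i hi z hz'))
    rw [hS3] at this
    exact ⟨this.1.trans hS6, this.2.trans hS6⟩
  have hnio : ‖(starRingEnd ℂ) (io b)‖ = 1 := by
    rcases io_or b with h | h <;> simp [h]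
  have hreal : ∀ z : ℂ, ‖f z - F' z‖ ≤ ε →
      |((starRingEnd ℂ) (io b) * (f z - plc Λ (hgt N sp j) (io b))).re -
        ((starRingEnd ℂ) (io b) * (F' z - plc Λ (hgt N sp j) (io b))).re| ≤ ε := by
    intro z hz
    rw [← Complex.sub_re, ← mul_sub]
    have : f z - plc Λ (hgt N sp j) (io b) - (F' z - plc Λ (hgt N sp j) (io b)) = f z - F' z := by
      ring
    rw [this]
    refine (Complex.abs_re_le_norm _).trans ?_
    rw [norm_mul, hnio, one_mul]; exact hz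
  have hlt : ∀ z : ℂ, ‖f z - F' z‖ ≤ ε → ‖f z - plc Λ (hgt N sp j) (io b)‖ < R →
      ‖F' z - plc Λ (hgt N sp j) (io b)‖ < R + 1 / 2 := by
    intro z hz hz'
    have : F' z - plc Λ (hgt N sp j) (io b) =
      (f z - plc Λ (hgt N sp j) (io b)) - (f z - F' z) := by ring
    rw [this]
    refine lt_of_le_of_lt (norm_sub_le _ _) ?_
    linarith only [hz, hz', hε1]
  have hderf : ∀ i ∈ I', ∀ z ∈ ball (0:ℂ) 1, z ∈ ball (posn N i) r →
      ‖deriv f z‖ ≤ L + C / (2 * q ^ (X + 4)) + 1 := by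
    intro i hi z hz hz'
    have e1 := (hcl i hi z hz hz').2
    have e2 := s5 L hL z (ball_subset_closedBall hz)
    have e3 : deriv f z = (deriv f z - deriv F' z) + deriv F' z := by ring
    rw [e3]
    refine (norm_add_le _ _).trans ?_
    linarith only [e1, e2, hε1]
  have hballs : ∀ i ∈ I', ball (posn N i) r ⊆ closedBall (rt N i.1) (5 / N) := by
    intro i hi z hz
    rw [mem_ball, dist_eq_norm] at hz
    rw [mem_closedBall, dist_eq_norm]
    have e1 := posn_close N i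
    have e2 : z - rt N i.1 = (z - posn N i) + (posn N i - rt N i.1) := by ring
    rw [e2]
    refine (norm_add_le _ _).trans ?_
    have e5 : r ≤ (1 / 8000) * (1 / N) := by
      rw [hrη, ← mul_one_div]; gcongr
    have e6 : (24 / 5) / (N:ℝ) = (24 / 5) * (1 / N) := by ring
    have e8 : 5 / (N:ℝ) = 5 * (1 / N) := by ring
    rw [e6] at e1; rw [e8]
    have e9 : 0 < 1 / (N:ℝ) := by positivity
    linarith only [e1, e5, e9, hz]
  refine ⟨plc Λ (hgt N sp j) (io b), posn N (j, b, false), posn N (hlf N j, b, true),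
    hballs _ hA, ?_, ?_, ?_, ?_, ?_⟩
  · have := hballs _ hB
    simp only [hrh] at this
    exact this
  · intro z hz hzA hzB
    have hmem : tr (j, b) ∈ S'.P := by
      rw [hS5]; right; exact ⟨(j, b), hj, rfl⟩
    have := hf.avoid _ hmem z hz (by
      rintro (h | h)
      · exact hzA h
      · exact hzB h)
    exact this
  · intro z hz hzA hzR
    have e1 := (hcl _ hA z hz hzA).1
    have e2 := hown _ hA z hz hzA (by rw [hpA]; exact hlt z e1 hzR)
    rw [hpA] at e2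
    have e3 := hreal z e1
    rw [abs_le] at e3
    simp only [sg] at e2
    simp only [Bool.false_eq_true, if_false] at e2
    linarith only [e2, e3.1, e3.2, hθ7, hδ]
  · intro z hz hzB hzR
    have e1 := (hcl _ hB z hz hzB).1
    have e2 := hown _ hB z hz hzB (by rw [hpB]; exact hlt z e1 hzR)
    rw [hpB] at e2
    have e3 := hreal z e1
    rw [abs_le] at e3
    simp only [sg] at e2
    simp only [if_true] at e2
    linarith only [e2, e3.1, e3.2, hθ7, hδ]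
  · rintro z hz (h | h)
    · exact hderf _ hA z hz h
    · exact hderf _ hB z hz h

theorem Room.mono {f : ℂ → ℂ} {R r δ Q Q' : ℝ} {ι p zA zB : ℂ} (h : Room f R r δ Q ι p zA zB)
    (hQ : Q ≤ Q') : Room f R r δ Q' ι p zA zB :=
  ⟨h.1, h.2.1, h.2.2.1, fun z hz hz' => (h.2.2.2 z hz hz').trans hQ⟩

theorem block (S : St) (hI : Inv S) (k : ℝ) (hk : 1 ≤ k) :
    ∃ S', Inv S' ∧ Step S S' ∧ ∀ f, Near S' f → ∀ g : ℂ → ℂ, DifferentiableOn ℂ g (ball 0 1) →
      InjOn g (ball 0 1) → (∀ z ∈ ball (0:ℂ) 1, ‖g z‖ ≤ k) → 1 / k ≤ ‖deriv g 0‖ →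
      (fun z => f z + g z) '' ball 0 1 ≠ univ := by
  classical
  -- constants
  obtain ⟨B0, hB0⟩ := (isCompact_closedBall (0:ℂ) 1).exists_bound_of_continuousOn
    hI.an.continuousOn
  obtain ⟨L, hL⟩ := (isCompact_closedBall (0:ℂ) 1).exists_bound_of_continuousOn
    hI.an.deriv.continuousOn
  have hB00 : 0 ≤ B0 := (norm_nonneg _).trans (hB0 0 (by simp))
  obtain ⟨X0, hX0⟩ : ∃ X0 : ℝ, ∀ t ∈ S.P, ‖t.1‖ + t.2.1 + 5 ≤ X0 := by
    obtain ⟨M, hM⟩ := (hI.Pfin.image (fun t => ‖t.1‖ + t.2.1 + 5)).bddAbove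
    exact ⟨M, fun t ht => hM (mem_image_of_mem _ ht)⟩
  obtain ⟨X, hX⟩ := exists_nat_ge (max X0 1)
  have hX1 : 1 ≤ X := by
    have : ((1:ℕ):ℝ) ≤ X := by push_cast; exact (le_max_right _ _).trans hX
    exact_mod_cast this
  have hXP : ∀ t ∈ S.P, ‖t.1‖ + t.2.1 + 5 ≤ X := fun t ht =>
    (hX0 t ht).trans ((le_max_left _ _).trans hX)
  set R : ℝ := 2 * k + 3 with hRdef
  have hR : 0 < R := by rw [hRdef]; linarith
  set δ : ℝ := 1 / (4 * k ^ 2) with hδ
  have hδpos : 0 < δ := by rw [hδ]; positivity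
  set ε : ℝ := min (S.e / 16) (δ / 100) with hεdef
  have hε : 0 < ε := lt_min (by have := hI.epos; positivity) (by positivity)
  have hε1 : ε ≤ S.e / 16 := min_le_left _ _
  have hε2 : ε ≤ δ / 100 := min_le_right _ _
  have hele := hI.ele
  have hepos := hI.epos
  have hVsum := hI.Vsum
  set η : ℝ := (1 / 1000 - ∑ b ∈ S.V, b.2) / 8 with hη
  have hVnn : 0 ≤ ∑ b ∈ S.V, b.2 := Finset.sum_nonneg (fun b hb => (hI.Vunit b hb).2.le)
  have hηpos : 0 < η := by rw [hη]; linarith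
  have hη1 : η ≤ 1 / 8000 := by rw [hη]; linarith
  obtain ⟨B1, hB1⟩ : ∃ B1 : ℝ, ∀ b ∈ S.V, 3 / b.2 ≤ B1 := by
    obtain ⟨M, hM⟩ := ((S.V.finite_toSet).image (fun b : ℂ × ℝ => 3 / b.2)).bddAbove
    exact ⟨M, fun b hb => hM (mem_image_of_mem _ hb)⟩
  set B : ℝ := max (max B1 (X + 100 * (R + 2) + B0)) (max (2 * R + 4) (2 / (1 - S.s))) with hB
  have hBa : B1 ≤ B := (le_max_left _ _).trans (le_max_left _ _)
  have hBb : X + 100 * (R + 2) + B0 ≤ B := (le_max_right _ _).trans (le_max_left _ _)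
  have hBc : 2 * R + 4 ≤ B := (le_max_left _ _).trans (le_max_right _ _)
  have hBd : 2 / (1 - S.s) ≤ B := (le_max_right _ _).trans (le_max_right _ _)
  have hslt := hI.slt
  -- choose n
  have htend : Tendsto (fun n : ℕ => 4 * n ^ 8) atTop atTop := by
    apply tendsto_atTop_mono (f := fun n : ℕ => n) _ tendsto_id
    intro n
    calc n ≤ n ^ 8 := Nat.le_self_pow (by norm_num) n
      _ ≤ 4 * n ^ 8 := by omega
  obtain ⟨n, ⟨⟨h1, h2⟩, h3⟩, hn⟩ := (((detection k hk (X + 5)).and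
    (num_block X R L ε η B hR hε hηpos)).and
    (htend.eventually (free_pos S.V hI.Vunit hI.Vsum))).and (eventually_ge_atTop 1) |>.exists
  obtain ⟨N, hN⟩ : ∃ N : ℕ, N = 4 * n ^ 8 := ⟨_, rfl⟩
  rw [← hN] at h3
  have hn8 : 1 ≤ n ^ 8 := Nat.one_le_pow _ _ (by omega)
  haveI hNz : NeZero N := ⟨by omega⟩
  have hNe : Even N := ⟨2 * n ^ 8, by rw [hN]; ring⟩
  have hNr : (N:ℝ) = 4 * (n:ℝ) ^ 8 := by rw [hN]; push_cast; ring
  set J : Finset (ZMod N) := Finset.univ.filter (fun a : ZMod N =>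
    ∀ b ∈ S.V, 3 * b.2 ≤ ‖rt N a - b.1‖ ∧ 3 * b.2 ≤ ‖-rt N a - b.1‖) with hJ
  have hJm : ∀ a : ZMod N, a ∈ J ↔ ∀ b ∈ S.V, 3 * b.2 ≤ ‖rt N a - b.1‖ ∧
      3 * b.2 ≤ ‖-rt N a - b.1‖ := by
    intro a; rw [hJ, Finset.mem_filter]; simp
  have hJc := h3 hNz J hJm
  have hJs : ∀ a ∈ J, hlf N a ∈ J := by
    intro a ha
    rw [hJm] at ha ⊢
    intro b hb
    have e1 := ha b hb
    have e2 : rt N (hlf N a) = -rt N a := rt_half N hNe a
    rw [e2, neg_neg]
    exact ⟨e1.2, e1.1⟩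
  have hJne : J.Nonempty := by
    rw [← Finset.card_pos]
    omega
  obtain ⟨c1, c2, c3, c4, c5, c6, c7, c8, c9, c10, c11, c12, c13⟩ := h2 N
    (100 * N * (R + 2) ^ 2) (N * (100 * N * (R + 2) ^ 2)) (Real.exp (-(n:ℝ))) (η / N)
    ((4 * N) * (20 * (N * (100 * N * (R + 2) ^ 2)))) hNr rfl rfl rfl rfl rfl
  have hNpos : (0:ℝ) < N := by linarith
  obtain ⟨S', hS1, hS2, hS3⟩ := block_core S hI R ε δ X N hNe J
    (fun a ha b hb => ((hJm a).mp ha b hb).1) hJs hJne (100 * N * (R + 2) ^ 2)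
    (N * (100 * N * (R + 2) ^ 2)) (Real.exp (-(n:ℝ))) (η / N) L B0
    (6 * ε + 2 * (R + 2) ^ 2 / (N * (100 * N * (R + 2) ^ 2))) η hR hε
    (by linarith) (by linarith) hX1 hXP hB0 hL hηpos hη1 rfl
    (by rw [hη]; linarith)
    (by
      have e1 : 0 < 1 - S.s := by linarith
      have e2 : (η / N) * (2 / (1 - S.s)) ≤ 1 :=
        (mul_le_mul_of_nonneg_left hBd c8.le).trans c5
      rw [← mul_div_assoc, div_le_one e1] at e2
      linarith)
    (by
      intro b hb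
      have e1 : 3 / b.2 ≤ N := (hB1 b hb).trans (hBa.trans c2)
      have e2 := (hI.Vunit b hb).2
      rw [div_le_iff₀ e2] at e1
      rw [div_le_iff₀ hNpos]
      linarith)
    (by positivity) (hBc.trans c3) rfl (by apply le_of_eq; ring) (hBb.trans c4) rfl c12
    (by linarith) c6 c7 _ rfl c9 c10 c11
  refine ⟨S', hS1, hS2, ?_⟩
  intro f hf g hg hi hgk hg0
  refine h1 N hNz hN J hJc hJs f hf.diff R (η / N) (by rw [hRdef]; linarith) ?_ g hg hi hgk hg0
  intro j hj ι hι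
  obtain ⟨p, zA, zB, r1, r2, r3⟩ := hS3 f hf j hj ι hι
  exact ⟨p, zA, zB, r1, r2, r3.mono c13⟩

theorem limit_near (S : ℕ → St) (hI : ∀ n, Inv (S n)) (hS : ∀ n, Step (S n) (S (n + 1))) :
    ∃ f, ∀ n, Near (S n) f := by
  obtain ⟨f, hf1, hf2, hf3⟩ := limit_fn (fun n => (S n).F)
    (fun n => ((hI n).an.differentiableOn).mono ball_subset_closedBall)
    (fun n => (S n).s) (fun n => (S n).e) (fun n => reg (S n).V) (fun n => reg_mono (hS n).hV)
    (fun n => (hS n).hs) (hI 0).spos (fun n => (hI n).slt) (fun n => (hS n).he)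
    (fun n => (hI n).epos) (fun n => (hS n).hF)
  refine ⟨f, fun n => ⟨hf1, hf3 n, ?_⟩⟩
  intro t ht z hz hzt
  have hmono : ∀ m, n ≤ m → t ∈ (S m).P := by
    intro m hm
    induction m, hm using Nat.le_induction with
    | base => exact ht
    | succ m _ ih => exact (hS m).hP ih
  have hlim : Tendsto (fun m => ‖(S m).F z - t.1‖) atTop (𝓝 ‖f z - t.1‖) :=
    ((hf2 z hz).sub_const _).norm
  refine ge_of_tendsto hlim ?_
  filter_upwards [eventually_ge_atTop n] with m hm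
  have := (hI m).avoid t (hmono m hm) z hz hzt
  have := (hI m).epos
  linarith

/-- initial state -/
noncomputable def init : St := ⟨fun _ => 0, ∅, 1 / 2, 1 / 8, ∅⟩

theorem inv_init : Inv init := by
  refine ⟨analyticOnNhd_const, ?_, ?_, ?_, ?_, ?_, ?_, ?_, ?_, ?_, ?_, ?_, ?_⟩ <;>
    simp [init] <;> norm_num

/-- requirement of stage `n` -/
def Req (n : ℕ) (S' : St) : Prop := ∀ f, Near S' f →
  (Even n → ∀ g : ℂ → ℂ, DifferentiableOn ℂ g (ball 0 1) →
      InjOn g (ball 0 1) → (∀ z ∈ ball (0:ℂ) 1, ‖g z‖ ≤ (n + 1 : ℝ)) →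
      1 / (n + 1 : ℝ) ≤ ‖deriv g 0‖ →
      (fun z => f z + g z) '' ball 0 1 ≠ univ) ∧
  (¬ Even n → closedBall 0 (n + 1 : ℝ) ⊆ f '' ball 0 1)

theorem exists_step (n : ℕ) (S : St) (hI : Inv S) : ∃ S', Inv S' ∧ Step S S' ∧ Req n S' := by
  have hn : (1:ℝ) ≤ (n + 1 : ℝ) := by
    have : (0:ℝ) ≤ n := Nat.cast_nonneg n
    linarith
  by_cases h : Even n
  · obtain ⟨S', h1, h2, h3⟩ := block S hI (n + 1) hn
    exact ⟨S', h1, h2, fun f hf => ⟨fun _ => h3 f hf, fun h' => absurd h h'⟩⟩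
  · obtain ⟨S', h1, h2, h3⟩ := filler S hI (n + 1) hn
    exact ⟨S', h1, h2, fun f hf => ⟨fun h' => absurd h' h, fun _ => h3 f hf⟩⟩

theorem exists_f : ∃ f : ℂ → ℂ, DifferentiableOn ℂ f (ball 0 1) ∧
    f '' ball 0 1 = univ ∧
    ∀ g : ℂ → ℂ, DifferentiableOn ℂ g (ball 0 1) → InjOn g (ball 0 1) →
      (∃ M : ℝ, ∀ z ∈ ball (0:ℂ) 1, ‖g z‖ ≤ M) → (fun z => f z + g z) '' ball 0 1 ≠ univ := by
  classical
  choose! nxt h1 h2 h3 using exists_step
  let S : ℕ → St := fun n => Nat.rec init (fun n s => nxt n s) n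
  have hS0 : S 0 = init := rfl
  have hSs : ∀ n, S (n + 1) = nxt n (S n) := fun n => rfl
  have hI : ∀ n, Inv (S n) := by
    intro n
    induction n with
    | zero => exact inv_init
    | succ n ih => rw [hSs]; exact h1 n _ ih
  have hSt : ∀ n, Step (S n) (S (n + 1)) := by
    intro n; rw [hSs]; exact h2 n _ (hI n)
  have hR : ∀ n, Req n (S (n + 1)) := by
    intro n; rw [hSs]; exact h3 n _ (hI n)
  obtain ⟨f, hf⟩ := limit_near S hI hSt
  refine ⟨f, (hf 0).diff, ?_, ?_⟩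
  · rw [eq_univ_iff_forall]
    intro w
    obtain ⟨n, hn⟩ := exists_nat_ge ‖w‖
    have h := (hR (2 * n + 1) f (hf (2 * n + 1 + 1))).2 (by simp)
    apply h
    rw [mem_closedBall, dist_zero_right]
    push_cast
    have : (0:ℝ) ≤ n := Nat.cast_nonneg n
    linarith
  · rintro g hg hi ⟨M, hM⟩
    have hd := norm_pos_iff.mpr (deriv_ne_zero_of_inj g hg hi)
    obtain ⟨n, hn⟩ := exists_nat_ge (max M (1 / ‖deriv g 0‖))
    have hn0 : (0:ℝ) ≤ n := Nat.cast_nonneg n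
    have h := (hR (2 * n) f (hf (2 * n + 1))).1 (by simp)
    apply h g hg hi
    · intro z hz
      push_cast
      have := hM z hz
      have := le_max_left M (1 / ‖deriv g 0‖)
      linarith
    · push_cast
      rw [div_le_iff₀ (by linarith)]
      have h4 := le_max_right M (1 / ‖deriv g 0‖)
      have h5 : 1 / ‖deriv g 0‖ ≤ 2 * n + 1 := by linarith
      rw [div_le_iff₀ hd] at h5
      linarith [mul_comm (‖deriv g 0‖) (2 * (n:ℝ) + 1)]

theorem main :
    ¬ (∀ f : ℂ → ℂ, AnalyticOnNhd ℂ f (Metric.ball (0:ℂ) 1) →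
      f '' Metric.ball (0:ℂ) 1 = Set.univ →
      ∃ g : ℂ → ℂ, AnalyticOnNhd ℂ g (Metric.ball (0:ℂ) 1) ∧
        Set.InjOn g (Metric.ball (0:ℂ) 1) ∧
        Bornology.IsBounded (g '' Metric.ball (0:ℂ) 1) ∧
        (fun z => f z + g z) '' Metric.ball (0:ℂ) 1 = Set.univ) := by
  intro H
  obtain ⟨f, hf1, hf2, hf3⟩ := exists_f
  obtain ⟨g, hg1, hg2, hg3, hg4⟩ := H f (hf1.analyticOnNhd isOpen_ball) hf2
  obtain ⟨M, hM⟩ := hg3.exists_norm_le
  exact hf3 g hg1.differentiableOn hg2 ⟨M, fun z hz => hM _ (mem_image_of_mem g hz)⟩ hg4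

end Pool.Agent.Helper469.Univalent
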